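import Pool.Agent.AutSol.Dec

/-! # Q4 (module 12b): the quotient machine has bounded multiplicity -/

set_option autoImplicit false

namespace Pool.Agent.AutSol

namespace Mach

variable {G : Type} [Group G] {M : Mach G} {ζ : G} {D : ℕ}

/-- A common multiple of the exponents of the uniform loops. -/
theorem exists_common_mul {N : ℕ} {Z : M.S → List M.A} {n : M.S → ℕ}
    (hL : M.Loops ζ N Z n) : ∃ n0 : ℕ, 1 ≤ n0 ∧ ∀ s, M.Sp ζ s → n s ∣ n0 := by
  classical
  have := Fintype.ofFinite M.S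
  refine ⟨∏ s : M.S, (if M.Sp ζ s then n s else 1), ?_, ?_⟩
  · refine Nat.one_le_iff_ne_zero.mpr (Finset.prod_ne_zero_iff.mpr ?_)
    intro s _
    split_ifs with h
    · have := hL.npos s h
      omega
    · exact one_ne_zero
  · intro s hs
    have h := Finset.dvd_prod_of_mem (fun s : M.S => (if M.Sp ζ s then n s else 1))
      (Finset.mem_univ s)
    simpa [hs] using h

/-- The decomposition of the words accepted by the quotient machine. -/
theorem bar_acc_dec (hc : M.Ctx ζ D) {N : ℕ} {G' : Type} [Group G'] {φ : G →* G'}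
    {p : List M.A} (h : (M.bar (M.SpSet ζ) N φ).Acc p) :
    M.Acc p ∧ ∃ u c w, M.Dec ζ p u c w ∧ c.length < N := by
  rw [bar_acc] at h
  obtain ⟨h1, h2, h3⟩ := h
  obtain ⟨u, c, w, hd⟩ := dec_exists hc h2
  refine ⟨h1, u, c, w, hd, ?_⟩
  have := hd.tot_eq hc
  omega

/-- Inflated words are distinct. -/
theorem inflate_inj {N : ℕ} {Z : M.S → List M.A} {n : M.S → ℕ}
    (hL : M.Loops ζ N Z n) {p u c w p' u' c' w' : List M.A} (h : M.Dec ζ p u c w)
    (h' : M.Dec ζ p' u' c' w') (hcN : c.length < N) (hcN' : c'.length < N) {f f' : ℕ}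
    (he : u ++ (rep f (Z (M.st M.start u)) ++ c) ++ w =
      u' ++ (rep f' (Z (M.st M.start u')) ++ c') ++ w') : p = p' := by
  have hd := h.inflate hL f
  have hd' := h'.inflate hL f'
  rw [← he] at hd'
  obtain ⟨hu, hcc, hw⟩ := hd.unique hd'
  subst hu
  subst hw
  have hlen := congrArg List.length hcc
  have hZ := hL.len _ h.enter
  simp only [List.length_append, length_rep, hZ] at hlen
  have hff : f = f' := by
    rcases lt_trichotomy f f' with hlt | heq | hgt
    · exfalso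
      have : (f + 1) * N ≤ f' * N := Nat.mul_le_mul_right _ hlt
      rw [Nat.add_mul] at this
      omega
    · exact heq
    · exfalso
      have : (f' + 1) * N ≤ f * N := Nat.mul_le_mul_right _ hgt
      rw [Nat.add_mul] at this
      omega
  subst hff
  have hc2 : c = c' := List.append_cancel_left hcc
  subst hc2
  rw [h.eq, h'.eq]

/-- The core of the counting argument. -/
theorem bar_bdd_core (hc : M.Ctx ζ D) {N : ℕ} {Z : M.S → List M.A} {n : M.S → ℕ}
    (hL : M.Loops ζ N Z n) {G' : Type} [Group G'] (φ : G →* G') (hφ : Function.Surjective φ)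
    (hker : ∀ g : G, φ g = 1 → ∃ k : ℤ, g = ζ ^ k) {n0 : ℕ} (hn0 : 1 ≤ n0)
    (hdvd : ∀ s, M.Sp ζ s → n s ∣ n0) (g' : G') (T : Finset (List M.A))
    (hT : ∀ p ∈ T, (M.Acc p ∧ ∃ u c w, M.Dec ζ p u c w ∧ c.length < N) ∧ φ (M.v p) = g') :
    T.card ≤ D * n0 := by
  classical
  by_contra hcard
  rw [not_le] at hcard
  obtain ⟨g0, hg0⟩ := hφ g'
  -- choose the data for the words in `T`
  have hdata : ∀ p : List M.A, ∃ (u c w : List M.A) (k : ℤ), p ∈ T → M.Acc p ∧
      M.Dec ζ p u c w ∧ c.length < N ∧ M.v p = g0 * ζ ^ k := by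
    intro p
    by_cases hp : p ∈ T
    · obtain ⟨⟨ha', u, c, w, hd, hlen⟩, hv'⟩ := hT p hp
      obtain ⟨k, hk⟩ := hker (g0⁻¹ * M.v p) (by rw [map_mul, map_inv, hv', hg0, inv_mul_cancel])
      refine ⟨u, c, w, k, fun _ => ⟨ha', hd, hlen, ?_⟩⟩
      rw [← hk, mul_inv_cancel_left]
    · exact ⟨[], [], [], 0, fun h => absurd h hp⟩
  choose u c w k hk using hdata
  -- pigeonhole
  have hn0' : (0 : ℤ) < n0 := by exact_mod_cast hn0
  have hmaps : ∀ p ∈ T, (k p % n0).toNat ∈ Finset.range n0 := by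
    intro p _
    rw [Finset.mem_range]
    have h1 := Int.emod_nonneg (k p) hn0'.ne'
    have h2 := Int.emod_lt_of_pos (k p) hn0'
    omega
  obtain ⟨r, -, hr⟩ := Finset.exists_lt_card_fiber_of_mul_lt_card_of_maps_to
    (f := fun p => (k p % n0).toNat) hmaps (n := D)
    (by rw [Finset.card_range, Nat.mul_comm]; exact hcard)
  obtain ⟨T', hT'⟩ : ∃ T' : Finset (List M.A),
      T' = T.filter (fun p => (k p % n0).toNat = r) := ⟨_, rfl⟩
  rw [← hT'] at hr
  -- an upper bound for the quotients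
  obtain ⟨C, hC⟩ : ∃ C : ℤ, ∀ p ∈ T', k p / n0 ≤ C := by
    obtain ⟨C, hC⟩ := (T'.image (fun p => k p / n0)).bddAbove
    refine ⟨C, fun p hp => hC ?_⟩
    simp only [Finset.coe_image, Set.mem_image, Finset.mem_coe]
    exact ⟨p, hp, rfl⟩
  obtain ⟨f, hf⟩ : ∃ f : List M.A → ℕ,
      ∀ p, f p = (C - k p / n0).toNat * (n0 / n (M.st M.start (u p))) := ⟨_, fun _ => rfl⟩
  obtain ⟨I, hI⟩ : ∃ I : List M.A → List M.A, ∀ p, I p =
    u p ++ (rep (f p) (Z (M.st M.start (u p))) ++ c p) ++ w p := ⟨_, fun _ => rfl⟩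
  have hTT : ∀ p ∈ T', p ∈ T ∧ (k p % n0).toNat = r := by
    intro p hp
    rw [hT', Finset.mem_filter] at hp
    exact hp
  have hinj : Set.InjOn I (T' : Set (List M.A)) := by
    intro p hp q hq hpq
    obtain ⟨-, hdp, hcp, -⟩ := hk p (hTT p hp).1
    obtain ⟨-, hdq, hcq, -⟩ := hk q (hTT q hq).1
    rw [hI, hI] at hpq
    exact inflate_inj hL hdp hdq hcp hcq hpq
  have hcardI := Finset.card_image_of_injOn hinj
  have hb := hc.bdd (g0 * ζ ^ ((r : ℤ) + n0 * C)) (T'.image I) (by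
    intro x hx
    rw [Finset.mem_image] at hx
    obtain ⟨p, hp, rfl⟩ := hx
    obtain ⟨hpT, hpr⟩ := hTT p hp
    obtain ⟨hap, hdp, hcp, hvp⟩ := hk p hpT
    rw [hI]
    refine ⟨hdp.inflate_acc hL hap (f p), ?_⟩
    have hval := hdp.inflate_v hc hL (f p)
    rw [hval, hvp, mul_assoc, ← zpow_natCast, ← zpow_add]
    congr 2
    have hn := hdvd _ hdp.enter
    have hCp := hC p hp
    have h1 : f p * n (M.st M.start (u p)) = (C - k p / n0).toNat * n0 := by
      rw [hf, Nat.mul_assoc, Nat.div_mul_cancel hn]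
    rw [h1]
    push_cast
    rw [Int.toNat_of_nonneg (by omega)]
    have h2 : ((k p % n0).toNat : ℤ) = k p % n0 :=
      Int.toNat_of_nonneg (Int.emod_nonneg (k p) hn0'.ne')
    rw [hpr] at h2
    rw [h2]
    have h3 := Int.emod_add_mul_ediv (k p) n0
    linarith [h3, mul_comm (C : ℤ) n0, mul_comm (k p / n0) (n0 : ℤ),
      sub_mul C (k p / n0) (n0 : ℤ)])
  rw [hcardI] at hb
  exact absurd hb (not_le.mpr hr)

/-- The quotient machine has bounded multiplicity, with `D' = D * n0`, `n0` a common multiple of the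
`n s`. -/
theorem bar_bdd (hc : M.Ctx ζ D) {N : ℕ} {Z : M.S → List M.A} {n : M.S → ℕ}
    (hL : M.Loops ζ N Z n) {G' : Type} [Group G'] (φ : G →* G') (hφ : Function.Surjective φ)
    (hker : ∀ g : G, φ g = 1 → ∃ k : ℤ, g = ζ ^ k) :
    ∃ D', (M.bar (M.SpSet ζ) N φ).Bdd D' := by
  obtain ⟨n0, hn0, hdvd⟩ := exists_common_mul hL
  refine ⟨D * n0, fun g' T hT => ?_⟩
  refine bar_bdd_core hc hL φ hφ hker hn0 hdvd g' T ?_
  intro p hp
  obtain ⟨ha, hv⟩ := hT p hp
  exact ⟨bar_acc_dec hc ha, (bar_v p).symm.trans hv⟩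

end Mach

end Pool.Agent.AutSol
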