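import Pool.Agent.AutSol.Times

/-! # Q5 (module 13b): the fellow traveller property of the quotient machine -/

set_option autoImplicit false

namespace Pool.Agent.AutSol

namespace Mach

/-- The choice of the numbers of inserted loops. -/
theorem choose_f (T b : ℕ) (k : ℤ) (n n' : ℕ) (hn : 1 ≤ n) (hn' : 1 ≤ n') (hb : n ≤ b) :
    ∃ f f' : ℕ, T ≤ f ∧ T ≤ f' ∧ -(b : ℤ) ≤ k + f' * n' - f * n ∧ k + f' * n' - f * n ≤ b := by
  obtain ⟨a, ha⟩ : ∃ a : ℕ, -(a : ℤ) ≤ k := ⟨k.natAbs, by omega⟩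
  obtain ⟨F, hF⟩ : ∃ F : ℕ, F = T * n + a + T := ⟨_, rfl⟩
  have h2 : (F : ℤ) ≤ (F : ℤ) * n' := by
    have : (1 : ℤ) ≤ (n' : ℤ) := by exact_mod_cast hn'
    nlinarith [Int.natCast_nonneg F]
  have h3 : (F : ℤ) = ((T * n : ℕ) : ℤ) + a + T := by rw [hF]; push_cast; ring
  have h1 : 0 ≤ k + (F : ℤ) * n' := by omega
  obtain ⟨m, hm⟩ := Int.eq_ofNat_of_zero_le h1
  refine ⟨m / n, F, ?_, by omega, ?_⟩
  · rw [Nat.le_div_iff_mul_le (by omega)]
    omega
  · rw [hm]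
    have h6 := Nat.div_add_mod m n
    have h7 := Nat.mod_lt m (show 0 < n by omega)
    have h8 : (m : ℤ) - ((m / n : ℕ) : ℤ) * n = ((m % n : ℕ) : ℤ) := by
      have : (m : ℤ) = ((n * (m / n) + m % n : ℕ) : ℤ) := by rw [h6]
      rw [eq_comm, eq_sub_iff_add_eq, this]
      push_cast [-Int.natCast_ediv, -Int.natCast_emod]
      ring
    have h9 : (m : ℤ) - ((m / n : ℕ) : ℤ) * n = ((m % n : ℕ) : ℤ) := h8
    constructor <;> omega

variable {G : Type} [Group G] {M : Mach G} {ζ : G} {D : ℕ}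

/-- Two prefixes of nearly the same length have nearly the same value. -/
theorem take_diff (M : Mach G) (p : List M.A) {i j C : ℕ} (h : i ≤ j) (hC : j ≤ i + C) :
    ∃ a ∈ M.Vals C, M.v (p.take j) = M.v (p.take i) * a := by
  refine ⟨M.val (M.st M.start (p.take i)) ((p.take j).drop i), ⟨_, _, ?_, rfl⟩, ?_⟩
  · rw [List.length_drop, List.length_take]; omega
  · rw [← v_append]
    congr 1
    have h1 := (List.take_append_drop i (p.take j)).symm
    rwa [List.take_take, min_eq_left h] at h1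

/-- The prefixes before the insertion point are not changed. -/
theorem take_inflate {A : Type} (u c w x : List A) {m : ℕ} (h : m ≤ u.length) :
    (u ++ (x ++ c) ++ w).take m = (u ++ c ++ w).take m := by
  rw [List.append_assoc u (x ++ c) w, List.append_assoc u c w, List.take_append_of_le_length h,
    List.take_append_of_le_length h]

/-- The core of the proof, without the quotient machine. -/
theorem ftp_core (hc : M.Ctx ζ D) (hF : M.FTP) {N : ℕ} {Z : M.S → List M.A} {n : M.S → ℕ}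
    (hL : M.Loops ζ N Z n) {G' : Type} [Group G'] (φ : G →* G') (hφ : Function.Surjective φ)
    (hker : ∀ g : G, φ g = 1 → ∃ k : ℤ, g = ζ ^ k) (hζ : φ ζ = 1) (F' : Set G')
    (hF' : F'.Finite) :
    ∃ E' : Set G', E'.Finite ∧ ∀ p p' : List M.A, M.Acc p → M.Acc p' →
      1 ≤ M.tot (M.SpSet ζ) p → M.tot (M.SpSet ζ) p ≤ N →
      1 ≤ M.tot (M.SpSet ζ) p' → M.tot (M.SpSet ζ) p' ≤ N →
      (φ (M.v p))⁻¹ * φ (M.v p') ∈ F' →
      ∀ t, (φ (M.v (p.take t)))⁻¹ * φ (M.v (p'.take t)) ∈ E' := by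
  obtain ⟨b, hb⟩ : ∃ b : ℕ, ∀ s, n s ≤ b := by
    obtain ⟨b, hb⟩ := (Set.finite_range n).bddAbove
    exact ⟨b, fun s => hb ⟨s, rfl⟩⟩
  obtain ⟨σ, hσ⟩ : ∃ σ : G' → G, ∀ x, φ (σ x) = x :=
    ⟨Function.surjInv hφ, Function.surjInv_eq hφ⟩
  have hcom : ∀ (g : G) (i : ℤ), ζ ^ i * g = g * ζ ^ i := fun g i =>
    ((show Commute ζ g from hc.cen g).zpow_left i).eq
  obtain ⟨F2, hF2, hF2'⟩ : ∃ F2 : Set G, F2.Finite ∧ ∀ x ∈ F', ∀ i : ℤ, -(b : ℤ) ≤ i → i ≤ b →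
      σ x * ζ ^ i ∈ F2 := by
    refine ⟨Set.image2 (fun x (i : ℤ) => σ x * ζ ^ i) F' (Set.Icc (-(b : ℤ)) b),
      hF'.image2 _ (Set.finite_Icc _ _), ?_⟩
    intro x hx i hi1 hi2
    exact ⟨x, hx, i, ⟨hi1, hi2⟩, rfl⟩
  obtain ⟨F3, hF3, hF3a, hF3b⟩ : ∃ F3 : Set G, F3.Finite ∧ (∀ x ∈ F2, x ∈ F3) ∧
      ∀ x ∈ F2, x⁻¹ ∈ F3 :=
    ⟨F2 ∪ (fun x => x⁻¹) '' F2, hF2.union (hF2.image _), fun x hx => Or.inl hx,
      fun x hx => Or.inr ⟨x, hx, rfl⟩⟩
  obtain ⟨E2, hE2, hE2'⟩ := hF F2 hF2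
  obtain ⟨C1, hC1⟩ := entry hc hF hL F3 hF3
  obtain ⟨C2, hC2⟩ := exit_time hc hF hL F3 hF3
  obtain ⟨C, hCdef⟩ : ∃ C, C = N + C1 + C2 := ⟨_, rfl⟩
  obtain ⟨V, hV, hVa, hVb, hVc, hVd⟩ : ∃ V : Set G, V.Finite ∧ (∀ a ∈ M.Vals C1, a ∈ V) ∧
      (∀ a ∈ M.Vals C1, a⁻¹ ∈ V) ∧ (∀ a ∈ M.Vals C, a ∈ V) ∧ (∀ a ∈ M.Vals C, a⁻¹ ∈ V) :=
    ⟨(M.Vals C1 ∪ (fun x => x⁻¹) '' M.Vals C1) ∪ (M.Vals C ∪ (fun x => x⁻¹) '' M.Vals C),
      (((M.Vals_finite C1).union ((M.Vals_finite C1).image _)).union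
        ((M.Vals_finite C).union ((M.Vals_finite C).image _))),
      fun a ha => Or.inl (Or.inl ha), fun a ha => Or.inl (Or.inr ⟨a, ha, rfl⟩),
      fun a ha => Or.inr (Or.inl ha), fun a ha => Or.inr (Or.inr ⟨a, ha, rfl⟩)⟩
  have hV1 : (1 : G) ∈ V := hVa 1 ⟨M.start, [], Nat.zero_le _, rfl⟩
  obtain ⟨E', hE', hE'm⟩ : ∃ E' : Set G', E'.Finite ∧ ∀ a ∈ V, ∀ e ∈ E2, ∀ a' ∈ V,
      φ (a * e * a') ∈ E' := by
    refine ⟨φ '' Set.image2 (fun x y => x * y) (Set.image2 (fun x y => x * y) V E2) V,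
      ((hV.image2 _ hE2).image2 _ hV).image _, ?_⟩
    intro a ha e he a' ha'
    exact ⟨_, ⟨_, ⟨a, ha, e, he, rfl⟩, a', ha', rfl⟩, rfl⟩
  refine ⟨E', hE', ?_⟩
  intro p p' hp hp' h1 hN h1' hN' hpp' t
  obtain ⟨u, c, w, hd⟩ := dec_exists hc h1
  obtain ⟨u', c', w', hd'⟩ := dec_exists hc h1'
  have hcN : c.length < N := by have := hd.tot_eq hc; omega
  have hcN' : c'.length < N := by have := hd'.tot_eq hc; omega
  have hNpos := hL.pos
  -- the difference of the values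
  obtain ⟨k, hk⟩ : ∃ k : ℤ, (M.v p)⁻¹ * M.v p' =
      σ ((φ (M.v p))⁻¹ * φ (M.v p')) * ζ ^ k := by
    obtain ⟨k, hk⟩ := hker ((σ ((φ (M.v p))⁻¹ * φ (M.v p')))⁻¹ * ((M.v p)⁻¹ * M.v p')) (by
      rw [map_mul, map_inv, hσ, map_mul, map_inv, inv_mul_cancel])
    exact ⟨k, by rw [← hk, mul_inv_cancel_left]⟩
  obtain ⟨x, hx⟩ : ∃ x, x = (φ (M.v p))⁻¹ * φ (M.v p') := ⟨_, rfl⟩
  rw [← hx] at hk hpp'
  -- the numbers of loops
  obtain ⟨f, f', hf, hf', hk1, hk2⟩ := choose_f (p.length + p'.length) b k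
    (n (M.st M.start u)) (n (M.st M.start u')) (hL.npos _ hd.enter) (hL.npos _ hd'.enter)
    (hb _)
  have hfN : f ≤ f * N := Nat.le_mul_of_pos_right f hNpos
  have hfN' : f' ≤ f' * N := Nat.le_mul_of_pos_right f' hNpos
  have hlu : u.length + c.length + w.length = p.length := by
    rw [hd.eq]; simp [Nat.add_assoc]
  have hlu' : u'.length + c'.length + w'.length = p'.length := by
    rw [hd'.eq]; simp [Nat.add_assoc]
  have hlZ : (rep f (Z (M.st M.start u)) ++ c).length = f * N + c.length := by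
    rw [List.length_append, length_rep, hL.len _ hd.enter]
  have hlZ' : (rep f' (Z (M.st M.start u')) ++ c').length = f' * N + c'.length := by
    rw [List.length_append, length_rep, hL.len _ hd'.enter]
  have hD := hd.inflate hL f
  have hD' := hd'.inflate hL f'
  have hA := hd.inflate_acc hL hp f
  have hA' := hd'.inflate_acc hL hp' f'
  have hv := hd.inflate_v hc hL f
  have hv' := hd'.inflate_v hc hL f'
  have hval : ∀ t, u.length ≤ t → _ := fun t ht => hd.inflate_val hc hL f t ht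
  have hval' : ∀ t, u'.length ≤ t → _ := fun t ht => hd'.inflate_val hc hL f' t ht
  have htk : ∀ m ≤ u.length, (u ++ (rep f (Z (M.st M.start u)) ++ c) ++ w).take m = p.take m := by
    intro m hm
    rw [take_inflate _ _ _ _ hm, ← hd.eq]
  have htk' : ∀ m ≤ u'.length,
      (u' ++ (rep f' (Z (M.st M.start u')) ++ c') ++ w').take m = p'.take m := by
    intro m hm
    rw [take_inflate _ _ _ _ hm, ← hd'.eq]
  obtain ⟨P, hP⟩ : ∃ P, P = u ++ (rep f (Z (M.st M.start u)) ++ c) ++ w := ⟨_, rfl⟩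
  obtain ⟨P', hP'⟩ : ∃ P', P' = u' ++ (rep f' (Z (M.st M.start u')) ++ c') ++ w' := ⟨_, rfl⟩
  rw [← hP] at hD hA hv htk
  rw [← hP'] at hD' hA' hv' htk'
  simp only [← hP] at hval
  simp only [← hP'] at hval'
  have hPP : (M.v P)⁻¹ * M.v P' ∈ F2 := by
    have h2 : (M.v P)⁻¹ * M.v P' = σ x * ζ ^ (k + (f' : ℤ) * n (M.st M.start u') -
        (f : ℤ) * n (M.st M.start u)) := by
      rw [hv, hv', mul_inv_rev, zpow_sub, zpow_add]
      have h3 : ζ ^ ((f' : ℤ) * n (M.st M.start u')) = ζ ^ (f' * n (M.st M.start u')) := by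
        rw [← zpow_natCast]; push_cast; rfl
      have h4 : ζ ^ ((f : ℤ) * n (M.st M.start u)) = ζ ^ (f * n (M.st M.start u)) := by
        rw [← zpow_natCast]; push_cast; rfl
      rw [h3, h4]
      have h5 := hcom ((M.v p)⁻¹ * M.v p' * ζ ^ (f' * n (M.st M.start u')))
        (-((f * n (M.st M.start u) : ℕ) : ℤ))
      rw [zpow_neg, zpow_natCast] at h5
      have h6 : ∀ X, (M.v p)⁻¹ * (M.v p' * X) = σ x * (ζ ^ k * X) := fun X => by
        rw [← mul_assoc, hk, mul_assoc]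
      simp only [mul_assoc] at h5 ⊢
      rw [h5, h6]
    rw [h2]
    exact hF2' x hpp' _ hk1 hk2
  have hPP' : (M.v P')⁻¹ * M.v P ∈ F3 := by
    have := hF3b _ hPP
    rwa [mul_inv_rev, inv_inv] at this
  have he1 := hC1 _ _ _ _ _ _ _ _ hA hA' (hF3a _ hPP) hD hD' (by rw [hlZ]; omega)
  have he2 := hC1 _ _ _ _ _ _ _ _ hA' hA hPP' hD' hD (by rw [hlZ']; omega)
  have he3 := hC2 _ _ _ _ _ _ _ _ hA hA' (hF3a _ hPP) hD hD' (by rw [hlZ]; omega)
  have he4 := hC2 _ _ _ _ _ _ _ _ hA' hA hPP' hD' hD (by rw [hlZ']; omega)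
  rw [hlZ, hlZ'] at he3 he4
  have hE := hE2' P P' hA hA' hPP
  by_cases ht : u.length ≤ t ∧ u'.length ≤ t
  · -- after both entry times
    have hw : φ (M.v (p.take t)) = φ (M.v (P.take (t + f * N))) := by
      rw [hval t ht.1, map_mul, map_pow, hζ, one_pow, mul_one]
    have hw' : φ (M.v (p'.take t)) = φ (M.v (P'.take (t + f' * N))) := by
      rw [hval' t ht.2, map_mul, map_pow, hζ, one_pow, mul_one]
    rw [hw, hw', ← map_inv, ← map_mul]
    rcases le_total (f * N) (f' * N) with hle | hle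
    · obtain ⟨a, ha, hav⟩ := take_diff M P' (i := t + f * N) (j := t + f' * N) (C := C)
        (by omega) (by omega)
      rw [hav, ← mul_assoc]
      have := hE'm 1 hV1 _ (hE (t + f * N)) a (hVc a ha)
      rwa [one_mul] at this
    · obtain ⟨a, ha, hav⟩ := take_diff M P' (i := t + f' * N) (j := t + f * N) (C := C)
        (by omega) (by omega)
      have := hE'm 1 hV1 _ (hE (t + f * N)) a⁻¹ (hVd a ha)
      rw [hav, one_mul, mul_assoc, mul_assoc, mul_inv_cancel, mul_one] at this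
      exact this
  · -- before one of the entry times
    obtain ⟨m, hm⟩ : ∃ m, m = min (min u.length u'.length) t := ⟨_, rfl⟩
    obtain ⟨a, ha, hav⟩ := take_diff M p (i := m) (j := t) (C := C1) (by omega) (by omega)
    obtain ⟨a', ha', hav'⟩ := take_diff M p' (i := m) (j := t) (C := C1) (by omega) (by omega)
    rw [hav, hav', ← map_inv, ← map_mul, ← htk m (by omega), ← htk' m (by omega)]
    have := hE'm a⁻¹ (hVb a ha) _ (hE m) a' (hVa a' ha')
    rw [mul_inv_rev]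
    simp only [mul_assoc] at this ⊢
    exact this

theorem bar_ftp (hc : M.Ctx ζ D) (hF : M.FTP) {N : ℕ} {Z : M.S → List M.A} {n : M.S → ℕ}
    (hL : M.Loops ζ N Z n) {G' : Type} [Group G'] (φ : G →* G') (hφ : Function.Surjective φ)
    (hker : ∀ g : G, φ g = 1 → ∃ k : ℤ, g = ζ ^ k) (hζ : φ ζ = 1) :
    (M.bar (M.SpSet ζ) N φ).FTP := by
  intro F' hF'
  obtain ⟨E', hE', h⟩ := ftp_core hc hF hL φ hφ hker hζ F' hF'
  refine ⟨E', hE', ?_⟩
  intro p p' hp hp' hpp' t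
  have h1 := (bar_acc (M := M) (P := M.SpSet ζ) (N := N) (φ := φ) p).1 hp
  have h2 := (bar_acc (M := M) (P := M.SpSet ζ) (N := N) (φ := φ) p').1 hp'
  have e1 := bar_v (M := M) (P := M.SpSet ζ) (N := N) (φ := φ) p
  have e2 := bar_v (M := M) (P := M.SpSet ζ) (N := N) (φ := φ) p'
  have e3 := bar_v (M := M) (P := M.SpSet ζ) (N := N) (φ := φ) (List.take t p)
  have e4 := bar_v (M := M) (P := M.SpSet ζ) (N := N) (φ := φ) (List.take t p')
  have hpp : (φ (M.v p))⁻¹ * φ (M.v p') ∈ F' := by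
    rw [← e1, ← e2]; exact hpp'
  have h3 := h p p' h1.1 h2.1 h1.2.1 h1.2.2 h2.2.1 h2.2.2 hpp t
  rw [← e3, ← e4] at h3
  exact h3

end Mach

end Pool.Agent.AutSol
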