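import Pool.Agent.AutSol.Dec

/-! # Q3 (module 12a): the quotient machine is onto -/

set_option autoImplicit false

namespace Pool.Agent.AutSol

namespace Mach

variable {G : Type} [Group G] {M : Mach G} {ζ : G} {D : ℕ}

/-- Every class modulo `ζ` contains the value of an accepted word meeting `Sp`. -/
theorem exists_meet (hc : M.Ctx ζ D) (hO : M.Onto) (hF : M.FTP) (hex : ∃ s, M.Sp ζ s) (g : G) :
    ∃ p, M.Acc p ∧ (∃ k : ℕ, M.v p = g * ζ ^ k) ∧ ∃ t, M.Sp ζ (M.st M.start (p.take t)) := by
  obtain ⟨s, ⟨⟨u, hu⟩, ⟨q, hq⟩⟩, Y, hY, hYl, m, hm, hYv⟩ := hex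
  obtain ⟨E, hE, hE'⟩ := hF {g⁻¹ * (M.v u * M.val s q)} (Set.finite_singleton _)
  set j := Nat.card M.S * E.ncard with hj
  obtain ⟨p, hp, hpv⟩ := hO (g * ζ ^ (m * j))
  have hcomm : ∀ (x : G) (i : ℕ), ζ ^ i * x = x * ζ ^ i := fun x i =>
    ((show Commute ζ x from hc.cen x).pow_left i).eq
  -- the comparison word
  set p' := u ++ rep j Y ++ q with hp'
  have hacc' : M.Acc p' := by
    unfold Acc
    rw [hp', st_append, st_append, hu, M.st_rep hYl]
    exact hq
  have hvp' : M.v p' = M.v u * M.val s q * ζ ^ (m * j) := by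
    rw [hp', v_append, v_append, st_append, hu, M.st_rep hYl, M.val_rep hYl, hYv, ← pow_mul,
      mul_assoc, hcomm, ← mul_assoc]
  have hdiff : (M.v p)⁻¹ * M.v p' ∈ ({g⁻¹ * (M.v u * M.val s q)} : Set G) := by
    rw [Set.mem_singleton_iff, hpv, hvp', mul_inv_rev, mul_assoc]
    rw [show g⁻¹ * (M.v u * M.val s q * ζ ^ (m * j)) = ζ ^ (m * j) * (g⁻¹ * (M.v u * M.val s q)) by
      rw [hcomm]; simp only [mul_assoc]]
    group
  have htake : ∀ i ≤ j, M.v (p'.take (u.length + i * Y.length)) = M.v u * ζ ^ (m * i) := by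
    intro i hi
    have h1 : p'.take (u.length + i * Y.length) = u ++ rep i Y := by
      have h2 : p' = (u ++ rep i Y) ++ (rep (j - i) Y ++ q) := by
        rw [hp']
        have h3 : rep j Y = rep i Y ++ rep (j - i) Y := by
          rw [← rep_add]; congr 1; omega
        rw [h3]; simp only [List.append_assoc]
      rw [h2, List.take_append_of_le_length (by simp), List.take_of_length_le (by simp)]
    rw [h1, v_append, hu, M.val_rep hYl, hYv, ← pow_mul]
  obtain ⟨i1, i2, h12, h2j, hσ, hf⟩ := M.pigeon hE j le_rfl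
    (fun i => M.st M.start (p.take (u.length + i * Y.length)))
    (fun i => (M.v (p.take (u.length + i * Y.length)))⁻¹ * M.v (p'.take (u.length + i * Y.length)))
    (fun i _ => hE' p p' hp hacc' hdiff _)
  rw [htake i1 (by omega), htake i2 h2j] at hf
  have hYlen : 0 < Y.length := List.length_pos_iff.2 hY
  refine ⟨p, hp, ⟨_, hpv⟩, u.length + i1 * Y.length, ?_⟩
  refine (Sp_of_times hc hp (t' := u.length + i2 * Y.length) (m := m * (i2 - i1)) ?_ ?_ hσ ?_).2
  · have := Nat.mul_lt_mul_of_pos_right h12 hYlen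
    omega
  · exact Nat.mul_pos hm (by omega)
  · have h4 : m * i2 = m * i1 + m * (i2 - i1) := by
      rw [← Nat.mul_add]; congr 1; omega
    rw [h4, pow_add] at hf
    have h5 : M.v (p.take (u.length + i2 * Y.length)) *
        (M.v (p.take (u.length + i1 * Y.length)))⁻¹ * (M.v u * ζ ^ (m * i1)) =
        M.v u * ζ ^ (m * i1) * ζ ^ (m * (i2 - i1)) := by
      rw [mul_assoc, hf]; group
    have h6 : M.v (p.take (u.length + i2 * Y.length)) *
        (M.v (p.take (u.length + i1 * Y.length)))⁻¹ = ζ ^ (m * (i2 - i1)) := by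
      have h7 := congrArg (fun x => x * (M.v u * ζ ^ (m * i1))⁻¹) h5
      simp only [mul_inv_cancel_right] at h7
      rw [h7, ← hcomm (M.v u * ζ ^ (m * i1)), mul_inv_cancel_right]
    rw [mul_inv_eq_iff_eq_mul] at h6
    rw [h6, hcomm]

/-- The quotient machine is onto.

Let `s = st start u` in `Sp` with a loop `Y` of value `ζ^m` and `q` leading to an accepting state.
For `g : G` let `p_j` be an accepted word with value `g ζ^(m j)`. The value of the accepted word
`p'_j = u Y^j q` is `v(u) val(q) ζ^(m j)`, so `v(p_j)⁻¹ v(p'_j) = g⁻¹ v(u) val(q)` is fixed; take `E`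
from the fellow traveller property. At the times `t_i = |u| + i |Y|`, `i ≤ j`, the prefix of `p_j` has
value `v(u) ζ^(m i) e_i⁻¹`, `e_i ∈ E`. For `j ≥ card S * ncard E`, `pigeon` gives two times with the
same state and the same `e`, and `Sp_of_times` shows that `p_j` meets `Sp`. So every class modulo
`ζ` contains the value of an accepted word meeting `Sp`; take a shortest one (or use `Dec.deflate`
repeatedly): it has `tot ≤ N`. Use `bar_acc`, `bar_v`. -/
theorem bar_onto (hc : M.Ctx ζ D) (hO : M.Onto) (hF : M.FTP) (hex : ∃ s, M.Sp ζ s)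
    {N : ℕ} {Z : M.S → List M.A} {n : M.S → ℕ} (hL : M.Loops ζ N Z n)
    {G' : Type} [Group G'] (φ : G →* G') (hφ : Function.Surjective φ) (hζ : φ ζ = 1) :
    (M.bar (M.SpSet ζ) N φ).Onto := by
  intro g'
  obtain ⟨g, rfl⟩ := hφ g'
  obtain ⟨p, hp, ⟨k, hpv⟩, t, ht⟩ := exists_meet hc hO hF hex g
  have hpφ : φ (M.v p) = φ g := by rw [hpv, map_mul, map_pow, hζ, one_pow, mul_one]
  obtain ⟨u, c, w, hd⟩ := dec_exists' hc ht
  -- induction on the length of `c`
  have key : ∀ (l : ℕ) (p u c w : List M.A), c.length = l → M.Acc p → φ (M.v p) = φ g →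
      M.Dec ζ p u c w → ∃ w, (M.bar (M.SpSet ζ) N φ).Acc w ∧ (M.bar (M.SpSet ζ) N φ).v w = φ g := by
    intro l
    induction l using Nat.strong_induction_on with
    | _ l ih =>
      intro p u c w hl hp hpφ hd
      by_cases hlN : N ≤ c.length
      · obtain ⟨h1, h2⟩ := hd.deflate hc hL hlN
        have hlen : (c.drop N).length < l := by
          rw [List.length_drop, hl]
          have := hL.pos
          omega
        have hval : M.val (M.st M.start u) (Z (M.st M.start u)) = ζ ^ n (M.st M.start u) :=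
          hL.val _ hd.enter
        have hloop : M.st (M.st M.start u) (Z (M.st M.start u)) = M.st M.start u :=
          hL.loop _ hd.enter
        refine ih _ hlen (u ++ c.drop N ++ w) u (c.drop N) w rfl ?_ ?_ h2
        · have h3 : M.Acc (u ++ c ++ w) := by rw [← hd.eq]; exact hp
          rw [h1] at h3
          unfold Acc at h3 ⊢
          simp only [st_append] at h3 ⊢
          rw [hloop] at h3
          exact h3
        · rw [← hpφ, hd.eq]
          conv_rhs => rw [h1]
          simp only [v_append, st_append, val_append, hloop, hval, map_mul, map_pow, hζ, one_pow,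
            one_mul]
      · refine ⟨p, (bar_acc p).2 ⟨hp, ?_, ?_⟩, by rw [bar_v, hpφ]⟩
        · rw [hd.tot_eq hc]; omega
        · rw [hd.tot_eq hc]; omega
  exact key _ p u c w rfl hp hpφ hd

end Mach

end Pool.Agent.AutSol
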