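import Pool.Agent.AutSol.Dec

/-! # Q6 (module 14): the rank of the quotient machine -/

set_option autoImplicit false

namespace Pool.Agent.AutSol

namespace Mach

section Cnt
variable {G : Type} {M : Mach G} {P : Set M.S}

/-- A positive count comes from a state of `P` met after at least one letter. -/
theorem exists_of_cnt_pos {s : M.S} {w : List M.A} (h : 1 ≤ M.cnt P s w) :
    ∃ w1 w2, w = w1 ++ w2 ∧ w1 ≠ [] ∧ M.st s w1 ∈ P := by
  induction w generalizing s with
  | nil => simp [cnt] at h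
  | cons a w ih =>
    by_cases ha : M.step s a ∈ P
    · exact ⟨[a], w, rfl, by simp, ha⟩
    · have h' : 1 ≤ M.cnt P (M.step s a) w := by
        simp only [cnt, ind_false ha] at h; omega
      obtain ⟨w1, w2, hw, hne, hP⟩ := ih h'
      refine ⟨a :: w1, w2, by rw [hw]; rfl, by simp, ?_⟩
      simpa using hP

/-- If the count is zero, the last state (reached after at least one letter) is not in `P`. -/
theorem not_mem_of_cnt_eq_zero {s : M.S} {w : List M.A} (h : M.cnt P s w = 0) (hw : w ≠ []) :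
    M.st s w ∉ P := by
  induction w generalizing s with
  | nil => exact absurd rfl hw
  | cons a w ih =>
    simp only [cnt] at h
    have h2 : M.cnt P (M.step s a) w = 0 := by omega
    by_cases hw' : w = []
    · subst hw'
      intro hm
      have hm' : M.step s a ∈ P := by simpa using hm
      rw [ind_true hm'] at h
      omega
    · simpa using ih h2 hw'

/-- A positive total count comes from a state of `P` met when reading the word. -/
theorem exists_of_tot_pos {w : List M.A} (h : 1 ≤ M.tot P w) :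
    ∃ w1 w2, w = w1 ++ w2 ∧ M.st M.start w1 ∈ P := by
  by_cases hs : M.start ∈ P
  · exact ⟨[], w, rfl, by simpa using hs⟩
  · have h' : 1 ≤ M.cnt P M.start w := by
      simp only [tot, ind_false hs] at h; omega
    obtain ⟨w1, w2, hw, -, hP⟩ := exists_of_cnt_pos h'
    exact ⟨w1, w2, hw, hP⟩

theorem cap_val_of_le {N n : ℕ} (h : n ≤ N) : ((cap N n : Fin (N + 2)) : ℕ) = n := by
  simp only [cap]; omega

end Cnt

variable {G : Type} [Group G] {M : Mach G} {ζ : G} {D : ℕ}

/-- After leaving `Sp` one does not come back. -/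
theorem not_back (hc : M.Ctx ζ D) {x : M.S} {r r' : List M.A} (hx : M.Sp ζ x)
    (ht : ¬ M.Sp ζ (M.st x r)) : ¬ M.Sp ζ (M.st (M.st x r) r') := by
  intro h
  exact ht (Sp_between hc hx (by simpa using h))

/-- The rank drops when leaving `Sp`. -/
theorem rank_lt_of_leave (hc : M.Ctx ζ D) {ρ : M.S → ℕ} (hρ : M.Rank ρ) {x : M.S}
    {r : List M.A} (hx : M.Sp ζ x) (hu : M.Useful (M.st x r)) (ht : ¬ M.Sp ζ (M.st x r)) :
    ρ (M.st x r) < ρ x := by
  have h1 := hρ.mono x r hx.1 hu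
  rcases Nat.lt_or_ge (ρ (M.st x r)) (ρ x) with h | h
  · exact h
  · exfalso
    obtain ⟨z, hz, lz, m, hm, vz⟩ := hx.2
    obtain ⟨w', hw'⟩ := hρ.back x r hx.1 hu ⟨z, hz, lz⟩ (le_antisymm h1 h)
    exact not_back hc hx ht (r' := w') (by rw [hw']; exact hx)

omit [Group G] in
theorem useful_of_path {s : M.S} (hs : M.Useful s) {w q : List M.A}
    (hq : M.st s (w ++ q) ∈ M.acc) : M.Useful (M.st s w) := by
  obtain ⟨⟨u, hu⟩, -⟩ := hs
  exact ⟨⟨u ++ w, by rw [st_append, hu]⟩, q, by simpa using hq⟩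

/-- A useful state of the quotient machine: it is reached by a word `u` with count equal to the
second component, and accepted words continue it. -/
theorem bar_useful {N : ℕ} {G' : Type} [Group G'] {φ : G →* G'} {P : Set M.S}
    {σ : M.S × Fin (N + 2)} (h : (M.bar P N φ).Useful σ) :
    ∃ u q, M.st M.start u = σ.1 ∧ M.tot P u = (σ.2 : ℕ) ∧ M.st σ.1 q ∈ M.acc ∧
      1 ≤ (σ.2 : ℕ) + M.cnt P σ.1 q ∧ (σ.2 : ℕ) + M.cnt P σ.1 q ≤ N ∧ M.Useful σ.1 := by
  obtain ⟨⟨u, hu⟩, q, hq⟩ := h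
  change List M.A at u
  change List M.A at q
  have hu' : ((M.st M.start u, cap N (M.tot P u)) : M.S × Fin (N + 2)) = σ :=
    (bar_st_start (M := M) (P := P) (N := N) (φ := φ) u).symm.trans hu
  have hq' : (M.bar P N φ).Acc (u ++ q) := by
    have h1 := (M.bar P N φ).st_append (M.bar P N φ).start u q
    have h2 : (M.bar P N φ).st ((M.bar P N φ).st (M.bar P N φ).start u) q =
      (M.bar P N φ).st σ q := congrArg (fun τ => (M.bar P N φ).st τ q) hu
    exact (congrArg (fun τ => τ ∈ (M.bar P N φ).acc) (h1.trans h2)).mpr hq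
  rw [bar_acc] at hq'
  obtain ⟨ha, h1, h2⟩ := hq'
  rw [tot_append] at h1 h2
  have hs1 : M.st M.start u = σ.1 := congrArg Prod.fst hu'
  have hs2 : cap N (M.tot P u) = σ.2 := congrArg Prod.snd hu'
  have hle : M.tot P u ≤ N := by omega
  have hs3 : M.tot P u = (σ.2 : ℕ) := by rw [← hs2, cap_val_of_le hle]
  rw [hs1] at h1 h2
  rw [hs3] at h1 h2
  have ha' : M.st σ.1 q ∈ M.acc := by
    have := ha
    unfold Acc at this
    rw [st_append, hs1] at this
    exact this
  exact ⟨u, q, hs1, hs3, ha', h1, h2, ⟨⟨u, hs1⟩, q, ha'⟩⟩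

/-- Reading a word in the quotient machine from a state whose count is at most `N`. -/
theorem bar_st' {N : ℕ} {G' : Type} [Group G'] {φ : G →* G'} {P : Set M.S}
    (σ : M.S × Fin (N + 2)) (hσ : (σ.2 : ℕ) ≤ N) (w : List M.A) :
    (M.bar P N φ).st σ w = ((M.st σ.1 w, cap N ((σ.2 : ℕ) + M.cnt P σ.1 w)) :
      M.S × Fin (N + 2)) := by
  have h : σ = (σ.1, cap N (σ.2 : ℕ)) := by
    refine Prod.ext rfl (Fin.ext ?_)
    rw [cap_val_of_le hσ]
  have h2 := bar_st (M := M) (P := P) (N := N) (φ := φ) σ.1 (σ.2 : ℕ) w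
  rw [← h] at h2
  exact h2

/-- The rank drops: `ρ' (s, x) = ρ s - 1` if `x = 0` or `s ∈ Sp`, and `ρ' (s, x) = ρ s` otherwise
(`x ≥ 1`, `s ∉ Sp`).

Facts. (a) If `x ∈ Sp` and `t ∉ Sp` is reachable from `x` (both useful), then no state of `Sp` is
reachable from `t` (`Sp_between`), so `x` is not reachable from `t` and `ρ t < ρ x` (`back`).
(b) `s ∈ Sp` has a loop, so `ρ s ≥ 1`.
(c) a loop at `(s, x)` in the quotient machine, `(s, x)` useful there: it meets no state of `Sp`; in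
particular `s ∉ Sp`.
Monotone: the only case to look at is `s ∈ Sp`, `s' ∉ Sp`: (a).
`back` and `pos` at `(s, x)` useful with a loop, `s ∉ Sp`.
Case `x = 0`: some `y ∈ Sp` is reachable from `s` (accepting needs a count `≥ 1`), and `s` is not
reachable from `y`, so `ρ s > ρ y ≥ 1`; `ρ' = ρ s - 1 ≥ 1`. Let `(t, x')` be reachable from `(s, 0)`
with the same `ρ'`. If `x' = 0` then `ρ t = ρ s` (`ρ t ≥ 2` since `ρ' ≥ 1`), `s` is reachable from
`t` by `w'`, and `w'` meets no state of `Sp` (otherwise `Sp` state → s → `y`), so it leads from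
`(t, 0)` to `(s, 0)`. If `x' ≥ 1` then some `z ∈ Sp` lies between `s` and `t`, `s` is not reachable
from `z`, so `ρ t ≤ ρ z < ρ s`; if `t ∈ Sp`, `ρ' (t) = ρ t - 1 < ρ s - 1` since `ρ t ≥ 1`; if `t ∉ Sp`,
`ρ t < ρ z` by (a), so `ρ' = ρ t ≤ ρ s - 2`. Contradiction.
Case `x ≥ 1`: `s` is reachable from a state of `Sp`, so no state of `Sp` is reachable from `s`; the
count does not change any more, `ρ' = ρ` on everything reachable, and `back` follows from that of `M`.
Start: `x = 0` or `start ∈ Sp`, so `ρ' start = ρ start - 1`. -/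
theorem bar_rank (hc : M.Ctx ζ D) {N : ℕ} {Z : M.S → List M.A} {n : M.S → ℕ}
    (hL : M.Loops ζ N Z n) {G' : Type} [Group G'] (φ : G →* G') (ρ : M.S → ℕ) (hρ : M.Rank ρ) :
    ∃ ρ' : (M.bar (M.SpSet ζ) N φ).S → ℕ, (M.bar (M.SpSet ζ) N φ).Rank ρ' ∧
      ρ' (M.bar (M.SpSet ζ) N φ).start ≤ ρ M.start - 1 := by
  classical
  -- the key facts about a useful state of the quotient machine with a loop
  have key : ∀ σ : M.S × Fin (N + 2), (M.bar (M.SpSet ζ) N φ).Useful σ →
      (M.bar (M.SpSet ζ) N φ).Cyc σ → ¬ M.Sp ζ σ.1 ∧ M.Cyc σ.1 := by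
    rintro σ hu ⟨z, hz, lz⟩
    obtain ⟨u, q, hs1, hs2, hq, h1, h2, hus⟩ := bar_useful hu
    have hσ : (σ.2 : ℕ) ≤ N := by omega
    have h3 := (bar_st' (φ := φ) (P := M.SpSet ζ) σ hσ z).symm.trans lz
    have h4 : M.st σ.1 z = σ.1 := congrArg Prod.fst h3
    have h5 : cap N ((σ.2 : ℕ) + M.cnt (M.SpSet ζ) σ.1 z) = σ.2 := congrArg Prod.snd h3
    have h6 : M.cnt (M.SpSet ζ) σ.1 z = 0 := by
      have := congrArg (fun x : Fin (N + 2) => (x : ℕ)) h5
      simp only [cap] at this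
      omega
    refine ⟨?_, z, hz, h4⟩
    intro hsp
    have := not_mem_of_cnt_eq_zero h6 hz
    rw [h4] at this
    exact this hsp
  -- the case of count zero
  have key0 : ∀ σ : M.S × Fin (N + 2), (M.bar (M.SpSet ζ) N φ).Useful σ →
      ¬ M.Sp ζ σ.1 → (σ.2 : ℕ) = 0 → ∃ r, M.Sp ζ (M.st σ.1 r) := by
    intro σ hu hs h0
    obtain ⟨u, q, hs1, hs2, hq, h1, h2, hus⟩ := bar_useful hu
    have h3 : 1 ≤ M.cnt (M.SpSet ζ) σ.1 q := by omega
    obtain ⟨w1, w2, hw, -, hP⟩ := exists_of_cnt_pos h3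
    exact ⟨w1, hP⟩
  -- if `s ∉ Sp`, a state of `Sp` is reachable from `s`, `s` is not reachable from `Sp`
  have nr : ∀ (s x : M.S) (r r' : List M.A), ¬ M.Sp ζ s → M.Sp ζ (M.st s r) →
      M.Sp ζ x → M.st x r' ≠ s := by
    intro s x r r' hs hr hx he
    apply hs
    rw [← he]
    apply Sp_between hc hx (r2 := r)
    rw [st_append, he]
    exact hr
  -- ranks drop when entering `Sp`
  have enter : ∀ (s : M.S) (r : List M.A), M.Useful s → M.Cyc s → ¬ M.Sp ζ s →
      M.Sp ζ (M.st s r) → ρ (M.st s r) < ρ s := by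
    intro s r hu hcy hs hr
    have h1 := hρ.mono s r hu hr.1
    rcases Nat.lt_or_ge (ρ (M.st s r)) (ρ s) with h | h
    · exact h
    · exfalso
      obtain ⟨w', hw'⟩ := hρ.back s r hu hr.1 hcy (le_antisymm h1 h)
      exact nr s (M.st s r) r w' hs hr hr hw'
  have cycSp : ∀ s, M.Sp ζ s → M.Cyc s := by
    rintro s ⟨_, z, hz, lz, _⟩
    exact ⟨z, hz, lz⟩
  let ρ' : M.S × Fin (N + 2) → ℕ := fun σ =>
    if (σ.2 : ℕ) = 0 ∨ M.Sp ζ σ.1 then ρ σ.1 - 1 else ρ σ.1
  have e1 : ∀ σ : M.S × Fin (N + 2), ((σ.2 : ℕ) = 0 ∨ M.Sp ζ σ.1) → ρ' σ = ρ σ.1 - 1 :=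
    fun σ h => if_pos h
  have e2 : ∀ σ : M.S × Fin (N + 2), ¬ ((σ.2 : ℕ) = 0 ∨ M.Sp ζ σ.1) → ρ' σ = ρ σ.1 :=
    fun σ h => if_neg h
  have posit : ∀ σ : M.S × Fin (N + 2), (M.bar (M.SpSet ζ) N φ).Useful σ →
      (M.bar (M.SpSet ζ) N φ).Cyc σ → 1 ≤ ρ' σ := by
    intro σ hu hcy
    obtain ⟨hns, hcs⟩ := key σ hu hcy
    obtain ⟨u, q, hs1, hs2, hq, h1, h2, hus⟩ := bar_useful hu
    by_cases h0 : (σ.2 : ℕ) = 0
    · rw [e1 σ (Or.inl h0)]
      obtain ⟨r, hr⟩ := key0 σ hu hns h0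
      have h3 := enter σ.1 r hus hcs hns hr
      have h4 := hρ.pos _ hr.1 (cycSp _ hr)
      omega
    · rw [e2 σ (by tauto)]
      exact hρ.pos _ hus hcs
  refine ⟨ρ', ⟨?_, ?_, ?_⟩, ?_⟩
  · -- monotone
    intro σ w hu ht
    change M.S × Fin (N + 2) at σ
    change List M.A at w
    obtain ⟨u, q, hs1, hs2, hq, h1, h2, hus⟩ := bar_useful hu
    have hσ : (σ.2 : ℕ) ≤ N := by omega
    obtain ⟨τ, hτ⟩ : ∃ τ : M.S × Fin (N + 2), (M.bar (M.SpSet ζ) N φ).st σ w = τ := ⟨_, rfl⟩
    rw [hτ] at ht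
    rw [hτ]
    obtain ⟨u', q', hs1', hs2', hq', h1', h2', hut⟩ := bar_useful ht
    have h3 := (bar_st' (φ := φ) (P := M.SpSet ζ) σ hσ w).symm.trans hτ
    have h4 : M.st σ.1 w = τ.1 := congrArg Prod.fst h3
    have h5 : cap N ((σ.2 : ℕ) + M.cnt (M.SpSet ζ) σ.1 w) = τ.2 := congrArg Prod.snd h3
    have hle : ρ τ.1 ≤ ρ σ.1 := by
      have := hρ.mono σ.1 w hus (by rw [h4]; exact hut)
      rwa [h4] at this
    by_cases hc1 : (σ.2 : ℕ) = 0 ∨ M.Sp ζ σ.1
    · rw [e1 σ hc1]
      by_cases hc2 : (τ.2 : ℕ) = 0 ∨ M.Sp ζ τ.1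
      · rw [e1 τ hc2]
        omega
      · rw [e2 τ hc2]
        push Not at hc2
        have hlt : ρ τ.1 < ρ σ.1 := by
          by_cases hsp : M.Sp ζ σ.1
          · have := rank_lt_of_leave hc hρ (r := w) hsp (by rw [h4]; exact hut)
              (by rw [h4]; exact hc2.2)
            rwa [h4] at this
          · have h0 : (σ.2 : ℕ) = 0 := by tauto
            have h6 : 1 ≤ M.cnt (M.SpSet ζ) σ.1 w := by
              rcases Nat.eq_zero_or_pos (M.cnt (M.SpSet ζ) σ.1 w) with h | h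
              · exfalso
                apply hc2.1
                rw [← h5, h, h0]
                simp [cap]
              · exact h
            obtain ⟨w1, w2, hw, -, hP⟩ := exists_of_cnt_pos h6
            have hP' : M.Sp ζ (M.st σ.1 w1) := hP
            have h7 : M.st (M.st σ.1 w1) w2 = τ.1 := by rw [← st_append, ← hw, h4]
            have h8 := rank_lt_of_leave hc hρ (r := w2) hP' (by rw [h7]; exact hut)
              (by rw [h7]; exact hc2.2)
            rw [h7] at h8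
            have h9 := hρ.mono σ.1 w1 hus hP'.1
            omega
        omega
    · rw [e2 σ hc1]
      by_cases hc2 : (τ.2 : ℕ) = 0 ∨ M.Sp ζ τ.1
      · rw [e1 τ hc2]
        omega
      · rw [e2 τ hc2]
        omega
  · -- back
    intro σ w hu ht hcy heq
    change M.S × Fin (N + 2) at σ
    change List M.A at w
    obtain ⟨hns, hcs⟩ := key σ hu hcy
    have hpo := posit σ hu hcy
    obtain ⟨u, q, hs1, hs2, hq, h1, h2, hus⟩ := bar_useful hu
    have hσ : (σ.2 : ℕ) ≤ N := by omega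
    obtain ⟨τ, hτ⟩ : ∃ τ : M.S × Fin (N + 2), (M.bar (M.SpSet ζ) N φ).st σ w = τ := ⟨_, rfl⟩
    rw [hτ] at ht heq
    rw [hτ]
    obtain ⟨u', q', hs1', hs2', hq', h1', h2', hut⟩ := bar_useful ht
    have hτN : (τ.2 : ℕ) ≤ N := by omega
    have h3 := (bar_st' (φ := φ) (P := M.SpSet ζ) σ hσ w).symm.trans hτ
    have h4 : M.st σ.1 w = τ.1 := congrArg Prod.fst h3
    have h5 : cap N ((σ.2 : ℕ) + M.cnt (M.SpSet ζ) σ.1 w) = τ.2 := congrArg Prod.snd h3
    have h5' : min ((σ.2 : ℕ) + M.cnt (M.SpSet ζ) σ.1 w) (N + 1) = (τ.2 : ℕ) :=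
      congrArg (fun x : Fin (N + 2) => (x : ℕ)) h5
    have hle : ρ τ.1 ≤ ρ σ.1 := by
      have := hρ.mono σ.1 w hus (by rw [h4]; exact hut)
      rwa [h4] at this
    -- the end of the argument: a word back with no visit
    have fin : ρ τ.1 = ρ σ.1 → M.cnt (M.SpSet ζ) σ.1 w = 0 →
        (∀ z r', M.Sp ζ z → M.st z r' ≠ σ.1) →
        ∃ w', (M.bar (M.SpSet ζ) N φ).st τ w' = σ := by
      intro hr hz hno
      obtain ⟨w', hw'⟩ := hρ.back σ.1 w hus (by rw [h4]; exact hut) hcs (by rw [h4]; exact hr)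
      rw [h4] at hw'
      refine ⟨w', (bar_st' (φ := φ) (P := M.SpSet ζ) τ hτN w').trans ?_⟩
      have h6 : M.cnt (M.SpSet ζ) τ.1 w' = 0 := by
        rcases Nat.eq_zero_or_pos (M.cnt (M.SpSet ζ) τ.1 w') with h | h
        · exact h
        · exfalso
          obtain ⟨w1, w2, hw, -, hP⟩ := exists_of_cnt_pos h
          apply hno _ w2 hP
          rw [← st_append, ← hw, hw']
      refine Prod.ext hw' (Fin.ext ?_)
      change min ((τ.2 : ℕ) + M.cnt (M.SpSet ζ) τ.1 w') (N + 1) = (σ.2 : ℕ)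
      omega
    by_cases h0 : (σ.2 : ℕ) = 0
    · obtain ⟨y, hy⟩ := key0 σ hu hns h0
      have hey := enter σ.1 y hus hcs hns hy
      have hyp := hρ.pos _ hy.1 (cycSp _ hy)
      rw [e1 σ (Or.inl h0)] at heq hpo
      by_cases hx' : (τ.2 : ℕ) = 0
      · rw [e1 τ (Or.inl hx')] at heq
        refine fin (by omega) (by omega) ?_
        intro z r' hz
        exact nr σ.1 z y r' hns hy hz
      · exfalso
        have h6 : 1 ≤ M.cnt (M.SpSet ζ) σ.1 w := by omega
        obtain ⟨w1, w2, hw, -, hP⟩ := exists_of_cnt_pos h6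
        have hP' : M.Sp ζ (M.st σ.1 w1) := hP
        have h7 : M.st (M.st σ.1 w1) w2 = τ.1 := by rw [← st_append, ← hw, h4]
        have h8 := enter σ.1 w1 hus hcs hns hP'
        have h9 := hρ.mono (M.st σ.1 w1) w2 hP'.1 (by rw [h7]; exact hut)
        rw [h7] at h9
        by_cases hsp : M.Sp ζ τ.1
        · rw [e1 τ (Or.inr hsp)] at heq
          have := hρ.pos _ hut (cycSp _ hsp)
          omega
        · rw [e2 τ (by tauto)] at heq
          have h10 := rank_lt_of_leave hc hρ (r := w2) hP' (by rw [h7]; exact hut)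
            (by rw [h7]; exact hsp)
          rw [h7] at h10
          omega
    · -- `s` is reachable from `Sp`
      have h6 : 1 ≤ M.tot (M.SpSet ζ) u := by omega
      obtain ⟨u1, u2, hu12, hP⟩ := exists_of_tot_pos h6
      have hP' : M.Sp ζ (M.st M.start u1) := hP
      have h7 : M.st (M.st M.start u1) u2 = σ.1 := by rw [← st_append, ← hu12, hs1]
      have hno : ∀ r, ¬ M.Sp ζ (M.st σ.1 r) := by
        intro r hr
        have := not_back hc (r := u2) hP' (by rw [h7]; exact hns) (r' := r)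
        rw [h7] at this
        exact this hr
      have hcz : M.cnt (M.SpSet ζ) σ.1 w = 0 := by
        rcases Nat.eq_zero_or_pos (M.cnt (M.SpSet ζ) σ.1 w) with h | h
        · exact h
        · exfalso
          obtain ⟨w1, w2, hw, -, hP⟩ := exists_of_cnt_pos h
          exact hno w1 hP
      have hnt : ¬ M.Sp ζ τ.1 := by rw [← h4]; exact hno w
      rw [e2 σ (by tauto)] at heq
      rw [e2 τ (by
        intro h
        rcases h with h | h
        · omega
        · exact hnt h)] at heq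
      -- here a state of `Sp` from which `s` is reachable exists, so argue directly
      obtain ⟨w', hw'⟩ := hρ.back σ.1 w hus (by rw [h4]; exact hut) hcs (by rw [h4]; exact heq)
      rw [h4] at hw'
      refine ⟨w', (bar_st' (φ := φ) (P := M.SpSet ζ) τ hτN w').trans ?_⟩
      have h8 : M.cnt (M.SpSet ζ) τ.1 w' = 0 := by
        rcases Nat.eq_zero_or_pos (M.cnt (M.SpSet ζ) τ.1 w') with h | h
        · exact h
        · exfalso
          obtain ⟨w1, w2, hw, -, hP⟩ := exists_of_cnt_pos h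
          apply hno (w ++ w1)
          rw [st_append, h4]
          exact hP
      refine Prod.ext hw' (Fin.ext ?_)
      change min ((τ.2 : ℕ) + M.cnt (M.SpSet ζ) τ.1 w') (N + 1) = (σ.2 : ℕ)
      omega
  · exact posit
  · -- the start
    have hst : (M.bar (M.SpSet ζ) N φ).start =
      ((M.start, cap N (ind (M.start ∈ M.SpSet ζ))) : M.S × Fin (N + 2)) := rfl
    rw [hst]
    refine le_of_eq (e1 _ ?_)
    by_cases hs : M.start ∈ M.SpSet ζ
    · exact Or.inr hs
    · refine Or.inl ?_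
      rw [ind_false hs]
      simp [cap]

end Mach

end Pool.Agent.AutSol
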