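import Pool.Agent.AutSol.Defs

/-! # T1 (module 6): the counting step -/

set_option autoImplicit false

namespace Pool.Agent.AutSol

open scoped Pointwise

theorem base_count {G : Type} [Group G] (M : Mach G) {D : ℕ} (hB : M.Bdd D) (s : M.S)
    (X : Finset G) (hX : ∀ x ∈ X, ∃ u, M.st M.start u = s ∧ M.v u = x) (n : ℕ)
    (T : Finset (List M.A)) (hT : ∀ w ∈ T, w.length = n ∧ M.st s w ∈ M.acc)
    (Y : Finset G) (hY : ∀ x ∈ X, ∀ w ∈ T, x * M.val s w ∈ Y) :
    X.card * T.card ≤ D * Y.card := by
  classical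
  have hX' : ∀ x : G, ∃ u : List M.A, x ∈ X → M.st M.start u = s ∧ M.v u = x := by
    intro x
    by_cases hx : x ∈ X
    · obtain ⟨u, hu⟩ := hX x hx
      exact ⟨u, fun _ => hu⟩
    · exact ⟨[], fun h => absurd h hx⟩
  choose u hu using hX'
  set P : Finset (List M.A) := (X ×ˢ T).image (fun p => u p.1 ++ p.2) with hP
  have hcard : P.card = X.card * T.card := by
    rw [hP, Finset.card_image_of_injOn, Finset.card_product]
    rintro ⟨x, w⟩ hx ⟨x', w'⟩ hx' he
    simp only [Finset.coe_product, Set.mem_prod, Finset.mem_coe] at hx hx' he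
    have hl : w.length = w'.length := by rw [(hT w hx.2).1, (hT w' hx'.2).1]
    obtain ⟨h1, h2⟩ := List.append_inj' he hl
    have h3 : x = x' := by
      rw [← (hu x hx.1).2, ← (hu x' hx'.1).2, h1]
    rw [h3, h2]
  rw [← hcard]
  refine Finset.card_le_mul_card_image_of_maps_to (f := M.v) (t := Y) ?_ D ?_
  · intro p hp
    rw [hP, Finset.mem_image] at hp
    obtain ⟨⟨x, w⟩, hxw, rfl⟩ := hp
    rw [Finset.mem_product] at hxw
    rw [M.v_append, (hu x hxw.1).1, (hu x hxw.1).2]
    exact hY x hxw.1 w hxw.2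
  · intro g _
    refine hB g _ ?_
    intro p hp
    rw [Finset.mem_filter] at hp
    refine ⟨?_, hp.2⟩
    rw [hP, Finset.mem_image] at hp
    obtain ⟨⟨⟨x, w⟩, hxw, rfl⟩, -⟩ := hp
    rw [Finset.mem_product] at hxw
    unfold Mach.Acc
    rw [M.st_append, (hu x hxw.1).1]
    exact (hT w hxw.2).2

/-- In an infinite Folner group with a machine of bounded multiplicity: for every finite `K` and
every `N` there is `h0` such that every accepted word `p` with value in `h0 K` is long and its last
`N` states have boundedly many accepted continuations of each length. -/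
theorem exists_base {G : Type} [Group G] [Infinite G] (M : Mach G) (hFol : Folner G) {D : ℕ}
    (hB : M.Bdd D) (K : Set G) (hK : K.Finite) (N : ℕ) :
    ∃ h0 : G, ∀ k ∈ K, ∀ p, M.Acc p → M.v p = h0 * k →
      N ≤ p.length ∧ ∀ i ≤ N, M.SB (M.st M.start (p.take (p.length - i))) := by
  classical
  let _ := Fintype.ofFinite M.S
  have hB' : M.Bdd (D + 1) := fun g T hT => (hB g T hT).trans (Nat.le_succ D)
  set D' := D + 1 with hD'
  have hVN := M.Vals_finite N
  set VN : Finset G := hVN.toFinset with hVNdef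
  set KF : Finset G := hK.toFinset with hKF
  set c1 : ℕ := VN.card * KF.card with hc1
  set nS : ℕ := Fintype.card M.S with hnS
  have hnS0 : 0 < nS := Fintype.card_pos_iff.2 ⟨M.start⟩
  -- large sets of continuations
  have hT : ∀ s : M.S, ∃ (n : ℕ) (T : Finset (List M.A)), ¬ M.SB s →
      (∀ w ∈ T, w.length = n ∧ M.st s w ∈ M.acc) ∧ 4 * D' * c1 * nS < T.card := by
    intro s
    by_cases hs : M.SB s
    · exact ⟨0, ∅, fun h => absurd hs h⟩
    · unfold Mach.SB at hs
      push Not at hs
      obtain ⟨n, T, h1, h2⟩ := hs (4 * D' * c1 * nS)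
      exact ⟨n, T, fun _ => ⟨h1, h2⟩⟩
  choose n T hT using hT
  -- the Folner set
  set W : Finset G := VN.image (fun x => x⁻¹) with hW
  set V2 : Finset G := Finset.univ.biUnion (fun s => (M.Vals_finite (n s)).toFinset) with hV2
  obtain ⟨Z, hZ⟩ := Infinite.exists_subset_card_eq G (4 * c1 + 4)
  set K1 : Finset G := ((KF * W) * V2) ∪ Z with hK1
  obtain ⟨F, hFfin, hFne, hF⟩ := hFol (K1 : Set G) (Finset.finite_toSet _) 1 one_pos
  set FF : Finset G := hFfin.toFinset with hFF
  have hFFK : (FF * K1).card ≤ 2 * FF.card := by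
    have h1 : (Set.image2 (· * ·) F (K1 : Set G)) = ((FF * K1 : Finset G) : Set G) := by
      ext x
      simp [Set.mem_image2, Finset.mem_mul, hFF]
    rw [h1, Set.ncard_coe_finset] at hF
    have h2 : F.ncard = FF.card := by
      rw [hFF, Set.ncard_eq_toFinset_card F hFfin]
    rw [h2] at hF
    have h3 : (((FF * K1).card : ℕ) : ℝ) ≤ ((2 * FF.card : ℕ) : ℝ) := by
      push_cast; linarith
    exact_mod_cast h3
  obtain ⟨f0, hf0⟩ := hFne
  have hf0' : f0 ∈ FF := by rw [hFF]; exact hFfin.mem_toFinset.2 hf0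
  have hFFbig : 2 * c1 + 2 ≤ FF.card := by
    have h1 : Z.card ≤ (FF * K1).card := by
      have h2 : (Z.image (fun x => f0 * x)) ⊆ FF * K1 := by
        intro y hy
        rw [Finset.mem_image] at hy
        obtain ⟨x, hx, rfl⟩ := hy
        exact Finset.mul_mem_mul hf0' (Finset.mem_union_right _ hx)
      have h3 : (Z.image (fun x => f0 * x)).card = Z.card :=
        Finset.card_image_of_injective _ (mul_right_injective f0)
      rw [← h3]
      exact Finset.card_le_card h2
    omega
  -- the sets of values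
  set V : M.S → Finset G := fun s => (FF * (KF * W)).filter
    (fun x => ∃ u, M.st M.start u = s ∧ M.v u = x) with hV
  have hVcard : ∀ s, ¬ M.SB s → 2 * nS * ((V s).card * c1) ≤ FF.card := by
    intro s hs
    obtain ⟨hT1, hT2⟩ := hT s hs
    have h1 := base_count M hB' s (V s) (fun x hx => (Finset.mem_filter.1 hx).2) (n s) (T s) hT1
      (FF * K1) (by
        intro x hx w hw
        have hx1 := (Finset.mem_filter.1 hx).1
        obtain ⟨f, hf, y, hy, rfl⟩ := Finset.mem_mul.1 hx1
        rw [mul_assoc]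
        refine Finset.mul_mem_mul hf (Finset.mem_union_left _ (Finset.mul_mem_mul hy ?_))
        rw [hV2, Finset.mem_biUnion]
        refine ⟨s, Finset.mem_univ s, ?_⟩
        rw [Set.Finite.mem_toFinset]
        exact ⟨s, w, (hT1 w hw).1.le, rfl⟩)
    have h2 : (V s).card * (4 * D' * c1 * nS) ≤ D' * (2 * FF.card) :=
      ((Nat.mul_le_mul_left _ hT2.le).trans h1).trans (Nat.mul_le_mul_left _ hFFK)
    have h3 : 2 * D' * (2 * nS * ((V s).card * c1)) ≤ 2 * D' * FF.card := by
      calc 2 * D' * (2 * nS * ((V s).card * c1)) = (V s).card * (4 * D' * c1 * nS) := by ring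
        _ ≤ D' * (2 * FF.card) := h2
        _ = 2 * D' * FF.card := by ring
    exact Nat.le_of_mul_le_mul_left h3 (by omega)
  -- bad elements
  set BadA : Finset G := (VN ×ˢ KF).image (fun q => q.1 * q.2⁻¹) with hBadA
  set BadB : M.S → Finset G := fun s => if M.SB s then ∅ else
    ((V s) ×ˢ (VN ×ˢ KF)).image (fun q => q.1 * (q.2.1 * q.2.2⁻¹)) with hBadB
  have hAcard : BadA.card ≤ c1 := by
    rw [hBadA, hc1, ← Finset.card_product]; exact Finset.card_image_le
  have hBcard : ∀ s, 2 * nS * (BadB s).card ≤ FF.card := by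
    intro s
    by_cases hs : M.SB s
    · simp [hBadB, hs]
    · have h1 : (BadB s).card ≤ (V s).card * c1 := by
        simp only [hBadB, if_neg hs]
        refine Finset.card_image_le.trans ?_
        rw [Finset.card_product, Finset.card_product]
      exact (Nat.mul_le_mul_left _ h1).trans (hVcard s hs)
  set Bad : Finset G := BadA ∪ Finset.univ.biUnion BadB with hBad
  have hBadcard : Bad.card < FF.card := by
    have h1 : (Finset.univ.biUnion BadB).card ≤ ∑ s, (BadB s).card := Finset.card_biUnion_le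
    have h2 : 2 * nS * (∑ s, (BadB s).card) ≤ nS * FF.card := by
      rw [Finset.mul_sum]
      calc ∑ s, 2 * nS * (BadB s).card ≤ ∑ _s : M.S, FF.card := Finset.sum_le_sum fun s _ => hBcard s
        _ = nS * FF.card := by rw [Finset.sum_const, Finset.card_univ, smul_eq_mul]
    have h3 : 2 * (∑ s, (BadB s).card) ≤ FF.card := by
      have : nS * (2 * (∑ s, (BadB s).card)) ≤ nS * FF.card := by
        calc nS * (2 * (∑ s, (BadB s).card)) = 2 * nS * (∑ s, (BadB s).card) := by ring
          _ ≤ nS * FF.card := h2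
      exact Nat.le_of_mul_le_mul_left this hnS0
    have h4 : Bad.card ≤ BadA.card + (Finset.univ.biUnion BadB).card := Finset.card_union_le _ _
    omega
  obtain ⟨h0, hh0, hh0'⟩ := Finset.exists_mem_notMem_of_card_lt_card hBadcard
  refine ⟨h0, fun k hk p hp hv => ?_⟩
  have hkF : k ∈ KF := by rw [hKF]; exact hK.mem_toFinset.2 hk
  constructor
  · by_contra hlt
    apply hh0'
    rw [hBad, Finset.mem_union]
    left
    rw [hBadA, Finset.mem_image]
    refine ⟨(M.v p, k), Finset.mem_product.2 ⟨?_, hkF⟩, ?_⟩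
    · rw [hVNdef, Set.Finite.mem_toFinset]
      exact ⟨M.start, p, by omega, rfl⟩
    · simp only
      rw [hv]; group
  · intro i hi
    by_contra hs
    apply hh0'
    rw [hBad, Finset.mem_union]
    right
    rw [Finset.mem_biUnion]
    set u := p.take (p.length - i) with hu
    set w := p.drop (p.length - i) with hw
    have hpuw : p = u ++ w := (List.take_append_drop _ p).symm
    have hvp : M.v p = M.v u * M.val (M.st M.start u) w := by
      conv_lhs => rw [hpuw, M.v_append]
    have hwl : w.length ≤ N := by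
      rw [hw, List.length_drop]; omega
    have hwV : M.val (M.st M.start u) w ∈ VN := by
      rw [hVNdef, Set.Finite.mem_toFinset]
      exact ⟨_, w, hwl, rfl⟩
    refine ⟨M.st M.start u, Finset.mem_univ _, ?_⟩
    simp only [hBadB, if_neg hs]
    rw [Finset.mem_image]
    refine ⟨(M.v u, (M.val (M.st M.start u) w, k)), ?_, ?_⟩
    · refine Finset.mem_product.2 ⟨?_, Finset.mem_product.2 ⟨hwV, hkF⟩⟩
      rw [hV, Finset.mem_filter]
      refine ⟨?_, u, rfl, rfl⟩
      have hx : M.v u = h0 * (k * (M.val (M.st M.start u) w)⁻¹) := by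
        rw [← mul_assoc, ← hv, hvp]; group
      rw [hx]
      exact Finset.mul_mem_mul hh0 (Finset.mul_mem_mul hkF (Finset.mem_image_of_mem _ hwV))
    · simp only
      rw [← mul_assoc, ← hvp, hv]; group

end Pool.Agent.AutSol
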