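import Pool.Agent.AutSol.Plus

/-! # Q2 (module 11): the quotient machine and the decomposition of accepted words -/

set_option autoImplicit false

namespace Pool.Agent.AutSol

open scoped Classical in
/-- `1` if `P`, `0` otherwise. -/
noncomputable def ind (P : Prop) : ℕ := if P then 1 else 0

theorem ind_true {P : Prop} (h : P) : ind P = 1 := by simp [ind, h]

theorem ind_false {P : Prop} (h : ¬ P) : ind P = 0 := by simp [ind, h]

/-- Counting up to `N + 1`. -/
def cap (N n : ℕ) : Fin (N + 2) := ⟨min n (N + 1), by omega⟩

theorem cap_cap (N m n : ℕ) : cap N ((cap N m : ℕ) + n) = cap N (m + n) := by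
  simp only [cap, Fin.mk.injEq]; omega

namespace Mach

section Count
variable {G : Type} (M : Mach G) (P : Set M.S)

/-- The number of states of `P` met when reading `w` from `s`, not counting `s`. -/
noncomputable def cnt : M.S → List M.A → ℕ
  | _, [] => 0
  | s, a :: w => ind (M.step s a ∈ P) + cnt (M.step s a) w

theorem cnt_append (s : M.S) (u w : List M.A) :
    M.cnt P s (u ++ w) = M.cnt P s u + M.cnt P (M.st s u) w := by
  induction u generalizing s with
  | nil => simp [cnt]
  | cons a u ih => simp only [List.cons_append, cnt, ih, st_cons]; omega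

/-- The number of states of `P` met when reading `w` from the start, counting the start. -/
noncomputable def tot (w : List M.A) : ℕ := ind (M.start ∈ P) + M.cnt P M.start w

theorem tot_append (u w : List M.A) :
    M.tot P (u ++ w) = M.tot P u + M.cnt P (M.st M.start u) w := by
  simp only [tot, cnt_append]; omega

variable [Group G]

/-- The quotient machine: it also counts (up to `N+1`) the visits to `P`, and it accepts when `M`
accepts and the number of visits is between `1` and `N`; the outputs are mapped by `φ`. -/
noncomputable def bar (N : ℕ) {G' : Type} [Group G'] (φ : G →* G') : Mach G' :=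
  M.ext (X := Fin (N + 2)) (cap N (ind (M.start ∈ P)))
    (fun s a x => cap N ((x : ℕ) + ind (M.step s a ∈ P))) (fun s a _ => φ (M.out s a))
    {x | x.1 ∈ M.acc ∧ 1 ≤ (x.2 : ℕ) ∧ (x.2 : ℕ) ≤ N}

variable {M P} {N : ℕ} {G' : Type} [Group G'] {φ : G →* G'}

theorem bar_st (s : M.S) (x : ℕ) (w : List M.A) :
    (M.bar P N φ).st ((s, cap N x) : M.S × Fin (N + 2)) w =
      ((M.st s w, cap N (x + M.cnt P s w)) : M.S × Fin (N + 2)) := by
  induction w generalizing s x with
  | nil => simp [cnt]; rfl
  | cons a w ih =>
    have h := ih (M.step s a) (x + ind (M.step s a ∈ P))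
    rw [← cap_cap] at h
    refine h.trans ?_
    simp only [cnt, st_cons, Nat.add_assoc]

theorem bar_st_start (w : List M.A) :
    (M.bar P N φ).st (M.bar P N φ).start w =
      ((M.st M.start w, cap N (M.tot P w)) : M.S × Fin (N + 2)) :=
  bar_st M.start _ w

theorem bar_val (s : M.S × Fin (N + 2)) (w : List M.A) :
    (M.bar P N φ).val s w = φ (M.val s.1 w) := by
  induction w generalizing s with
  | nil => simp; rfl
  | cons a w ih =>
    have h := ih ((M.bar P N φ).step s a)
    change φ (M.out s.1 a) * (M.bar P N φ).val ((M.bar P N φ).step s a) w = _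
    rw [h]
    simp only [val_cons, map_mul]
    rfl

theorem bar_v (w : List M.A) : (M.bar P N φ).v w = φ (M.v w) := bar_val _ w

theorem bar_acc (w : List M.A) :
    (M.bar P N φ).Acc w ↔ M.Acc w ∧ 1 ≤ M.tot P w ∧ M.tot P w ≤ N := by
  unfold Acc
  rw [bar_st_start]
  change (M.st M.start w ∈ M.acc ∧ 1 ≤ ((cap N (M.tot P w) : Fin (N + 2)) : ℕ) ∧
    ((cap N (M.tot P w) : Fin (N + 2)) : ℕ) ≤ N) ↔ _
  simp only [cap]
  constructor <;> rintro ⟨h1, h2, h3⟩ <;> refine ⟨h1, ?_, ?_⟩ <;> omega

end Count

section Dec
variable {G : Type} [Group G] (M : Mach G) (ζ : G)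

/-- The set of the states with a central loop. -/
def SpSet : Set M.S := {s | M.Sp ζ s}

/-- `p = u c w` where `u` leads to the first state in `Sp` and `u c` to the last one. -/
structure Dec (p u c w : List M.A) : Prop where
  eq : p = u ++ c ++ w
  before : ∀ t < u.length, ¬ M.Sp ζ (M.st M.start (u.take t))
  enter : M.Sp ζ (M.st M.start u)
  exit : M.Sp ζ (M.st M.start (u ++ c))
  after : ∀ w1 w2, w = w1 ++ w2 → w1 ≠ [] → ¬ M.Sp ζ (M.st M.start (u ++ c ++ w1))

variable {M ζ} {D : ℕ}

theorem exists_dec_of_time {p : List M.A} {t : ℕ}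
    (h : M.Sp ζ (M.st M.start (p.take t))) : ∃ u c w, M.Dec ζ p u c w := by
  classical
  set T : Finset ℕ := (Finset.range (p.length + 1)).filter
    (fun t => M.Sp ζ (M.st M.start (p.take t))) with hT
  have hne : T.Nonempty := by
    refine ⟨min t p.length, ?_⟩
    rw [hT, Finset.mem_filter, Finset.mem_range]
    refine ⟨by omega, ?_⟩
    rcases le_total t p.length with h' | h'
    · rw [min_eq_left h']; exact h
    · rw [min_eq_right h', List.take_length]
      rwa [List.take_of_length_le h'] at h
  set t0 := T.min' hne with ht0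
  set t1 := T.max' hne with ht1
  have h0 : t0 ∈ T := T.min'_mem hne
  have h1 : t1 ∈ T := T.max'_mem hne
  have h01 : t0 ≤ t1 := T.min'_le _ h1
  rw [hT, Finset.mem_filter, Finset.mem_range] at h0 h1
  have huc : p.take t0 ++ (p.take t1).drop t0 = p.take t1 := by
    have : p.take t0 = (p.take t1).take t0 := by
      rw [List.take_take, min_eq_left h01]
    rw [this, List.take_append_drop]
  refine ⟨p.take t0, (p.take t1).drop t0, p.drop t1, ?_, ?_, h0.2, ?_, ?_⟩
  · rw [huc, List.take_append_drop]
  · intro s hs hSp
    rw [List.length_take] at hs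
    rw [List.take_take, min_eq_left (by omega)] at hSp
    have : s ∈ T := by
      rw [hT, Finset.mem_filter, Finset.mem_range]
      exact ⟨by omega, hSp⟩
    have := T.min'_le _ this
    omega
  · rw [huc]; exact h1.2
  · intro w1 w2 hw hw1 hSp
    rw [huc] at hSp
    have hlen : (p.drop t1).length = w1.length + w2.length := by
      rw [hw, List.length_append]
    rw [List.length_drop] at hlen
    have hpos : 0 < w1.length := List.length_pos_iff.mpr hw1
    have e : p.take t1 ++ w1 = p.take (t1 + w1.length) := by
      rw [List.take_add, hw, List.take_left']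
      rfl
    rw [e] at hSp
    have : t1 + w1.length ∈ T := by
      rw [hT, Finset.mem_filter, Finset.mem_range]
      exact ⟨by omega, hSp⟩
    have := T.le_max' _ this
    omega

omit [Group G] in
theorem exists_time_of_cnt {P : Set M.S} (s : M.S) (w : List M.A) (h : 1 ≤ M.cnt P s w) :
    ∃ t, M.st s (w.take t) ∈ P := by
  induction w generalizing s with
  | nil => simp [cnt] at h
  | cons a w ih =>
    by_cases h' : M.step s a ∈ P
    · exact ⟨1, by simpa using h'⟩
    · simp only [cnt, ind_false h', zero_add] at h
      obtain ⟨t, ht⟩ := ih _ h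
      exact ⟨t + 1, by simpa using ht⟩

theorem dec_exists (_hc : M.Ctx ζ D) {p : List M.A} (h : 1 ≤ M.tot (M.SpSet ζ) p) :
    ∃ u c w, M.Dec ζ p u c w := by
  unfold tot at h
  by_cases h' : M.start ∈ M.SpSet ζ
  · exact exists_dec_of_time (t := 0) h'
  · rw [ind_false h', zero_add] at h
    obtain ⟨t, ht⟩ := exists_time_of_cnt _ _ h
    exact exists_dec_of_time (t := t) ht

theorem dec_exists' (_hc : M.Ctx ζ D) {p : List M.A} {t : ℕ}
    (h : M.Sp ζ (M.st M.start (p.take t))) : ∃ u c w, M.Dec ζ p u c w :=
  exists_dec_of_time h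

omit [Group G] in
theorem cnt_eq_zero {P : Set M.S} (s : M.S) (w : List M.A)
    (h : ∀ w1 w2, w = w1 ++ w2 → w1 ≠ [] → M.st s w1 ∉ P) : M.cnt P s w = 0 := by
  induction w generalizing s with
  | nil => simp [cnt]
  | cons a w ih =>
    have h1 : M.step s a ∉ P := h [a] w rfl (by simp)
    simp only [cnt, ind_false h1, zero_add]
    apply ih
    intro w1 w2 hw hw1
    exact h (a :: w1) w2 (by rw [hw]; rfl) (by simp)

omit [Group G] in
theorem cnt_eq_length {P : Set M.S} (s : M.S) (w : List M.A)
    (h : ∀ w1 w2, w = w1 ++ w2 → w1 ≠ [] → M.st s w1 ∈ P) : M.cnt P s w = w.length := by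
  induction w generalizing s with
  | nil => simp [cnt]
  | cons a w ih =>
    have h1 : M.step s a ∈ P := h [a] w rfl (by simp)
    simp only [cnt, ind_true h1, List.length_cons]
    rw [ih]
    · omega
    · intro w1 w2 hw hw1
      exact h (a :: w1) w2 (by rw [hw]; rfl) (by simp)

/-- All the states met when reading `c` are in `Sp` (`Sp_between`), so the total count is
`|c| + 1`. -/
theorem Dec.tot_eq (hc : M.Ctx ζ D) {p u c w : List M.A} (h : M.Dec ζ p u c w) :
    M.tot (M.SpSet ζ) p = c.length + 1 := by
  have h1 : M.tot (M.SpSet ζ) u = 1 := by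
    rcases List.eq_nil_or_concat u with hu | ⟨u', a, hu⟩
    · subst hu
      have := h.enter
      unfold tot
      rw [ind_true (show M.start ∈ M.SpSet ζ from by simpa [SpSet] using this)]
      simp [cnt]
    · rw [List.concat_eq_append] at hu
      rw [hu, tot_append]
      have h0 : M.tot (M.SpSet ζ) u' = 0 := by
        unfold tot
        have hb : M.start ∉ M.SpSet ζ := by
          have := h.before 0 (by rw [hu]; simp)
          simpa [SpSet] using this
        rw [ind_false hb, zero_add]
        apply cnt_eq_zero
        intro w1 w2 hw hw1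
        have := h.before w1.length (by rw [hu, hw]; simp)
        rw [hu, hw, List.append_assoc, List.take_left' rfl] at this
        exact this
      rw [h0, zero_add]
      have he : M.step (M.st M.start u') a ∈ M.SpSet ζ := by
        have := h.enter
        rw [hu, st_append] at this
        exact this
      simp [cnt, ind_true he]
  have h2 : M.cnt (M.SpSet ζ) (M.st M.start u) c = c.length := by
    apply cnt_eq_length
    intro w1 w2 hw _
    apply Sp_between hc h.enter (r2 := w2)
    rw [← hw, ← st_append]
    exact h.exit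
  have h3 : M.cnt (M.SpSet ζ) (M.st M.start (u ++ c)) w = 0 := by
    apply cnt_eq_zero
    intro w1 w2 hw hw1
    rw [← st_append]
    exact h.after w1 w2 hw hw1
  rw [h.eq, tot_append, tot_append, h1, h2, h3]
  omega

theorem Dec.unique {p u c w u' c' w' : List M.A} (h : M.Dec ζ p u c w)
    (h' : M.Dec ζ p u' c' w') : u = u' ∧ c = c' ∧ w = w' := by
  have aux : ∀ {u c w u' c' w' : List M.A}, M.Dec ζ p u c w → M.Dec ζ p u' c' w' →
      u'.length ≤ u.length ∧ (u' ++ c').length ≤ (u ++ c).length := by
    intro u c w u' c' w' h h'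
    constructor
    · by_contra hlt
      push Not at hlt
      apply h'.before _ hlt
      have e1 : u = p.take u.length := by
        rw [h.eq, List.append_assoc, List.take_left' rfl]
      have e2 : u'.take u.length = p.take u.length := by
        rw [h'.eq, List.append_assoc, List.take_append_of_le_length hlt.le]
      rw [e2, ← e1]
      exact h.enter
    · by_contra hlt
      push Not at hlt
      have e1 : u' ++ c' = u ++ c ++ w.take ((u' ++ c').length - (u ++ c).length) := by
        have a1 : u' ++ c' = p.take (u' ++ c').length := by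
          rw [h'.eq, List.take_left' rfl]
        generalize (u' ++ c').length = k at a1 hlt ⊢
        rw [a1, h.eq, List.take_append]
        rw [List.take_of_length_le hlt.le]
      apply h.after (w.take ((u' ++ c').length - (u ++ c).length))
        (w.drop ((u' ++ c').length - (u ++ c).length)) (List.take_append_drop _ _).symm
      · intro h0
        rw [h0, List.append_nil] at e1
        rw [e1] at hlt
        omega
      · rw [← e1]
        exact h'.exit
  have l1 := aux h h'
  have l2 := aux h' h
  have e : u ++ (c ++ w) = u' ++ (c' ++ w') := by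
    rw [← List.append_assoc, ← List.append_assoc, ← h.eq, ← h'.eq]
  have e1 := List.append_inj e (le_antisymm l2.1 l1.1)
  have e2 := List.append_inj e1.2 (by
    rw [List.length_append, List.length_append] at l1 l2
    omega)
  exact ⟨e1.1, e2.1, e2.2⟩

theorem Dec.st_loop {N : ℕ} {Z : M.S → List M.A} {n : M.S → ℕ} (hL : M.Loops ζ N Z n)
    {p u c w : List M.A} (h : M.Dec ζ p u c w) (f : ℕ) (x : List M.A) :
    M.st M.start (u ++ (rep f (Z (M.st M.start u)) ++ c) ++ x) = M.st M.start (u ++ c ++ x) := by
  have := st_rep M (hL.loop _ h.enter) f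
  simp only [st_append]
  rw [this]

/-- Inserting `f` uniform loops. -/
theorem Dec.inflate {N : ℕ} {Z : M.S → List M.A} {n : M.S → ℕ} (hL : M.Loops ζ N Z n)
    {p u c w : List M.A} (h : M.Dec ζ p u c w) (f : ℕ) :
    M.Dec ζ (u ++ (rep f (Z (M.st M.start u)) ++ c) ++ w) u
      (rep f (Z (M.st M.start u)) ++ c) w := by
  refine ⟨rfl, h.before, h.enter, ?_, ?_⟩
  · have := h.st_loop hL f []
    rw [List.append_nil, List.append_nil] at this
    rw [this]; exact h.exit
  · intro w1 w2 hw hw1
    rw [h.st_loop hL f w1]
    exact h.after w1 w2 hw hw1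

theorem Dec.inflate_acc {N : ℕ} {Z : M.S → List M.A} {n : M.S → ℕ} (hL : M.Loops ζ N Z n)
    {p u c w : List M.A} (h : M.Dec ζ p u c w) (hp : M.Acc p) (f : ℕ) :
    M.Acc (u ++ (rep f (Z (M.st M.start u)) ++ c) ++ w) := by
  unfold Acc at hp ⊢
  rw [h.st_loop hL f w, ← h.eq]
  exact hp

theorem pow_cen (hc : M.Ctx ζ D) (k : ℕ) (g : G) : ζ ^ k * g = g * ζ ^ k := by
  induction k with
  | zero => simp
  | succ k ih => rw [pow_succ, mul_assoc, hc.cen, ← mul_assoc, ih, mul_assoc]

/-- Values after inserting loops, for all prefixes that contain `u`. -/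
theorem Dec.inflate_val (hc : M.Ctx ζ D) {N : ℕ} {Z : M.S → List M.A} {n : M.S → ℕ}
    (hL : M.Loops ζ N Z n) {p u c w : List M.A} (h : M.Dec ζ p u c w) (f t : ℕ)
    (ht : u.length ≤ t) :
    M.v ((u ++ (rep f (Z (M.st M.start u)) ++ c) ++ w).take (t + f * N)) =
      M.v (p.take t) * ζ ^ (f * n (M.st M.start u)) := by
  obtain ⟨k, rfl⟩ := Nat.exists_eq_add_of_le ht
  have hlen : (rep f (Z (M.st M.start u))).length = f * N := by
    rw [length_rep, hL.len _ h.enter]
  have e1 : (u ++ (rep f (Z (M.st M.start u)) ++ c) ++ w).take (u.length + k + f * N)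
      = u ++ (rep f (Z (M.st M.start u)) ++ (c ++ w).take k) := by
    have : u ++ (rep f (Z (M.st M.start u)) ++ c) ++ w =
        (u ++ rep f (Z (M.st M.start u))) ++ (c ++ w) := by simp
    rw [this, List.take_append, List.length_append, hlen]
    rw [List.take_of_length_le (by rw [List.length_append, hlen]; omega)]
    rw [show u.length + k + f * N - (u.length + f * N) = k by omega]
    simp
  have e2 : p.take (u.length + k) = u ++ (c ++ w).take k := by
    rw [h.eq, List.append_assoc, List.take_append]
    rw [List.take_of_length_le (by omega)]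
    rw [show u.length + k - u.length = k by omega]
  rw [e1, e2, v_append, v_append, val_append, val_rep M (hL.loop _ h.enter) f,
    st_rep M (hL.loop _ h.enter) f, hL.val _ h.enter, ← pow_mul, mul_comm (n _) f,
    pow_cen hc, mul_assoc]

theorem Dec.inflate_v (hc : M.Ctx ζ D) {N : ℕ} {Z : M.S → List M.A} {n : M.S → ℕ}
    (hL : M.Loops ζ N Z n) {p u c w : List M.A} (h : M.Dec ζ p u c w) (f : ℕ) :
    M.v (u ++ (rep f (Z (M.st M.start u)) ++ c) ++ w) =
      M.v p * ζ ^ (f * n (M.st M.start u)) := by
  have h1 := h.inflate_val hc hL f p.length (by rw [h.eq]; simp)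
  rw [List.take_length, List.take_of_length_le] at h1
  · exact h1
  · have hlen : (rep f (Z (M.st M.start u))).length = f * N := by
      rw [length_rep, hL.len _ h.enter]
    rw [h.eq]
    simp only [List.length_append, hlen]
    omega

/-- If `|c| ≥ N` then the uniform loop can be removed from `c`. -/
theorem Dec.deflate {N : ℕ} {Z : M.S → List M.A} {n : M.S → ℕ} (hc : M.Ctx ζ D)
    (hL : M.Loops ζ N Z n) {p u c w : List M.A} (h : M.Dec ζ p u c w) (hN : N ≤ c.length) :
    c = Z (M.st M.start u) ++ c.drop N ∧
      M.Dec ζ (u ++ c.drop N ++ w) u (c.drop N) w := by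
  have hex : M.Sp ζ (M.st (M.st M.start u) (c.take N ++ c.drop N)) := by
    rw [List.take_append_drop, ← st_append]; exact h.exit
  have h1 : M.Sp ζ (M.st (M.st M.start u) (c.take N)) := Sp_between hc h.enter hex
  have h2 : c.take N = Z (M.st M.start u) := hL.uniq h.enter h1 (by
    rw [List.length_take]; omega)
  have h3 : c = Z (M.st M.start u) ++ c.drop N := by
    rw [← h2, List.take_append_drop]
  have h4 : ∀ x, M.st M.start (u ++ c.drop N ++ x) = M.st M.start (u ++ c ++ x) := by
    intro x
    have e : M.st M.start (u ++ c ++ x) =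
        M.st M.start (u ++ (Z (M.st M.start u) ++ c.drop N) ++ x) := by rw [← h3]
    rw [e]
    simp only [st_append]
    rw [hL.loop _ h.enter]
  refine ⟨h3, rfl, h.before, h.enter, ?_, ?_⟩
  · have := h4 []
    rw [List.append_nil, List.append_nil] at this
    rw [this]; exact h.exit
  · intro w1 w2 hw hw1
    rw [h4 w1]
    exact h.after w1 w2 hw hw1

end Dec

end Mach

end Pool.Agent.AutSol
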