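import Mathlib

/-!
# Machines (deterministic transducers) for automatic structures

Campaign MP_8b8116_al (frozen statement S02215).  Common definitions and the elementary API.
-/

set_option autoImplicit false

namespace Pool.Agent.AutSol

/-- `rep n y` is the word `y` repeated `n` times. -/
def rep {A : Type} (n : ℕ) (y : List A) : List A := (List.replicate n y).flatten

section Rep
variable {A : Type}

@[simp] theorem rep_zero (y : List A) : rep 0 y = [] := by simp [rep]

@[simp] theorem rep_one (y : List A) : rep 1 y = y := by simp [rep]

theorem rep_succ (n : ℕ) (y : List A) : rep (n + 1) y = y ++ rep n y := by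
  simp [rep, List.replicate_succ]

theorem rep_add (m n : ℕ) (y : List A) : rep (m + n) y = rep m y ++ rep n y := by
  induction m with
  | zero => simp
  | succ m ih => rw [Nat.succ_add, rep_succ, rep_succ, ih, List.append_assoc]

theorem rep_succ' (n : ℕ) (y : List A) : rep (n + 1) y = rep n y ++ y := by
  rw [rep_add, rep_one]

@[simp] theorem length_rep (n : ℕ) (y : List A) : (rep n y).length = n * y.length := by
  induction n with
  | zero => simp
  | succ n ih => rw [rep_succ, List.length_append, ih]; ring

theorem rep_mul (m n : ℕ) (y : List A) : rep (m * n) y = rep m (rep n y) := by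
  induction m with
  | zero => simp
  | succ m ih => rw [Nat.succ_mul, Nat.add_comm, rep_add, rep_succ, ih]

end Rep

/-- A finite deterministic machine reading words over the alphabet `A` and writing elements of `G`.
The letter `a` read in the state `s` leads to the state `step s a` and contributes `out s a`. -/
structure Mach (G : Type) where
  S : Type
  A : Type
  step : S → A → S
  out : S → A → G
  start : S
  acc : Set S
  finS : Finite S
  finA : Finite A

namespace Mach

attribute [instance] Mach.finS Mach.finA

variable {G : Type} (M : Mach G)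

/-- The state reached from `s` after reading `w`. -/
def st (s : M.S) (w : List M.A) : M.S := w.foldl M.step s

@[simp] theorem st_nil (s : M.S) : M.st s [] = s := rfl

@[simp] theorem st_cons (s : M.S) (a : M.A) (w : List M.A) :
    M.st s (a :: w) = M.st (M.step s a) w := rfl

@[simp] theorem st_append (s : M.S) (u w : List M.A) :
    M.st s (u ++ w) = M.st (M.st s u) w := by
  simp [st, List.foldl_append]

theorem st_rep {s : M.S} {y : List M.A} (h : M.st s y = s) (n : ℕ) : M.st s (rep n y) = s := by
  induction n with
  | zero => simp
  | succ n ih => rw [rep_succ, st_append, h, ih]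

/-- The word `w` is accepted. -/
def Acc (w : List M.A) : Prop := M.st M.start w ∈ M.acc

/-- `s` lies on an accepted path. -/
def Useful (s : M.S) : Prop := (∃ u, M.st M.start u = s) ∧ ∃ q, M.st s q ∈ M.acc

theorem useful_of_acc {u w : List M.A} (h : M.Acc (u ++ w)) : M.Useful (M.st M.start u) :=
  ⟨⟨u, rfl⟩, w, by simpa [Acc] using h⟩

theorem useful_take {p : List M.A} (h : M.Acc p) (t : ℕ) :
    M.Useful (M.st M.start (p.take t)) :=
  M.useful_of_acc (w := p.drop t) (by simpa using h)

/-- `s` has a nonempty loop. -/
def Cyc (s : M.S) : Prop := ∃ z : List M.A, z ≠ [] ∧ M.st s z = s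

/-- A rank function on the useful states. -/
structure Rank (ρ : M.S → ℕ) : Prop where
  mono : ∀ s w, M.Useful s → M.Useful (M.st s w) → ρ (M.st s w) ≤ ρ s
  back : ∀ s w, M.Useful s → M.Useful (M.st s w) → M.Cyc s → ρ (M.st s w) = ρ s →
    ∃ w', M.st (M.st s w) w' = s
  pos : ∀ s, M.Useful s → M.Cyc s → 1 ≤ ρ s

/-- Boundedly many accepted words of each given length start at `s`. -/
def SB (s : M.S) : Prop :=
  ∃ C : ℕ, ∀ (n : ℕ) (T : Finset (List M.A)), (∀ w ∈ T, w.length = n ∧ M.st s w ∈ M.acc) →
    T.card ≤ C

/-- Follow the machine `M` while tracking an element of a finite type `X`. -/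
def ext {G' X : Type} [hX : Finite X] (x0 : X) (upd : M.S → M.A → X → X)
    (o : M.S → M.A → X → G') (acc' : Set (M.S × X)) : Mach G' where
  S := M.S × X
  A := M.A
  step := fun p a => (M.step p.1 a, upd p.1 a p.2)
  out := fun p a => o p.1 a p.2
  start := (M.start, x0)
  acc := acc'
  finS := inferInstance
  finA := M.finA

variable [Group G]

/-- The value of the word `w` read from the state `s`. -/
def val : M.S → List M.A → G
  | _, [] => 1
  | s, a :: w => M.out s a * val (M.step s a) w

@[simp] theorem val_nil (s : M.S) : M.val s [] = 1 := rfl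

@[simp] theorem val_cons (s : M.S) (a : M.A) (w : List M.A) :
    M.val s (a :: w) = M.out s a * M.val (M.step s a) w := rfl

theorem val_append (s : M.S) (u w : List M.A) :
    M.val s (u ++ w) = M.val s u * M.val (M.st s u) w := by
  induction u generalizing s with
  | nil => simp
  | cons a u ih => simp [ih, mul_assoc]

theorem val_rep {s : M.S} {y : List M.A} (h : M.st s y = s) (n : ℕ) :
    M.val s (rep n y) = M.val s y ^ n := by
  induction n with
  | zero => simp
  | succ n ih => rw [rep_succ, val_append, h, ih, pow_succ']

/-- The value of the word `w` read from the start. -/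
def v (w : List M.A) : G := M.val M.start w

@[simp] theorem v_nil : M.v [] = 1 := rfl

theorem v_append (u w : List M.A) : M.v (u ++ w) = M.v u * M.val (M.st M.start u) w :=
  M.val_append _ _ _

/-- Every element is the value of an accepted word. -/
def Onto : Prop := ∀ g : G, ∃ w, M.Acc w ∧ M.v w = g

/-- At most `D` accepted words have the same value. -/
def Bdd (D : ℕ) : Prop :=
  ∀ (g : G) (T : Finset (List M.A)), (∀ w ∈ T, M.Acc w ∧ M.v w = g) → T.card ≤ D

/-- The (synchronous) fellow traveller property, for all finite sets of differences. -/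
def FTP : Prop :=
  ∀ F : Set G, F.Finite → ∃ E : Set G, E.Finite ∧ ∀ w w', M.Acc w → M.Acc w' →
    (M.v w)⁻¹ * M.v w' ∈ F → ∀ t, (M.v (w.take t))⁻¹ * M.v (w'.take t) ∈ E

/-- A machine giving a combing of bounded multiplicity with the fellow traveller property and of
rank at most `r`. -/
structure Good (r : ℕ) : Prop where
  onto : M.Onto
  bdd : ∃ D, M.Bdd D
  ftp : M.FTP
  rank : ∃ ρ : M.S → ℕ, M.Rank ρ ∧ ρ M.start ≤ r

/-- Between the times `lo` and `hi` the word `p` runs around loops of length `L` and the value of
the prefixes is multiplied on the left by `η` at each turn. -/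
def Win (p : List M.A) (L lo hi : ℕ) (η : G) : Prop :=
  hi ≤ p.length ∧ ∀ t, lo ≤ t → t + L ≤ hi →
    M.v (p.take (t + L)) = η * M.v (p.take t) ∧
    M.st M.start (p.take (t + L)) = M.st M.start (p.take t)

/-- The values of the words of length at most `n`, read from any state: a finite set. -/
def Vals (n : ℕ) : Set G := {g | ∃ (s : M.S) (w : List M.A), w.length ≤ n ∧ M.val s w = g}

theorem finite_words {A : Type} [Finite A] (n : ℕ) : {w : List A | w.length ≤ n}.Finite :=
  List.finite_length_le A n

theorem Vals_finite (n : ℕ) : (M.Vals n).Finite := by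
  have h : (M.Vals n) ⊆ (fun x : M.S × List M.A => M.val x.1 x.2) ''
      ((Set.univ : Set M.S) ×ˢ {w : List M.A | w.length ≤ n}) := by
    rintro g ⟨s, w, hw, rfl⟩
    exact ⟨(s, w), ⟨trivial, hw⟩, rfl⟩
  exact (((Set.finite_univ).prod (finite_words n)).image _).subset h

end Mach

/-- The Folner condition (right translates). -/
def Folner (G : Type) [Group G] : Prop :=
  ∀ (K : Set G), K.Finite → ∀ ε : ℝ, 0 < ε → ∃ F : Set G, F.Finite ∧ F.Nonempty ∧
    ((Set.image2 (· * ·) F K).ncard : ℝ) ≤ (1 + ε) * F.ncard

end Pool.Agent.AutSol
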