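import Pool.Agent.AutSol.Pump

/-! # T2 (module 7): periodic tails and comparison of two periodic windows -/

set_option autoImplicit false

namespace Pool.Agent.AutSol

/-- Repeating loops gives windows. (`M.v (p.take (t+|y|)) = η * M.v (p.take t)` with
`η = v(u) val(y) v(u)⁻¹`.) -/
theorem win_of_loops {G : Type} [Group G] (M : Mach G) (u y q : List M.A) (k : ℕ)
    (hl : M.st (M.st M.start u) y = M.st M.start u) :
    M.Win (u ++ rep k y ++ q) y.length u.length (u.length + k * y.length)
      (M.v u * M.val (M.st M.start u) y * (M.v u)⁻¹) := by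
  refine ⟨by simp, ?_⟩
  intro t ht hth
  obtain ⟨s, rfl⟩ := Nat.exists_eq_add_of_le ht
  have hs : s + y.length ≤ k * y.length := by omega
  rcases Nat.eq_zero_or_pos k with hk | hk
  · subst hk
    have h0 : y.length = 0 := by omega
    have hy : y = [] := List.length_eq_zero_iff.1 h0
    subst hy
    simp
  · obtain ⟨k', rfl⟩ : ∃ k', k = k' + 1 := ⟨k - 1, by omega⟩
    have hs' : s ≤ k' * y.length := by
      have : (k' + 1) * y.length = k' * y.length + y.length := by ring
      omega
    have e1 : (u ++ rep (k' + 1) y ++ q).take (u.length + s) = u ++ (rep k' y).take s := by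
      rw [List.append_assoc, List.take_length_add_append, rep_succ', List.append_assoc,
        List.take_append_of_le_length (by simpa using hs')]
    have e2 : (u ++ rep (k' + 1) y ++ q).take (u.length + s + y.length)
        = u ++ (y ++ (rep k' y).take s) := by
      rw [List.append_assoc, Nat.add_assoc, List.take_length_add_append, rep_succ,
        List.append_assoc, Nat.add_comm s, List.take_length_add_append,
        List.take_append_of_le_length (by simpa using hs')]
    rw [e1, e2]
    constructor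
    · rw [M.v_append, M.val_append, hl, M.v_append]
      group
    · rw [M.st_append, M.st_append, hl, M.st_append]

theorem Mach.Win.mul {G : Type} [Group G] {M : Mach G} {p : List M.A} {L lo hi : ℕ} {η : G}
    (h : M.Win p L lo hi η) (m : ℕ) : M.Win p (m * L) lo hi (η ^ m) := by
  refine ⟨h.1, ?_⟩
  induction m with
  | zero => intro t _ _; simp
  | succ m ih =>
    intro t ht hth
    have e : t + (m + 1) * L = t + m * L + L := by ring
    rw [e] at hth ⊢
    have h1 := ih t ht (by omega)
    have h2 := h.2 (t + m * L) (by omega) hth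
    refine ⟨?_, ?_⟩
    · rw [h2.1, h1.1, pow_succ', mul_assoc]
    · rw [h2.2, h1.2]

theorem Mach.Win.mono {G : Type} [Group G] {M : Mach G} {p : List M.A} {L lo hi lo' hi' : ℕ} {η : G}
    (h : M.Win p L lo hi η) (h1 : lo ≤ lo') (h2 : hi' ≤ hi) : M.Win p L lo' hi' η :=
  ⟨h2.trans h.1, fun t ht hth => h.2 t (h1.trans ht) (hth.trans h2)⟩

/-- Among `card S + 1` consecutive times there are two with the same state. -/
theorem exists_rep_state {G : Type} (M : Mach G) (σ : ℕ → M.S) (a : ℕ) :
    ∃ i j, a ≤ i ∧ i < j ∧ j ≤ a + Nat.card M.S ∧ σ i = σ j := by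
  classical
  haveI : Fintype M.S := Fintype.ofFinite _
  obtain ⟨x, y, hxy, h⟩ := Fintype.exists_ne_map_eq_of_card_lt
    (fun x : Fin (Nat.card M.S + 1) => σ (a + x)) (by simp [Nat.card_eq_fintype_card])
  rcases lt_or_gt_of_ne (fun e => hxy (Fin.ext e) : (x : ℕ) ≠ (y : ℕ)) with hlt | hlt
  · exact ⟨a + x, a + y, by omega, by omega, by omega, h⟩
  · exact ⟨a + y, a + x, by omega, by omega, by omega, h.symm⟩

theorem take_add_take_drop {A : Type} (p : List A) {i j : ℕ} (h : i ≤ j) :
    p.take j = p.take i ++ (p.drop i).take (j - i) := by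
  obtain ⟨k, rfl⟩ := Nat.exists_eq_add_of_le h
  rw [List.take_add, Nat.add_sub_cancel_left]

/-- Periodic tails. With `L = (card S)!` and `c = 2 * card S` (say).
Proof: among the states of `p` at the times `|p| - N, ..., |p| - N + card S` there is a repetition,
which gives `p = x ++ z1 ++ ...` with a loop `z1`, `1 ≤ |z1| ≤ card S`; similarly a loop `z2` between
the times `|p| - card S` and `|p|`. The first state is `SB`. By `pump_count`, the word between the
end of `z1` and the end of `z2` is a prefix of a power of `z1`; use `eq_of_prefix_rep`,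
`win_of_loops` and `Win.mul`. -/
theorem exists_win {G : Type} [Group G] (M : Mach G) : ∃ L c : ℕ, 1 ≤ L ∧
    ∀ (N : ℕ) (p : List M.A), M.Acc p → N ≤ p.length → 2 * c ≤ N →
      (∀ i ≤ N, M.SB (M.st M.start (p.take (p.length - i)))) →
      ∃ η : G, M.Win p L (p.length - N + c) (p.length - c) η := by
  classical
  set n := Nat.card M.S with hn
  have hn1 : 1 ≤ n := by
    rw [hn]
    exact Nat.one_le_iff_ne_zero.2 (Nat.card_ne_zero.2 ⟨⟨M.start⟩, M.finS⟩)
  refine ⟨n.factorial, 2 * n, Nat.factorial_pos n, ?_⟩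
  intro N p hp hN hc hSB
  set σ : ℕ → M.S := fun t => M.st M.start (p.take t) with hσ
  obtain ⟨a1, b1, ha1, hab1, hb1, he1⟩ := exists_rep_state M σ (p.length - N)
  obtain ⟨a2, b2, ha2, hab2, hb2, he2⟩ := exists_rep_state M σ (p.length - n)
  rw [← hn] at hb1 hb2
  have hb2' : b2 ≤ p.length := by omega
  have hb1a2 : b1 ≤ a2 := by omega
  -- the pieces
  set x0 := p.take a1 with hx0
  set z1 := (p.drop a1).take (b1 - a1) with hz1
  set x2 := (p.drop b1).take (a2 - b1) with hx2
  set z2 := (p.drop a2).take (b2 - a2) with hz2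
  set x3 := p.drop b2 with hx3
  have lx0 : x0.length = a1 := by rw [hx0, List.length_take]; omega
  have lz1 : z1.length = b1 - a1 := by rw [hz1, List.length_take, List.length_drop]; omega
  have lx2 : x2.length = a2 - b1 := by rw [hx2, List.length_take, List.length_drop]; omega
  have lz2 : z2.length = b2 - a2 := by rw [hz2, List.length_take, List.length_drop]; omega
  have t1 : p.take b1 = x0 ++ z1 := take_add_take_drop p hab1.le
  have t2 : p.take a2 = x0 ++ z1 ++ x2 := by rw [take_add_take_drop p hb1a2, t1]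
  have t3 : p.take b2 = x0 ++ z1 ++ x2 ++ z2 := by rw [take_add_take_drop p hab2.le, t2]
  have t4 : p = x0 ++ z1 ++ x2 ++ z2 ++ x3 := by rw [← t3, hx3, List.take_append_drop]
  set s := M.st M.start x0 with hs
  have hz1loop : M.st s z1 = s := by
    have : M.st M.start (p.take b1) = s := by rw [hs, hx0]; exact he1.symm
    rw [t1, M.st_append] at this
    exact this
  have hsx2 : M.st s x2 = M.st M.start (p.take a2) := by
    rw [t2, M.st_append, M.st_append, ← hs, hz1loop]
  have hz2loop : M.st (M.st s x2) z2 = M.st s x2 := by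
    have h3 : M.st M.start (p.take b2) = M.st M.start (p.take a2) := he2.symm
    rw [t3, M.st_append, ← t2] at h3
    rw [hsx2]; exact h3
  have hz1ne : z1 ≠ [] := by
    intro h0; rw [h0] at lz1; simp at lz1; omega
  have hz2ne : z2 ≠ [] := by
    intro h0; rw [h0] at lz2; simp at lz2; omega
  have hSBs : M.SB s := by
    have := hSB (p.length - a1) (by omega)
    have e : p.length - (p.length - a1) = a1 := by omega
    rw [e] at this
    exact this
  have hacc : M.st s (x2 ++ x3) ∈ M.acc := by
    have h4 : M.st M.start p ∈ M.acc := hp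
    rw [t4, M.st_append, M.st_append, M.st_append, M.st_append, ← hs, hz1loop, hz2loop] at h4
    rw [M.st_append]; exact h4
  obtain ⟨K, hK⟩ := M.pump_count (s := s) hSBs (x1 := []) (z1 := z1) (x2 := x2) (z2 := z2)
    (x3 := x3) hz1ne hz2ne (by simpa using hz1loop) (by simpa using hz2loop) (by simpa using hacc)
  have hform := eq_of_prefix_rep hz1ne hK
  set k := (x2 ++ z2).length / z1.length with hk
  set j := (x2 ++ z2).length % z1.length with hj
  have hz1pos : 0 < z1.length := List.length_pos_iff.2 hz1ne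
  have hjlt : j < z1.length := Nat.mod_lt _ hz1pos
  have hdiv : z1.length * k + j = (x2 ++ z2).length := Nat.div_add_mod _ _
  have hp5 : p = x0 ++ rep (k + 1) z1 ++ (z1.take j ++ x3) := by
    rw [rep_succ]
    calc p = x0 ++ z1 ++ (x2 ++ z2) ++ x3 := by rw [t4]; simp [List.append_assoc]
      _ = _ := by rw [hform]; simp [List.append_assoc]
  have hwin := win_of_loops M x0 z1 (z1.take j ++ x3) (k + 1) (by rw [← hs]; exact hz1loop)
  rw [← hp5] at hwin
  have hdvd : z1.length ∣ n.factorial := by
    apply Nat.dvd_factorial hz1pos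
    omega
  obtain ⟨m, hm⟩ := hdvd
  have hwin2 := hwin.mul m
  rw [Nat.mul_comm m, ← hm] at hwin2
  refine ⟨_, hwin2.mono ?_ ?_⟩
  · rw [lx0]; omega
  · have hl : (x2 ++ z2).length = (a2 - b1) + (b2 - a2) := by
      rw [List.length_append, lx2, lz2]
    have : (k + 1) * z1.length = z1.length * k + z1.length := by ring
    rw [lx0, this]
    omega

/-- Comparison of the windows of two accepted words whose values differ by an element of a finite
set. Proof: `E` from the fellow traveller property, `e = ncard E + 1`. At the times `t0 + i L`,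
`i ≤ e`, one has `v(p.take(t0+iL))⁻¹ v(p'.take(t0+iL)) = v(p.take t0)⁻¹ η⁻ⁱ η'ⁱ v(p'.take t0) ∈ E`, so
two of these elements coincide. -/
theorem win_compare {G : Type} [Group G] (M : Mach G) (hF : M.FTP) (F : Set G) (hFin : F.Finite)
    (L : ℕ) : ∃ e : ℕ, 1 ≤ e ∧ ∀ (p p' : List M.A) (η η' : G) (lo hi lo' hi' t0 : ℕ),
      M.Acc p → M.Acc p' → (M.v p)⁻¹ * M.v p' ∈ F → M.Win p L lo hi η → M.Win p' L lo' hi' η' →
      lo ≤ t0 → lo' ≤ t0 → t0 + e * L ≤ hi → t0 + e * L ≤ hi' →
      ∃ m, 1 ≤ m ∧ m ≤ e ∧ η ^ m = η' ^ m := by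
  classical
  obtain ⟨E, hE, hE2⟩ := hF F hFin
  refine ⟨E.ncard + 1, by omega, ?_⟩
  intro p p' η η' lo hi lo' hi' t0 hp hp' hpp hw hw' hlo hlo' hhi hhi'
  set e := E.ncard + 1 with he
  have key : ∀ i ≤ e, (M.v (p.take t0))⁻¹ * (η ^ i)⁻¹ * η' ^ i * M.v (p'.take t0) ∈ E := by
    intro i hi
    have hle : t0 + i * L ≤ t0 + e * L := by
      have := Nat.mul_le_mul_right L hi
      omega
    have h1 := ((hw.mul i).2 t0 hlo (hle.trans hhi)).1
    have h2 := ((hw'.mul i).2 t0 hlo' (hle.trans hhi')).1
    have h3 := hE2 p p' hp hp' hpp (t0 + i * L)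
    rw [h1, h2] at h3
    convert h3 using 1
    group
  have : ∃ i j, i < j ∧ j ≤ e ∧
      (M.v (p.take t0))⁻¹ * (η ^ i)⁻¹ * η' ^ i * M.v (p'.take t0) =
      (M.v (p.take t0))⁻¹ * (η ^ j)⁻¹ * η' ^ j * M.v (p'.take t0) := by
    haveI : Fintype E := hE.fintype
    obtain ⟨x, y, hxy, h⟩ := Fintype.exists_ne_map_eq_of_card_lt
      (fun x : Fin (e + 1) => (⟨_, key x (by omega)⟩ : E)) (by
        rw [Fintype.card_fin, ← Nat.card_eq_fintype_card, Nat.card_coe_set_eq]
        omega)
    have h' := Subtype.ext_iff.1 h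
    rcases lt_or_gt_of_ne (fun e => hxy (Fin.ext e) : (x : ℕ) ≠ (y : ℕ)) with hlt | hlt
    · exact ⟨x, y, hlt, by omega, h'⟩
    · exact ⟨y, x, hlt, by omega, h'.symm⟩
  obtain ⟨i, j, hij, hje, h⟩ := this
  refine ⟨j - i, by omega, by omega, ?_⟩
  have h1 : (η ^ i)⁻¹ * η' ^ i = (η ^ j)⁻¹ * η' ^ j := by
    have := mul_right_cancel h
    rw [mul_assoc, mul_assoc] at this
    exact mul_left_cancel this
  have e1 : η ^ j = η ^ (j - i) * η ^ i := by rw [← pow_add]; congr 1; omega
  have e2 : η' ^ j = η' ^ (j - i) * η' ^ i := by rw [← pow_add]; congr 1; omega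
  rw [e1, e2] at h1
  rw [mul_inv_rev, mul_assoc] at h1
  have h2 := mul_left_cancel h1
  have h3 : (η ^ (j - i))⁻¹ * η' ^ (j - i) * η' ^ i = η' ^ i := by
    rw [mul_assoc]; exact h2.symm
  have h4 : (η ^ (j - i))⁻¹ * η' ^ (j - i) = 1 := by
    have := mul_right_cancel (h3.trans (one_mul _).symm)
    exact this
  exact (inv_mul_eq_one.1 h4)

end Pool.Agent.AutSol
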