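import Pool.Agent.AutSol.Base
import Pool.Agent.AutSol.Tail

/-! # T3 (module 8): Theorem 1, the element `η` -/

set_option autoImplicit false

namespace Pool.Agent.AutSol

section Ball
variable {G : Type} [Group G]

/-- Products of at most `n` elements of `B`. -/
def ball (B : Set G) : ℕ → Set G
  | 0 => {1}
  | n + 1 => ball B n ∪ Set.image2 (· * ·) (ball B n) B

theorem ball_finite {B : Set G} (hB : B.Finite) (n : ℕ) : (ball B n).Finite := by
  induction n with
  | zero => exact Set.finite_singleton 1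
  | succ n ih => exact ih.union (ih.image2 _ hB)

theorem ball_succ (B : Set G) (n : ℕ) : ball B n ⊆ ball B (n + 1) := fun _ h => Or.inl h

theorem ball_mono (B : Set G) {m n : ℕ} (h : m ≤ n) : ball B m ⊆ ball B n :=
  monotone_nat_of_le_succ (fun n => ball_succ B n) h

theorem one_mem_ball (B : Set G) (n : ℕ) : (1 : G) ∈ ball B n :=
  ball_mono B (Nat.zero_le n) rfl

theorem mul_mem_ball {B : Set G} {n : ℕ} {g b : G} (hg : g ∈ ball B n) (hb : b ∈ B) :
    g * b ∈ ball B (n + 1) := Or.inr ⟨g, hg, b, hb, rfl⟩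

/-- If the conjugates of `ζ` lie in a finite set then its centralizer has finite index. -/
theorem index_of_conj_finite {ζ : G} {Z : Set G} (hZ : Z.Finite) (h : ∀ g : G, g * ζ * g⁻¹ ∈ Z) :
    Finite (G ⧸ Subgroup.centralizer {ζ}) := by
  have : Finite Z := hZ
  refine Finite.of_injective
    (fun q : G ⧸ Subgroup.centralizer {ζ} => (⟨q.out * ζ * q.out⁻¹, h _⟩ : Z)) ?_
  intro q1 q2 h12
  have h3 : q1.out * ζ * q1.out⁻¹ = q2.out * ζ * q2.out⁻¹ := congrArg Subtype.val h12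
  rw [← QuotientGroup.out_eq' q1, ← QuotientGroup.out_eq' q2]
  rw [QuotientGroup.eq]
  rw [Subgroup.mem_centralizer_singleton_iff]
  have h4 : ζ = q1.out⁻¹ * (q2.out * ζ * q2.out⁻¹) * q1.out := by rw [← h3]; group
  calc q1.out⁻¹ * q2.out * ζ = (q1.out⁻¹ * (q2.out * ζ * q2.out⁻¹) * q1.out) * (q1.out⁻¹ * q2.out) := by group
    _ = ζ * (q1.out⁻¹ * q2.out) := by rw [← h4]

end Ball

/-- The compactness argument. -/
theorem exists_uniform {G : Type} {Z : Set G} (hZ : Z.Finite) (P : ℕ → G → Prop)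
    (hP : ∀ m n ζ, m ≤ n → P n ζ → P m ζ) (h : ∀ n, ∃ ζ ∈ Z, P n ζ) :
    ∃ ζ ∈ Z, ∀ n, P n ζ := by
  by_contra hcon
  push Not at hcon
  choose! f hf using hcon
  obtain ⟨ζ, hζ, hPζ⟩ := h (hZ.toFinset.sup f)
  exact hf ζ hζ (hP _ _ ζ (Finset.le_sup (hZ.mem_toFinset.2 hζ)) hPζ)

section Main
variable {G : Type} [Group G] (M : Mach G)

/-- The outputs of the machine. -/
def outs : Set G := Set.range (fun x : M.S × M.A => M.out x.1 x.2)

omit [Group G] in
theorem outs_finite : (outs M).Finite := Set.finite_range _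

theorem val_mem_ball (w : List M.A) : ∀ (s : M.S) (g : G) (n : ℕ), g ∈ ball (outs M) n →
    g * M.val s w ∈ ball (outs M) (n + w.length) := by
  induction w with
  | nil => intro s g n h; simpa using h
  | cons a w ih =>
    intro s g n h
    have h1 := ih (M.step s a) (g * M.out s a) (n + 1) (mul_mem_ball h ⟨(s, a), rfl⟩)
    rw [Mach.val_cons, ← mul_assoc, List.length_cons]
    have h2 : n + (w.length + 1) = n + 1 + w.length := by ring
    rw [h2]
    exact h1

theorem exists_mem_ball (hO : M.Onto) (g : G) : ∃ n, g ∈ ball (outs M) n := by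
  obtain ⟨w, _, rfl⟩ := hO g
  exact ⟨0 + w.length, by simpa [Mach.v] using val_mem_ball M w M.start 1 0 (one_mem_ball _ 0)⟩

/-- The property `P n ζ` of the paper proof. -/
def PP (L c N m0 n : ℕ) (ζ : G) : Prop :=
  ∃ h0 : G, ∀ k ∈ ball (outs M) n, ∀ p, M.Acc p → M.v p = h0 * k →
    N ≤ p.length ∧ ∃ η, M.Win p L (p.length - N + c) (p.length - c) η ∧ η ^ m0 = h0 * ζ * h0⁻¹

variable {M}

/-- The conjugates of `ζ` by elements of the ball are in a finite set. -/
theorem PP.conj_mem {L c N m0 n : ℕ} {ζ : G} (hO : M.Onto) (hN : 2 * c + L ≤ N)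
    (h : PP M L c N m0 n ζ) {k : G} (hk : k ∈ ball (outs M) n) :
    k⁻¹ * ζ * k ∈ (fun x : G × G => (x.1⁻¹ * x.2 * x.1) ^ m0) ''
      ((M.Vals (c + L)) ×ˢ (M.Vals L)) := by
  obtain ⟨h0, hh⟩ := h
  obtain ⟨p, hp, hpv⟩ := hO (h0 * k)
  obtain ⟨hNp, η, hW, hη⟩ := hh k hk p hp hpv
  have hNc : c + L ≤ p.length := by omega
  obtain ⟨hW1, hW2⟩ := hW.2 (p.length - c - L) (by omega) (by omega)
  set t := p.length - c - L with ht
  have e1 : M.v p = M.v (p.take t) * M.val (M.st M.start (p.take t)) (p.drop t) := by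
    rw [← Mach.v_append, List.take_append_drop]
  have e2 : M.v (p.take (t + L)) =
      M.v (p.take t) * M.val (M.st M.start (p.take t)) ((p.drop t).take L) := by
    rw [← Mach.v_append, ← List.take_add]
  set x := M.val (M.st M.start (p.take t)) (p.drop t) with hx
  set y := M.val (M.st M.start (p.take t)) ((p.drop t).take L) with hy
  refine ⟨(x, y), ⟨⟨_, _, ?_, hx.symm⟩, ⟨_, _, ?_, hy.symm⟩⟩, ?_⟩
  · rw [List.length_drop]; omega
  · rw [List.length_take]; exact min_le_left _ _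
  · have e3 : η = M.v (p.take t) * y * (M.v (p.take t))⁻¹ := by
      rw [eq_mul_inv_iff_mul_eq, ← hW1, e2]
    have e4 : ζ = h0⁻¹ * η ^ m0 * h0 := by rw [hη]; group
    have e5 : k = h0⁻¹ * (M.v (p.take t) * x) := by rw [← e1, hpv]; group
    have e6 : k⁻¹ * ζ * k = (M.v (p.take t) * x)⁻¹ * η ^ m0 * (M.v (p.take t) * x) := by
      rw [e4, e5]; group
    change (x⁻¹ * y * x) ^ m0 = _
    rw [e6, e3]
    have e7 : ∀ a b : G, (a * b * a⁻¹) ^ m0 = a * b ^ m0 * a⁻¹ := fun a b => conj_pow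
    have e8 : (x⁻¹ * y * x) ^ m0 = x⁻¹ * y ^ m0 * x := by
      have := e7 x⁻¹ y
      rwa [inv_inv] at this
    rw [e7, e8]
    group

theorem exists_PP [Infinite G] (hFol : Folner G) (hO : M.Onto) {D : ℕ} (hB : M.Bdd D)
    {L c N m0 Δ e : ℕ}
    (hwin : ∀ (N : ℕ) (p : List M.A), M.Acc p → N ≤ p.length → 2 * c ≤ N →
      (∀ i ≤ N, M.SB (M.st M.start (p.take (p.length - i)))) →
      ∃ η : G, M.Win p L (p.length - N + c) (p.length - c) η)
    (hΔ : ∀ p p', M.Acc p → M.Acc p' → (M.v p)⁻¹ * M.v p' ∈ outs M ∪ {1} →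
      p.length ≤ p'.length + Δ ∧ p'.length ≤ p.length + Δ)
    (he : ∀ (p p' : List M.A) (η η' : G) (lo hi lo' hi' t0 : ℕ),
      M.Acc p → M.Acc p' → (M.v p)⁻¹ * M.v p' ∈ outs M ∪ {1} → M.Win p L lo hi η →
      M.Win p' L lo' hi' η' →
      lo ≤ t0 → lo' ≤ t0 → t0 + e * L ≤ hi → t0 + e * L ≤ hi' →
      ∃ m, 1 ≤ m ∧ m ≤ e ∧ η ^ m = η' ^ m)
    (hm0 : ∀ m, 1 ≤ m → m ≤ e → m ∣ m0) (hN : 2 * c + Δ + e * L ≤ N) (n : ℕ) :
    ∃ ζ, PP M L c N m0 n ζ := by
  obtain ⟨h0, hh⟩ := exists_base M hFol hB (ball (outs M) n) (ball_finite (outs_finite M) n) N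
  have hcmp : ∀ (p p' : List M.A) (η η' : G), M.Acc p → M.Acc p' →
      (M.v p)⁻¹ * M.v p' ∈ outs M ∪ {1} → N ≤ p.length → N ≤ p'.length →
      M.Win p L (p.length - N + c) (p.length - c) η →
      M.Win p' L (p'.length - N + c) (p'.length - c) η' → η ^ m0 = η' ^ m0 := by
    intro p p' η η' hp hp' hF hl hl' hW hW'
    obtain ⟨d1, d2⟩ := hΔ p p' hp hp' hF
    obtain ⟨m, hm1, hme, hm⟩ := he p p' η η' _ _ _ _
      (max (p.length - N + c) (p'.length - N + c)) hp hp' hF hW hW'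
      (le_max_left _ _) (le_max_right _ _) (by omega) (by omega)
    obtain ⟨d, hd⟩ := hm0 m hm1 hme
    rw [hd, pow_mul, pow_mul, hm]
  have hw : ∀ k ∈ ball (outs M) n, ∀ p, M.Acc p → M.v p = h0 * k →
      N ≤ p.length ∧ ∃ η, M.Win p L (p.length - N + c) (p.length - c) η := by
    intro k hk p hp hpv
    obtain ⟨h1, h2⟩ := hh k hk p hp hpv
    exact ⟨h1, hwin N p hp h1 (by omega) h2⟩
  obtain ⟨p0, hp0, hp0v⟩ := hO (h0 * 1)
  obtain ⟨hl0, η0, hW0⟩ := hw 1 (one_mem_ball _ _) p0 hp0 hp0v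
  have key : ∀ j ≤ n, ∀ k ∈ ball (outs M) j, ∀ p, M.Acc p → M.v p = h0 * k →
      ∀ η, M.Win p L (p.length - N + c) (p.length - c) η → η ^ m0 = η0 ^ m0 := by
    intro j
    induction j with
    | zero =>
      intro hj k hk p hp hpv η hW
      have hk1 : k = 1 := hk
      subst hk1
      obtain ⟨hl, _⟩ := hw 1 (one_mem_ball _ _) p hp hpv
      exact hcmp p p0 η η0 hp hp0 (by rw [hpv, hp0v]; simp) hl hl0 hW hW0
    | succ j ih =>
      intro hj k hk p hp hpv η hW
      have hkn : k ∈ ball (outs M) n := ball_mono _ hj hk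
      rcases hk with hk | ⟨k', hk', b, hb, rfl⟩
      · exact ih (by omega) k hk p hp hpv η hW
      · obtain ⟨p', hp', hp'v⟩ := hO (h0 * k')
        obtain ⟨hl', η', hW'⟩ := hw k' (ball_mono _ (by omega) hk') p' hp' hp'v
        obtain ⟨hl, _⟩ := hw _ hkn p hp hpv
        have h1 := ih (by omega) k' hk' p' hp' hp'v η' hW'
        have h2 := hcmp p' p η' η hp' hp (by
          rw [hpv, hp'v]
          left
          have : (h0 * k')⁻¹ * (h0 * (k' * b)) = b := by group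
          simpa [this] using hb) hl' hl hW' hW
        rw [← h2, h1]
  refine ⟨h0⁻¹ * η0 ^ m0 * h0, h0, ?_⟩
  intro k hk p hp hpv
  obtain ⟨hl, η, hW⟩ := hw k hk p hp hpv
  refine ⟨hl, η, hW, ?_⟩
  rw [key n le_rfl k hk p hp hpv η hW]
  group

end Main

/-- THEOREM 1. In an infinite Folner group with a machine that is onto, of bounded multiplicity and
has the fellow traveller property there are an element `η` of infinite order whose centralizer `H`
has finite index, and an accepted word `u y q` with value in `H`, `y` a nonempty loop, with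
`v(u y) = η v(u)`. -/
theorem exists_eta {G : Type} [Group G] [Infinite G] (M : Mach G) (hFol : Folner G)
    (hO : M.Onto) {D : ℕ} (hB : M.Bdd D) (hF : M.FTP) :
    ∃ (η : G) (u y q : List M.A), (Subgroup.centralizer {η}).index ≠ 0 ∧
      (∀ n : ℕ, 1 ≤ n → η ^ n ≠ 1) ∧ M.Acc (u ++ y ++ q) ∧ y ≠ [] ∧
      M.st (M.st M.start u) y = M.st M.start u ∧ M.v (u ++ y) = η * M.v u ∧
      M.v (u ++ y ++ q) ∈ Subgroup.centralizer {η} := by
  obtain ⟨L, c, hL, hwin⟩ := exists_win M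
  have hFin : (outs M ∪ {1}).Finite := (outs_finite M).union (Set.finite_singleton 1)
  obtain ⟨Δ, hΔ⟩ := M.len_diff hB hF _ hFin
  obtain ⟨e, he1, he⟩ := win_compare M hF _ hFin L
  set m0 := e.factorial with hm0
  have hm0pos : 1 ≤ m0 := Nat.factorial_pos e
  have hdvd : ∀ m, 1 ≤ m → m ≤ e → m ∣ m0 := fun m h1 h2 => Nat.dvd_factorial h1 h2
  set N := 2 * c + Δ + e * L + m0 * L + L with hN
  set Z := (fun x : G × G => (x.1⁻¹ * x.2 * x.1) ^ m0) '' ((M.Vals (c + L)) ×ˢ (M.Vals L)) with hZ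
  have hZfin : Z.Finite := ((M.Vals_finite _).prod (M.Vals_finite _)).image _
  have hLN : 2 * c + L ≤ N := by omega
  have h1 : ∀ n, ∃ ζ ∈ Z, PP M L c N m0 n ζ := by
    intro n
    obtain ⟨ζ, hζ⟩ := exists_PP hFol hO hB hwin hΔ he hdvd
      (show 2 * c + Δ + e * L ≤ N by omega) n
    refine ⟨ζ, ?_, hζ⟩
    have := hζ.conj_mem hO hLN (one_mem_ball _ n)
    rwa [inv_one, one_mul, mul_one] at this
  obtain ⟨ζ, hζZ, hζ⟩ := exists_uniform hZfin (fun n ζ => PP M L c N m0 n ζ)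
    (fun m n ζ hmn ⟨h0, hh⟩ => ⟨h0, fun k hk => hh k (ball_mono _ hmn hk)⟩) h1
  have hconj : ∀ g : G, g * ζ * g⁻¹ ∈ Z := by
    intro g
    obtain ⟨n, hn⟩ := exists_mem_ball M hO g⁻¹
    have := (hζ n).conj_mem hO hLN hn
    rwa [inv_inv] at this
  have hfinC : Finite (G ⧸ Subgroup.centralizer {ζ}) := index_of_conj_finite hZfin hconj
  have hreach : ∃ n, ∀ q : G ⧸ Subgroup.centralizer {ζ}, q.out⁻¹ ∈ ball (outs M) n := by
    have h2 : ∀ q : G ⧸ Subgroup.centralizer {ζ}, ∃ n, q.out⁻¹ ∈ ball (outs M) n :=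
      fun q => exists_mem_ball M hO _
    choose f hf using h2
    obtain ⟨n, hn⟩ := (Set.finite_range f).bddAbove
    exact ⟨n, fun q => ball_mono _ (hn ⟨q, rfl⟩) (hf q)⟩
  obtain ⟨n, hn⟩ := hreach
  obtain ⟨h0, hh⟩ := hζ n
  have hk : ∃ k ∈ ball (outs M) n, h0 * k ∈ Subgroup.centralizer {h0 * ζ * h0⁻¹} := by
    refine ⟨_, hn (h0 : G ⧸ Subgroup.centralizer {ζ}), ?_⟩
    have h3 : ((h0 : G ⧸ Subgroup.centralizer {ζ}).out : G ⧸ Subgroup.centralizer {ζ}) = h0 :=
      QuotientGroup.out_eq' _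
    rw [QuotientGroup.eq, Subgroup.mem_centralizer_singleton_iff] at h3
    set o := (h0 : G ⧸ Subgroup.centralizer {ζ}).out with ho
    rw [Subgroup.mem_centralizer_singleton_iff]
    have h4 : ζ = (o⁻¹ * h0) * ζ * (o⁻¹ * h0)⁻¹ := by rw [h3]; group
    calc h0 * o⁻¹ * (h0 * ζ * h0⁻¹) = h0 * ((o⁻¹ * h0) * ζ * (o⁻¹ * h0)⁻¹) * o⁻¹ := by group
      _ = h0 * ζ * h0⁻¹ * (h0 * o⁻¹) := by rw [← h4]; group
  obtain ⟨k, hkn, hkC⟩ := hk
  obtain ⟨p, hp, hpv⟩ := hO (h0 * k)
  obtain ⟨hNp, η1, hW, hη1⟩ := hh k hkn p hp hpv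
  have hW2 := hW.mul m0
  obtain ⟨a1, a2⟩ := hW2.2 (p.length - N + c) le_rfl (by omega)
  rw [hη1] at a1
  set t := p.length - N + c with ht
  set η := h0 * ζ * h0⁻¹ with hη
  have hy : p.take (t + m0 * L) = p.take t ++ (p.drop t).take (m0 * L) := List.take_add
  have hpp : p.take t ++ (p.drop t).take (m0 * L) ++ p.drop (t + m0 * L) = p := by
    rw [← hy, List.take_append_drop]
  have hyne : (p.drop t).take (m0 * L) ≠ [] := by
    rw [← List.length_pos_iff, List.length_take, List.length_drop]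
    have h5 : 1 ≤ m0 * L := Nat.mul_pos hm0pos hL
    have h6 : t + m0 * L ≤ p.length := by omega
    omega
  have hloop : M.st (M.st M.start (p.take t)) ((p.drop t).take (m0 * L)) =
      M.st M.start (p.take t) := by
    rw [← Mach.st_append, ← hy, a2]
  have hval : M.v (p.take t ++ (p.drop t).take (m0 * L)) = η * M.v (p.take t) := by
    rw [← hy, a1]
  have hacc : M.Acc (p.take t ++ (p.drop t).take (m0 * L) ++ p.drop (t + m0 * L)) := by
    rw [hpp]; exact hp
  refine ⟨η, p.take t, (p.drop t).take (m0 * L), p.drop (t + m0 * L), ?_, ?_, hacc, hyne, hloop,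
    hval, ?_⟩
  · have hfin2 : Finite (G ⧸ Subgroup.centralizer {η}) := by
      refine index_of_conj_finite hZfin (fun g => ?_)
      have h7 : g * η * g⁻¹ = (g * h0) * ζ * (g * h0)⁻¹ := by rw [hη]; group
      rw [h7]
      exact hconj _
    exact Subgroup.index_ne_zero_of_finite
  · intro j hj hη1'
    have hu : M.Useful (M.st M.start (p.take t)) := M.useful_take hp t
    have h8 : η = M.v (p.take t) * M.val (M.st M.start (p.take t)) ((p.drop t).take (m0 * L)) *
        (M.v (p.take t))⁻¹ := by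
      rw [← Mach.v_append, hval]; group
    rw [h8, conj_pow] at hη1'
    apply M.loop_infinite hB hu hyne hloop j hj
    have h9 := congrArg (fun x => (M.v (p.take t))⁻¹ * x * M.v (p.take t)) hη1'
    simpa [mul_assoc] using h9
  · rw [hpp, hpv]
    exact hkC

end Pool.Agent.AutSol
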