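import Pool.Agent.AutSol.Defs

/-! # H (module 9): machines for subgroups of finite index -/

set_option autoImplicit false

namespace Pool.Agent.AutSol

namespace FinIndex

variable {G : Type} [Group G] (H : Subgroup G)

open Classical in
/-- a section of the projection to the cosets, with value `1` at the coset of `1` -/
noncomputable def sec (x : G ⧸ H) : G := if x = ((1 : G) : G ⧸ H) then 1 else Quotient.out x

lemma sec_mk (x : G ⧸ H) : ((sec H x : G) : G ⧸ H) = x := by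
  unfold sec
  split_ifs with h
  · exact h.symm
  · exact Quotient.out_eq' x

lemma sec_one : sec H ((1 : G) : G ⧸ H) = 1 := if_pos rfl

lemma sec_mem (g : G) (x : G ⧸ H) : (sec H x)⁻¹ * g * sec H (g⁻¹ • x) ∈ H := by
  have h1 : ((g * sec H (g⁻¹ • x) : G) : G ⧸ H) = (sec H x : G) := by
    have h2 : ((g * sec H (g⁻¹ • x) : G) : G ⧸ H) = g • ((sec H (g⁻¹ • x) : G) : G ⧸ H) := rfl
    rw [h2, sec_mk, smul_inv_smul, sec_mk]
  rw [mul_assoc]
  exact QuotientGroup.eq.mp h1.symm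

variable (M : Mach G)

/-- the machine for a subgroup of finite index -/
noncomputable def mach [Finite (G ⧸ H)] : Mach H :=
  M.ext (X := G ⧸ H) ((1 : G) : G ⧸ H) (fun s a x => (M.out s a)⁻¹ • x)
    (fun s a x => ⟨(sec H x)⁻¹ * M.out s a * sec H ((M.out s a)⁻¹ • x), sec_mem H _ x⟩)
    {p | p.1 ∈ M.acc ∧ p.2 = ((1 : G) : G ⧸ H)}

variable [Finite (G ⧸ H)]

lemma st_eq (s : M.S) (x : G ⧸ H) (w : List M.A) :
    (mach H M).st (s, x) w = (M.st s w, (M.val s w)⁻¹ • x) := by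
  induction w generalizing s x with
  | nil =>
    show (s, x) = (s, (1 : G)⁻¹ • x)
    rw [inv_one, one_smul]
  | cons a w ih =>
    show (mach H M).st (M.step s a, (M.out s a)⁻¹ • x) w = _
    rw [ih, Mach.st_cons, Mach.val_cons, mul_inv_rev, mul_smul]

lemma val_eq (s : M.S) (x : G ⧸ H) (w : List M.A) :
    (((mach H M).val (s, x) w : H) : G) =
      (sec H x)⁻¹ * M.val s w * sec H ((M.val s w)⁻¹ • x) := by
  induction w generalizing s x with
  | nil =>
    show (1 : G) = (sec H x)⁻¹ * 1 * sec H ((1 : G)⁻¹ • x)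
    rw [inv_one, one_smul, mul_one, inv_mul_cancel]
  | cons a w ih =>
    have h1 : (((mach H M).val (s, x) (a :: w) : H) : G) =
        ((sec H x)⁻¹ * M.out s a * sec H ((M.out s a)⁻¹ • x)) *
          (((mach H M).val (M.step s a, (M.out s a)⁻¹ • x) w : H) : G) := rfl
    refine h1.trans ?_
    rw [ih, Mach.val_cons, mul_inv_rev, mul_smul]
    group

lemma start_st (w : List M.A) :
    (mach H M).st (mach H M).start w = (M.st M.start w, (M.v w)⁻¹ • ((1 : G) : G ⧸ H)) :=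
  st_eq H M M.start _ w

lemma v_eq (w : List M.A) : (((mach H M).v w : H) : G) =
    M.v w * sec H ((M.v w)⁻¹ • ((1 : G) : G ⧸ H)) := by
  have h1 := val_eq H M M.start ((1 : G) : G ⧸ H) w
  rw [sec_one, inv_one, one_mul] at h1
  exact h1

omit [Finite (G ⧸ H)] in
lemma smul_one_iff (g : G) : g⁻¹ • ((1 : G) : G ⧸ H) = ((1 : G) : G ⧸ H) ↔ g ∈ H := by
  have h1 : g⁻¹ • ((1 : G) : G ⧸ H) = ((g⁻¹ * 1 : G) : G ⧸ H) := rfl
  rw [h1, QuotientGroup.eq]
  simp

lemma acc_iff (w : List M.A) : (mach H M).Acc w ↔ M.Acc w ∧ M.v w ∈ H := by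
  have h1 : (mach H M).Acc w ↔ (mach H M).st (mach H M).start w ∈ (mach H M).acc := Iff.rfl
  rw [h1, start_st]
  have h2 : (M.st M.start w ∈ M.acc ∧ (M.v w)⁻¹ • ((1 : G) : G ⧸ H) = ((1 : G) : G ⧸ H)) ↔
      M.Acc w ∧ M.v w ∈ H := by
    rw [smul_one_iff]
    rfl
  exact h2

lemma v_of_mem (w : List M.A) (h : M.v w ∈ H) : (((mach H M).v w : H) : G) = M.v w := by
  rw [v_eq, (smul_one_iff H _).mpr h, sec_one, mul_one]

lemma useful_fst {s : M.S} {x : G ⧸ H} (h : (mach H M).Useful (s, x)) : M.Useful s := by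
  obtain ⟨⟨u, hu⟩, q, hq⟩ := h
  refine ⟨⟨u, ?_⟩, q, ?_⟩
  · rw [start_st] at hu
    exact congrArg Prod.fst hu
  · rw [st_eq] at hq
    exact hq.1

lemma cyc_fst {s : M.S} {x : G ⧸ H} (h : (mach H M).Cyc (s, x)) : M.Cyc s := by
  obtain ⟨z, hz, h1⟩ := h
  rw [st_eq] at h1
  exact ⟨z, hz, congrArg Prod.fst h1⟩

lemma rank {ρ : M.S → ℕ} (hρ : M.Rank ρ) : (mach H M).Rank (fun p : M.S × (G ⧸ H) => ρ p.1) where
  mono := by
    rintro ⟨s, x⟩ w h1 h2
    rw [st_eq] at h2 ⊢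
    exact hρ.mono s w (useful_fst H M h1) (useful_fst H M h2)
  back := by
    rintro ⟨s, x⟩ (w : List M.A) h1 h2 h3 h4
    rw [st_eq] at h2 h4
    obtain ⟨w', hw'⟩ := hρ.back s w (useful_fst H M h1) (useful_fst H M h2) (cyc_fst H M h3) h4
    have hloop : M.st s (w ++ w') = s := by rw [Mach.st_append, hw']
    obtain ⟨n, hn, hpow⟩ : ∃ n : ℕ, 0 < n ∧ ((M.val s (w ++ w')) ^ n)⁻¹ • x = x := by
      have hfin : IsOfFinOrder (MulAction.toPermHom G (G ⧸ H) (M.val s (w ++ w'))) :=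
        isOfFinOrder_of_finite _
      obtain ⟨n, hn, hpow⟩ := isOfFinOrder_iff_pow_eq_one.mp hfin
      refine ⟨n, hn, ?_⟩
      rw [inv_smul_eq_iff]
      rw [← map_pow] at hpow
      have := congrArg (fun f : Equiv.Perm (G ⧸ H) => f x) hpow
      exact this.symm
    obtain ⟨k, rfl⟩ : ∃ k, n = k + 1 := ⟨n - 1, by omega⟩
    let z : List M.A := w' ++ rep k (w ++ w')
    refine ⟨z, ?_⟩
    have h5 : (mach H M).st ((mach H M).st (s, x) w) z =
        (mach H M).st (s, x) (w ++ z : List M.A) :=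
      ((mach H M).st_append (s, x) w z).symm
    have h6 : (w ++ z : List M.A) = rep (k + 1) (w ++ w') := by
      rw [rep_succ, List.append_assoc]
    rw [h5, h6, st_eq, M.st_rep hloop, M.val_rep hloop, hpow]
  pos := by
    rintro ⟨s, x⟩ h1 h2
    exact hρ.pos s (useful_fst H M h1) (cyc_fst H M h2)

lemma ftp_aux (a b : List M.A) : (sec H ((M.v a)⁻¹ • ((1 : G) : G ⧸ H)))⁻¹ *
    ((M.v a)⁻¹ * M.v b) * sec H ((M.v b)⁻¹ • ((1 : G) : G ⧸ H)) =
    (((mach H M).v a : H) : G)⁻¹ * (((mach H M).v b : H) : G) := by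
  rw [v_eq H M a, v_eq H M b]
  group

lemma ftp (h : M.FTP) : (mach H M).FTP := by
  intro F hF
  obtain ⟨E, hE, hEM⟩ := h ((fun x : H => (x : G)) '' F) (hF.image _)
  let E' : Set G := (fun t : (G ⧸ H) × G × (G ⧸ H) => (sec H t.1)⁻¹ * t.2.1 * sec H t.2.2) ''
    ((Set.univ : Set (G ⧸ H)) ×ˢ (E ×ˢ (Set.univ : Set (G ⧸ H))))
  have hE' : E'.Finite := ((Set.finite_univ).prod (hE.prod Set.finite_univ)).image _
  refine ⟨(fun x : H => (x : G)) ⁻¹' E', hE'.preimage (Subtype.val_injective.injOn), ?_⟩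
  intro (w : List M.A) (w' : List M.A) hw hw' hF' t
  obtain ⟨hw1, hw2⟩ := (acc_iff H M w).mp hw
  obtain ⟨hw1', hw2'⟩ := (acc_iff H M w').mp hw'
  have h1 : (M.v w)⁻¹ * M.v w' ∈ (fun x : H => (x : G)) '' F := by
    refine ⟨_, hF', ?_⟩
    show (((mach H M).v w : H) : G)⁻¹ * (((mach H M).v w' : H) : G) = _
    rw [v_of_mem H M w hw2, v_of_mem H M w' hw2']
  have h2 := hEM w w' hw1 hw1' h1 t
  refine ⟨((M.v (w.take t))⁻¹ • ((1 : G) : G ⧸ H), (M.v (w.take t))⁻¹ * M.v (w'.take t),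
    (M.v (w'.take t))⁻¹ • ((1 : G) : G ⧸ H)), ⟨trivial, h2, trivial⟩, ?_⟩
  exact ftp_aux H M (w.take t) (w'.take t)

end FinIndex

open FinIndex in
/-- A good machine for `G` gives one for a subgroup `H` of finite index, of the same rank.

Machine: `M.ext` with `X = G ⧸ H`, `x0 = (1 : G)`, `upd s a x = (M.out s a)⁻¹ • x`, output
`(r x)⁻¹ * M.out s a * r ((M.out s a)⁻¹ • x) ∈ H`, where `r : G ⧸ H → G` is a section with
`r x0 = 1`; accept `(s, x)` when `s ∈ M.acc` and `x = x0`. Then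
`st' (s, x) w = (st s w, (val s w)⁻¹ • x)` and
`val' (s, x) w = (r x)⁻¹ * val s w * r ((val s w)⁻¹ • x)`; accepted words of the new machine are the
accepted words of `M` with value in `H`, with the same value. `Onto`, `Bdd`, `FTP` are clear. The
function `(s, x) ↦ ρ s` is a rank function: for `back`, if `w'` leads from `st s w` back to `s`,
then `w ++ w'` is a loop at `s` which acts on `G ⧸ H` by `x ↦ g⁻¹ • x`, some power `n ≥ 1` of it
fixes `x`, and `w' ++ rep (n-1) (w ++ w')` leads back to `(s, x)`.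
The special state is `(st start u, (v u)⁻¹ • x0)` with the loop `y`: its value is
`r(x)⁻¹ val(y) r(x)` with `r(x) = (v u)⁻¹ h`, `h ∈ H`, that is `h⁻¹ η h = η`. -/
theorem finIndex {G : Type} [Group G] (M : Mach G) (r : ℕ) (hM : M.Good r) (H : Subgroup G)
    (hH : H.index ≠ 0) (η : G) (hη : η ∈ H) (hc : ∀ h ∈ H, h * η = η * h)
    (u y q : List M.A) (hacc : M.Acc (u ++ y ++ q)) (hy : y ≠ [])
    (hl : M.st (M.st M.start u) y = M.st M.start u) (hv : M.v (u ++ y) = η * M.v u)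
    (hin : M.v (u ++ y ++ q) ∈ H) :
    ∃ M' : Mach H, M'.Good r ∧ ∃ s, M'.Useful s ∧ ∃ z : List M'.A, z ≠ [] ∧ M'.st s z = s ∧
      M'.val s z = (⟨η, hη⟩ : H) := by
  have hfi : H.FiniteIndex := ⟨hH⟩
  have hfin : Finite (G ⧸ H) := Subgroup.finite_quotient_of_finiteIndex
  refine ⟨mach H M, ⟨?_, ?_, ftp H M hM.ftp, ?_⟩, ?_⟩
  · intro g
    obtain ⟨w, hw, hwg⟩ := hM.onto (g : G)
    have hmem : M.v w ∈ H := by rw [hwg]; exact g.2
    refine ⟨w, (acc_iff H M w).mpr ⟨hw, hmem⟩, Subtype.ext ?_⟩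
    rw [v_of_mem H M w hmem, hwg]
  · obtain ⟨D, hD⟩ := hM.bdd
    refine ⟨D, fun g T hT => hD (g : G) T fun w hw => ?_⟩
    obtain ⟨h1, h2⟩ := hT w hw
    obtain ⟨h3, h4⟩ := (acc_iff H M w).mp h1
    refine ⟨h3, ?_⟩
    rw [← v_of_mem H M w h4, h2]
  · obtain ⟨ρ, hρ, hr⟩ := hM.rank
    exact ⟨_, rank H M hρ, hr⟩
  · set x : G ⧸ H := (M.v u)⁻¹ • ((1 : G) : G ⧸ H) with hx
    have hyv : M.val (M.st M.start u) y = (M.v u)⁻¹ * η * M.v u := by
      have h1 := M.v_append u y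
      rw [hv] at h1
      rw [mul_assoc, h1, inv_mul_cancel_left]
    have hηx : ((M.v u)⁻¹ * η * M.v u)⁻¹ • x = x := by
      rw [hx, ← mul_smul]
      have h2 : ((M.v u)⁻¹ * η * M.v u)⁻¹ * (M.v u)⁻¹ = (M.v u)⁻¹ * η⁻¹ := by group
      rw [h2, mul_smul, (smul_one_iff H η).mpr hη]
    have hloop : (mach H M).st (M.st M.start u, x) y = (M.st M.start u, x) := by
      rw [st_eq, hl, hyv, hηx]
    let z : List M.A := y ++ q
    refine ⟨(M.st M.start u, x), ⟨⟨u, start_st H M u⟩, z, ?_⟩, y, hy, hloop, ?_⟩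
    · have h3 := (acc_iff H M (u ++ y ++ q)).mpr ⟨hacc, hin⟩
      have h6 : (u ++ y ++ q : List M.A) = u ++ z := List.append_assoc _ _ _
      rw [h6] at h3
      have h4 : (mach H M).st (mach H M).start (u ++ z : List M.A) =
          (mach H M).st ((mach H M).st (mach H M).start u) z :=
        (mach H M).st_append (mach H M).start u z
      have h5 : (mach H M).st (mach H M).start (u ++ z : List M.A) ∈ (mach H M).acc := h3
      rw [h4, start_st] at h5
      exact h5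
    · apply Subtype.ext
      rw [val_eq, hyv, hηx]
      show _ = η
      have h6 : (M.v u) * sec H x ∈ H := by
        have h7 : ((M.v u * sec H x : G) : G ⧸ H) = ((1 : G) : G ⧸ H) := by
          have h8 : ((M.v u * sec H x : G) : G ⧸ H) = (M.v u) • ((sec H x : G) : G ⧸ H) := rfl
          rw [h8, sec_mk, hx, smul_inv_smul]
        have h9 := QuotientGroup.eq.mp h7.symm
        simpa using h9
      have h10 := hc _ h6
      have h11 : (sec H x)⁻¹ * ((M.v u)⁻¹ * η * M.v u) * sec H x =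
          (M.v u * sec H x)⁻¹ * (η * (M.v u * sec H x)) := by group
      rw [h11, ← h10, inv_mul_cancel_left]

end Pool.Agent.AutSol
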