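import Pool.Agent.AutSol.Defs

/-! # Heredity of the Folner condition: subgroups and quotients -/

set_option autoImplicit false

namespace Pool.Agent.AutSol

open scoped Pointwise Classical

theorem Folner.finset {G : Type} [Group G] (h : Folner G) (K : Finset G) (ε : ℝ) (hε : 0 < ε) :
    ∃ F : Finset G, F.Nonempty ∧ ((F * K).card : ℝ) ≤ (1 + ε) * F.card := by
  obtain ⟨F, hF, hne, hle⟩ := h (K : Set G) K.finite_toSet ε hε
  refine ⟨hF.toFinset, by simpa using hne, ?_⟩
  have h1 : Set.image2 (· * ·) F (K : Set G) = ((hF.toFinset * K : Finset G) : Set G) := by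
    rw [Finset.coe_mul, Set.Finite.coe_toFinset]; rfl
  rw [h1, Set.ncard_coe_finset, Set.ncard_eq_toFinset_card F hF] at hle
  exact hle

theorem folner_of_finset {G : Type} [Group G]
    (h : ∀ (K : Finset G) (ε : ℝ), 0 < ε →
      ∃ F : Finset G, F.Nonempty ∧ ((F * K).card : ℝ) ≤ (1 + ε) * F.card) : Folner G := by
  intro K hK ε hε
  obtain ⟨F, hne, hle⟩ := h hK.toFinset ε hε
  refine ⟨F, F.finite_toSet, hne, ?_⟩
  have h1 : Set.image2 (· * ·) (F : Set G) K = ((F * hK.toFinset : Finset G) : Set G) := by
    rw [Finset.coe_mul, Set.Finite.coe_toFinset]; rfl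
  rw [h1, Set.ncard_coe_finset, Set.ncard_coe_finset]
  exact hle

/-- Groups embedded in Folner groups are Folner. -/
theorem Folner.of_injective {H G : Type} [Group H] [Group G] (h : Folner G) (ι : H →* G)
    (hι : Function.Injective ι) : Folner H := by
  apply folner_of_finset
  intro K ε hε
  by_contra hcon
  push Not at hcon
  set K' : Finset G := K.image ι with hK'
  obtain ⟨F, hne, hle⟩ := h.finset K' ε hε
  set T : Finset (G ⧸ ι.range) := F.image (QuotientGroup.mk : G → G ⧸ ι.range) with hT
  have hmkK : ∀ x : G, ∀ k ∈ K',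
      (QuotientGroup.mk (x * k) : G ⧸ ι.range) = QuotientGroup.mk x := by
    intro x k hk
    obtain ⟨k', _, rfl⟩ := Finset.mem_image.1 hk
    rw [QuotientGroup.eq]
    exact ⟨k'⁻¹, by rw [map_inv]; group⟩
  have e1 : (F.card : ℝ) =
      ∑ q ∈ T, ((F.filter (fun x => (QuotientGroup.mk x : G ⧸ ι.range) = q)).card : ℝ) := by
    rw [Finset.card_eq_sum_card_fiberwise (f := (QuotientGroup.mk : G → G ⧸ ι.range)) (t := T)
      (fun x hx => Finset.mem_image_of_mem _ hx)]
    push_cast
    rfl
  have e2 : ((F * K').card : ℝ) =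
      ∑ q ∈ T, (((F * K').filter (fun x => (QuotientGroup.mk x : G ⧸ ι.range) = q)).card : ℝ) := by
    rw [Finset.card_eq_sum_card_fiberwise (f := (QuotientGroup.mk : G → G ⧸ ι.range)) (t := T) ?_]
    · push_cast
      rfl
    · intro x hx
      obtain ⟨y, hy, k, hk, rfl⟩ := Finset.mem_mul.1 hx
      rw [hmkK y k hk]
      exact Finset.mem_image_of_mem _ hy
  have e3 : ∀ q ∈ T,
      (1 + ε) * ((F.filter (fun x => (QuotientGroup.mk x : G ⧸ ι.range) = q)).card : ℝ) <
      (((F * K').filter (fun x => (QuotientGroup.mk x : G ⧸ ι.range) = q)).card : ℝ) := by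
    intro q hq
    obtain ⟨x0, hx0, hx0q⟩ := Finset.mem_image.1 hq
    -- the corresponding subset of `H`
    set Fq := F.filter (fun x => (QuotientGroup.mk x : G ⧸ ι.range) = q) with hFq
    have hinj : Function.Injective (fun y : H => x0 * ι y) := fun y z hyz =>
      hι (mul_left_cancel hyz)
    set F' : Finset H := Fq.preimage (fun y : H => x0 * ι y) hinj.injOn with hF'
    have himg : Fq = F'.image (fun y : H => x0 * ι y) := by
      ext x
      constructor
      · intro hx
        have hx2 := (Finset.mem_filter.1 hx).2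
        have h1 : x0⁻¹ * x ∈ ι.range := by rw [← QuotientGroup.eq, hx2, hx0q]
        obtain ⟨y, hy⟩ := h1
        have h2 : x0 * ι y = x := by rw [hy]; group
        refine Finset.mem_image.2 ⟨y, ?_, h2⟩
        rw [hF', Finset.mem_preimage, h2]
        exact hx
      · intro hx
        obtain ⟨y, hy, rfl⟩ := Finset.mem_image.1 hx
        rw [hF', Finset.mem_preimage] at hy
        exact hy
    have hcard1 : F'.card = Fq.card := by
      rw [himg, Finset.card_image_of_injective _ hinj]
    have hF'ne : F'.Nonempty := by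
      rw [← Finset.card_pos, hcard1, Finset.card_pos]
      exact ⟨x0, by rw [hFq, Finset.mem_filter]; exact ⟨hx0, hx0q⟩⟩
    have hlt := hcon F' hF'ne
    rw [hcard1] at hlt
    refine lt_of_lt_of_le hlt ?_
    have hcard2 : (F' * K).card ≤
        ((F * K').filter (fun x => (QuotientGroup.mk x : G ⧸ ι.range) = q)).card := by
      refine Finset.card_le_card_of_injOn (fun y : H => x0 * ι y) ?_ hinj.injOn
      intro z hz
      obtain ⟨y, hy, k, hk, rfl⟩ := Finset.mem_mul.1 hz
      rw [hF', Finset.mem_preimage, hFq, Finset.mem_filter] at hy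
      have hk' : ι k ∈ K' := Finset.mem_image_of_mem _ hk
      rw [Finset.mem_coe, Finset.mem_filter]
      have h2 : x0 * ι (y * k) = x0 * ι y * ι k := by rw [map_mul]; group
      simp only [h2]
      exact ⟨Finset.mul_mem_mul hy.1 hk', by rw [hmkK _ _ hk', hy.2]⟩
    exact_mod_cast hcard2
  have hTne : T.Nonempty := hne.image _
  have h4 := Finset.sum_lt_sum_of_nonempty hTne e3
  rw [← Finset.mul_sum, ← e1, ← e2] at h4
  exact absurd hle (not_le.2 h4)

/-- Subgroups of Folner groups are Folner. -/
theorem Folner.subgroup {G : Type} [Group G] (h : Folner G) (H : Subgroup G) : Folner H :=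
  h.of_injective H.subtype H.subtype_injective

/-- Layer-cake formula for natural valued functions. -/
theorem sum_layers {Q : Type} (T : Finset Q) (f : Q → ℕ) (J : ℕ) (hJ : ∀ q ∈ T, f q ≤ J) :
    ∑ q ∈ T, f q = ∑ j ∈ Finset.range J, (T.filter (fun q => j < f q)).card := by
  simp only [Finset.card_filter]
  rw [Finset.sum_comm]
  refine Finset.sum_congr rfl (fun q hq => ?_)
  rw [← Finset.card_filter]
  have : (Finset.range J).filter (fun j => j < f q) = Finset.range (f q) := by
    ext j
    simp only [Finset.mem_filter, Finset.mem_range]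
    have := hJ q hq
    omega
  rw [this, Finset.card_range]

/-- Quotients of Folner groups are Folner. -/
theorem Folner.of_surjective {G Q : Type} [Group G] [Group Q] (h : Folner G) (φ : G →* Q)
    (hφ : Function.Surjective φ) : Folner Q := by
  apply folner_of_finset
  intro K' ε hε
  by_contra hcon
  push Not at hcon
  set K : Finset G := K'.image (Function.surjInv hφ) with hK
  obtain ⟨F, hne, hle⟩ := h.finset K ε hε
  set f : Q → ℕ := fun q => (F.filter (fun x => φ x = q)).card with hf
  set g : Q → ℕ := fun q => ((F * K).filter (fun x => φ x = q)).card with hg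
  set T : Finset Q := F.image φ with hT
  set T' : Finset Q := (F * K).image φ with hT'
  set J := F.card + (F * K).card with hJ
  have e1 : F.card = ∑ q ∈ T, f q :=
    Finset.card_eq_sum_card_fiberwise (f := φ) (fun x hx => Finset.mem_image_of_mem _ hx)
  have e2 : (F * K).card = ∑ q ∈ T', g q :=
    Finset.card_eq_sum_card_fiberwise (f := φ) (fun x hx => Finset.mem_image_of_mem _ hx)
  rw [sum_layers T f J (fun q _ => (Finset.card_le_card (Finset.filter_subset _ _)).trans
    (by omega))] at e1
  rw [sum_layers T' g J (fun q _ => (Finset.card_le_card (Finset.filter_subset _ _)).trans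
    (by omega))] at e2
  -- comparison of the layers
  have hfg : ∀ q, ∀ k ∈ K', f q ≤ g (q * k) := by
    intro q k hk
    refine Finset.card_le_card_of_injOn (fun x => x * Function.surjInv hφ k) ?_ ?_
    · intro x hx
      rw [Finset.mem_coe, Finset.mem_filter] at hx
      rw [Finset.mem_coe, Finset.mem_filter]
      refine ⟨Finset.mul_mem_mul hx.1 (Finset.mem_image_of_mem _ hk), ?_⟩
      rw [map_mul, hx.2, Function.surjInv_eq hφ]
    · intro x _ y _ hxy
      exact mul_right_cancel hxy
  have hlay : ∀ j, T.filter (fun q => j < f q) * K' ⊆ T'.filter (fun q => j < g q) := by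
    intro j z hz
    obtain ⟨q, hq, k, hk, rfl⟩ := Finset.mem_mul.1 hz
    rw [Finset.mem_filter] at hq
    rw [Finset.mem_filter]
    refine ⟨?_, lt_of_lt_of_le hq.2 (hfg q k hk)⟩
    obtain ⟨x, hx, rfl⟩ := Finset.mem_image.1 hq.1
    refine Finset.mem_image.2 ⟨x * Function.surjInv hφ k,
      Finset.mul_mem_mul hx (Finset.mem_image_of_mem _ hk), ?_⟩
    rw [map_mul, Function.surjInv_eq hφ]
  have hle1 : ∀ j ∈ Finset.range J, (1 + ε) * ((T.filter (fun q => j < f q)).card : ℝ) ≤
      ((T'.filter (fun q => j < g q)).card : ℝ) := by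
    intro j _
    have h1 : ((T.filter (fun q => j < f q) * K').card : ℝ) ≤
        ((T'.filter (fun q => j < g q)).card : ℝ) := by
      exact_mod_cast Finset.card_le_card (hlay j)
    refine le_trans ?_ h1
    by_cases hempty : (T.filter (fun q => j < f q)).Nonempty
    · exact (hcon _ hempty).le
    · rw [Finset.not_nonempty_iff_eq_empty.1 hempty]; simp
  have hlt1 : ∃ j ∈ Finset.range J, (1 + ε) * ((T.filter (fun q => j < f q)).card : ℝ) <
      ((T'.filter (fun q => j < g q)).card : ℝ) := by
    obtain ⟨x0, hx0⟩ := hne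
    have hf0 : 0 < f (φ x0) := Finset.card_pos.2 ⟨x0, by
      rw [Finset.mem_filter]; exact ⟨hx0, rfl⟩⟩
    refine ⟨0, Finset.mem_range.2 ?_, ?_⟩
    · have : 0 < F.card := Finset.card_pos.2 ⟨x0, hx0⟩
      omega
    · have hne0 : (T.filter (fun q => 0 < f q)).Nonempty :=
        ⟨φ x0, Finset.mem_filter.2 ⟨Finset.mem_image_of_mem _ hx0, hf0⟩⟩
      refine lt_of_lt_of_le (hcon _ hne0) ?_
      exact_mod_cast Finset.card_le_card (hlay 0)
  have h4 := Finset.sum_lt_sum hle1 hlt1
  rw [← Finset.mul_sum] at h4
  have e1' : (F.card : ℝ) = ∑ j ∈ Finset.range J, ((T.filter (fun q => j < f q)).card : ℝ) := by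
    exact_mod_cast e1
  have e2' : ((F * K).card : ℝ) =
      ∑ j ∈ Finset.range J, ((T'.filter (fun q => j < g q)).card : ℝ) := by
    exact_mod_cast e2
  rw [← e1', ← e2'] at h4
  exact absurd hle (not_le.2 h4)

end Pool.Agent.AutSol
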