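import Pool.Agent.AutSol.Shortlex

/-! # B2 (module 5): from the frozen hypothesis to `Good` -/

set_option autoImplicit false

namespace Pool.Agent.AutSol

/-- Extension of the fellow traveller property from generators (as a monoid) to finite sets. For a
single `x`, by `Submonoid.closure_induction` (for a product `x y` insert an accepted word for
`v w * x`, which exists by `Onto`); then take the union over `F`. -/
theorem ftp_of_genFTP {G : Type} [Group G] (M : Mach G) (B : Set G)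
    (hB : Submonoid.closure B = ⊤) (hO : M.Onto) (h : M.GenFTP B) : M.FTP := by
  obtain ⟨E0, hE0, h0⟩ := h
  have hx : ∀ x : G, ∃ E : Set G, E.Finite ∧ ∀ w w', M.Acc w → M.Acc w' →
      M.v w * x = M.v w' → ∀ t, (M.v (w.take t))⁻¹ * M.v (w'.take t) ∈ E := by
    intro x
    have hxB : x ∈ Submonoid.closure B := by rw [hB]; trivial
    induction hxB using Submonoid.closure_induction with
    | mem x hx => exact ⟨E0, hE0, fun w w' hw hw' hv => h0 w w' hw hw' x (Or.inr hx) hv⟩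
    | one => exact ⟨E0, hE0, fun w w' hw hw' hv => h0 w w' hw hw' 1 (Or.inl rfl) hv⟩
    | mul x y hx hy ihx ihy =>
      obtain ⟨E1, hE1, h1⟩ := ihx
      obtain ⟨E2, hE2, h2⟩ := ihy
      refine ⟨Set.image2 (· * ·) E1 E2, hE1.image2 _ hE2, ?_⟩
      intro w w' hw hw' hv t
      obtain ⟨w'', hw'', hv''⟩ := hO (M.v w * x)
      refine ⟨_, h1 w w'' hw hw'' hv''.symm t, _, h2 w'' w' hw'' hw' (by
        rw [hv'', ← hv, mul_assoc]) t, ?_⟩
      change (M.v (w.take t))⁻¹ * M.v (w''.take t) * ((M.v (w''.take t))⁻¹ * M.v (w'.take t)) = _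
      group
  choose E hE hE' using hx
  intro F hF
  refine ⟨⋃ x ∈ F, E x, hF.biUnion (fun x _ => hE x), ?_⟩
  intro w w' hw hw' hv t
  refine Set.mem_biUnion hv (hE' _ w w' hw hw' ?_ t)
  group

/-- Existence of a rank function: the number of states `t` reachable from `s` that have a nonempty
loop. -/
theorem exists_rank {G : Type} (M : Mach G) : ∃ ρ : M.S → ℕ, M.Rank ρ := by
  refine ⟨fun s => {t : M.S | M.Cyc t ∧ ∃ w, M.st s w = t}.ncard, ?_, ?_, ?_⟩
  · intro s w _ _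
    refine Set.ncard_le_ncard ?_ (Set.toFinite _)
    rintro t ⟨ht, w', hw'⟩
    exact ⟨ht, w ++ w', by rw [Mach.st_append, hw']⟩
  · intro s w _ _ hcyc hρ
    have hsub : {t : M.S | M.Cyc t ∧ ∃ w', M.st (M.st s w) w' = t} ⊆
        {t : M.S | M.Cyc t ∧ ∃ w', M.st s w' = t} := by
      rintro t ⟨ht, w', hw'⟩
      exact ⟨ht, w ++ w', by rw [Mach.st_append, hw']⟩
    have heq := Set.eq_of_subset_of_ncard_le hsub (le_of_eq hρ.symm) (Set.toFinite _)
    have hs : s ∈ {t : M.S | M.Cyc t ∧ ∃ w', M.st s w' = t} := ⟨hcyc, [], rfl⟩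
    rw [← heq] at hs
    exact hs.2
  · intro s _ hcyc
    exact (Set.ncard_pos (Set.toFinite _)).2 ⟨s, hcyc, [], rfl⟩

theorem good_of_automatic (G : Type) [Group G] (A : Type) [Fintype A] (μ : A → G)
    (L : Language A) (hreg : ∃ (σ : Type) (_ : Fintype σ) (M : DFA A σ), M.accepts = L)
    (honto : ∀ g : G, ∃ w ∈ L, (w.map μ).prod = g)
    (hftp : ∃ S : Finset G, ∀ u ∈ L, ∀ v ∈ L, ∀ x : G, (x = 1 ∨ ∃ a, μ a = x) →
      (u.map μ).prod * x = (v.map μ).prod →
      ∀ t : ℕ, (((u.take t).map μ).prod)⁻¹ * ((v.take t).map μ).prod ∈ S) :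
    ∃ (M : Mach G) (r : ℕ), M.Good r := by
  obtain ⟨M, hO, hB, hG⟩ := exists_unique_mach G A μ L hreg honto hftp
  obtain ⟨ρ, hρ⟩ := exists_rank M
  refine ⟨M, ρ M.start, hO, ⟨1, hB⟩, ftp_of_genFTP M (Set.range μ) ?_ hO hG, ρ, hρ, le_rfl⟩
  rw [eq_top_iff]
  intro g _
  obtain ⟨w, _, rfl⟩ := honto g
  exact Submonoid.list_prod_mem _ fun x hx => by
    obtain ⟨a, _, rfl⟩ := List.mem_map.1 hx
    exact Submonoid.subset_closure ⟨a, rfl⟩

end Pool.Agent.AutSol
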