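import Pool.Agent.AutSol.Pump

/-! # C (module 15): commutators equal to a power of `η` are trivial; virtually central extensions -/

set_option autoImplicit false

namespace Pool.Agent.AutSol

theorem len_le_of_list {G : Type} [Group G] (M : Mach G) (hO : M.Onto) {F : Set G} {Δ : ℕ}
    (hΔ : ∀ p p', M.Acc p → M.Acc p' → (M.v p)⁻¹ * M.v p' ∈ F →
      p.length ≤ p'.length + Δ ∧ p'.length ≤ p.length + Δ) (ys : List G) :
    (∀ y ∈ ys, y ∈ F) → ∀ p p', M.Acc p → M.Acc p' → M.v p' = M.v p * ys.prod → ys ≠ [] →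
      p'.length ≤ p.length + ys.length * Δ := by
  induction ys with
  | nil => intro _ _ _ _ _ _ h; exact absurd rfl h
  | cons y ys ih =>
    intro hy p p' hp hp' hv _
    by_cases hys : ys = []
    · subst hys
      have h1 := (hΔ p p' hp hp' (by
        rw [hv]; simp only [List.prod_cons, List.prod_nil, mul_one, inv_mul_cancel_left]
        exact hy y (by simp))).2
      simpa using h1
    · obtain ⟨p1, hp1, hv1⟩ := hO (M.v p * y)
      have h1 := (hΔ p p1 hp hp1 (by
        rw [hv1, inv_mul_cancel_left]; exact hy y (by simp))).2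
      have h2 := ih (fun a ha => hy a (List.mem_cons_of_mem _ ha)) p1 p' hp1 hp'
        (by rw [hv, hv1, List.prod_cons, mul_assoc]) hys
      rw [List.length_cons, Nat.succ_mul]
      omega

theorem comm_pow {G : Type} [Group G] {g h : G} {e : G} (he : ∀ x : G, e * x = x * e)
    (hgh : g * h * g⁻¹ * h⁻¹ = e) (n : ℕ) :
    g ^ n * h ^ n * (g⁻¹) ^ n * (h⁻¹) ^ n = e ^ (n * n) := by
  have h1 : g * h * g⁻¹ = e * h := by
    rw [← hgh]; group
  have h2 : ∀ m : ℕ, g * h ^ m * g⁻¹ = e ^ m * h ^ m := by
    intro m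
    induction m with
    | zero => simp
    | succ m ih =>
      have hc : Commute e h := he h
      calc g * h ^ (m + 1) * g⁻¹ = (g * h ^ m * g⁻¹) * (g * h * g⁻¹) := by rw [pow_succ]; group
        _ = (e ^ m * h ^ m) * (e * h) := by rw [ih, h1]
        _ = (e * h) ^ (m + 1) := by rw [pow_succ, hc.mul_pow]
        _ = e ^ (m + 1) * h ^ (m + 1) := hc.mul_pow _
  have h3 : ∀ k : ℕ, g ^ k * h ^ n * (g⁻¹) ^ k = e ^ (n * k) * h ^ n := by
    intro k
    induction k with
    | zero => simp
    | succ k ih =>
      have hce : ∀ x : G, e ^ (n * k) * x = x * e ^ (n * k) := fun x =>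
        ((show Commute e x from he x).pow_left _).eq
      calc g ^ (k + 1) * h ^ n * (g⁻¹) ^ (k + 1) = g * (g ^ k * h ^ n * (g⁻¹) ^ k) * g⁻¹ := by
            rw [pow_succ' g, pow_succ (g⁻¹)]; group
        _ = g * (e ^ (n * k) * h ^ n) * g⁻¹ := by rw [ih]
        _ = e ^ (n * k) * (g * h ^ n * g⁻¹) := by
            rw [← mul_assoc g, ← hce g]; group
        _ = e ^ (n * k) * (e ^ n * h ^ n) := by rw [h2]
        _ = e ^ (n * (k + 1)) * h ^ n := by rw [← mul_assoc, ← pow_add]; ring_nf
  rw [h3 n, mul_assoc, inv_pow, mul_inv_cancel, mul_one]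

/-- If `η` is central of infinite order, is the value of a loop at a useful state, and
`g h g⁻¹ h⁻¹ = η^c`, then `c = 0`.

Proof: exchanging `g` and `h` we may assume `c ≥ 0`; suppose `c ≥ 1`. Then
`g^n h^n g^-n h^-n = η^(c n²)`. `len_diff` with `F = {g, h, g⁻¹, h⁻¹}`: there is `Δ` such that accepted
words whose values differ by one of these have lengths differing by at most `Δ`; so an accepted word
with value `η^(c n²)` has length `≤ C + 4 n Δ` (`Onto` gives the intermediate words). On the other
hand, `u z^i q` (with `i = c n²`) is accepted, of length `≥ c n²`, its value is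
`η^(c n²) v(u) val(q)`, so by `len_diff` for `F = {x, x⁻¹}`, `x = v(u) val(q)`, accepted words with
value `η^(c n²)` have length `≥ c n² - Δ'`. Contradiction for `n` large. -/
theorem comm_trivial {G : Type} [Group G] (M : Mach G) {D : ℕ} (hO : M.Onto) (hB : M.Bdd D)
    (hF : M.FTP) (η : G) (hc : ∀ g : G, η * g = g * η) {s : M.S} (hs : M.Useful s)
    {z : List M.A} (hz : z ≠ []) (hl : M.st s z = s) (hv : M.val s z = η) (g h : G) (c : ℤ)
    (hgh : g * h * g⁻¹ * h⁻¹ = η ^ c) : c = 0 := by
  -- it is enough to exclude positive exponents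
  have key : ∀ (g h : G) (c : ℕ), g * h * g⁻¹ * h⁻¹ = η ^ c → c = 0 := by
    intro g h c hgh
    by_contra hc0
    have hc1 : 1 ≤ c := Nat.one_le_iff_ne_zero.2 hc0
    obtain ⟨Δ, hΔ⟩ := M.len_diff hB hF ({g, h, g⁻¹, h⁻¹} : Set G) (Set.toFinite _)
    obtain ⟨⟨u, hu⟩, q, hq⟩ := hs
    obtain ⟨Δ', hΔ'⟩ := M.len_diff hB hF ({M.v u * M.val s q} : Set G) (Set.finite_singleton _)
    obtain ⟨p0, hp0, hv0⟩ := hO 1
    set n := p0.length + 4 * Δ + Δ' + 1 with hn
    have hcomm := comm_pow (e := η ^ c)
      (fun x => ((show Commute η x from hc x).pow_left _).eq) hgh n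
    set i := c * (n * n) with hi
    have hcomm' : g ^ n * h ^ n * (g⁻¹) ^ n * (h⁻¹) ^ n = η ^ i := by
      rw [hcomm, ← pow_mul]
    obtain ⟨p, hp, hvp⟩ := hO (η ^ i)
    -- upper bound
    have hup : p.length ≤ p0.length + (4 * n) * Δ := by
      have h1 := len_le_of_list M hO hΔ
        (List.replicate n g ++ List.replicate n h ++ List.replicate n g⁻¹ ++
          List.replicate n h⁻¹) ?_ p0 p hp0 hp ?_ ?_
      · have h2 : (List.replicate n g ++ List.replicate n h ++ List.replicate n g⁻¹ ++
          List.replicate n h⁻¹).length = 4 * n := by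
          simp only [List.length_append, List.length_replicate]; ring
        rw [h2] at h1
        exact h1
      · intro y hy
        simp only [List.mem_append, List.mem_replicate] at hy
        simp only [Set.mem_insert_iff, Set.mem_singleton_iff]
        rcases hy with ((hy | hy) | hy) | hy
        · exact Or.inl hy.2
        · exact Or.inr (Or.inl hy.2)
        · exact Or.inr (Or.inr (Or.inl hy.2))
        · exact Or.inr (Or.inr (Or.inr hy.2))
      · simp only [List.prod_append, List.prod_replicate]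
        rw [hvp, hv0, one_mul, hcomm']
      · have : n ≠ 0 := by omega
        intro hnil
        have := congrArg List.length hnil
        simp only [List.length_append, List.length_replicate, List.length_nil] at this
        omega
    -- lower bound
    have hacc : M.Acc (u ++ rep i z ++ q) := by
      unfold Mach.Acc
      rw [M.st_append, M.st_append, hu, M.st_rep hl]
      exact hq
    have hval : M.v (u ++ rep i z ++ q) = M.v u * η ^ i * M.val s q := by
      rw [M.v_append, M.v_append, M.st_append, hu, M.st_rep hl, M.val_rep hl, hv]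
    have hlow : i ≤ p.length + Δ' := by
      have h1 := (hΔ' p (u ++ rep i z ++ q) hp hacc (by
        rw [hvp, hval, Set.mem_singleton_iff]
        have h2 : M.v u * η ^ i = η ^ i * M.v u :=
          ((show Commute η (M.v u) from hc _).pow_left i).symm.eq
        rw [h2]; group)).2
      have h3 : 1 ≤ z.length := by
        rcases Nat.eq_zero_or_pos z.length with h4 | h4
        · exact absurd (List.length_eq_zero_iff.1 h4) hz
        · exact h4
      have h4 : i ≤ i * z.length := Nat.le_mul_of_pos_right _ h3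
      simp only [List.length_append, length_rep] at h1
      omega
    have h5 : n * n ≤ i := by rw [hi]; exact Nat.le_mul_of_pos_left _ hc1
    have h6 : n * n ≤ p0.length + 4 * n * Δ + Δ' := by omega
    have h7 : n * n = n * p0.length + 4 * n * Δ + n * Δ' + n := by
      nth_rw 2 [hn]; ring
    have h8 : p0.length ≤ n * p0.length := Nat.le_mul_of_pos_left _ (by omega)
    have h9 : Δ' ≤ n * Δ' := Nat.le_mul_of_pos_left _ (by omega)
    omega
  rcases le_total 0 c with h0 | h0
  · obtain ⟨m, rfl⟩ := Int.eq_ofNat_of_zero_le h0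
    have := key g h m (by rw [hgh]; exact zpow_natCast η m)
    rw [this]; rfl
  · obtain ⟨m, hm⟩ := Int.eq_ofNat_of_zero_le (neg_nonneg.2 h0)
    have := key h g m (by
      have h1 : h * g * h⁻¹ * g⁻¹ = (g * h * g⁻¹ * h⁻¹)⁻¹ := by group
      rw [h1, hgh, ← zpow_neg, hm]; exact zpow_natCast η m)
    omega

/-- Lifting virtual commutativity from the quotient by `⟨η⟩`. -/
theorem virt_abelian_of_quot {G : Type} [Group G] (M : Mach G) {D : ℕ} (hO : M.Onto)
    (hB : M.Bdd D) (hF : M.FTP) (η : G) (hc : ∀ g : G, η * g = g * η)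
    {s : M.S} (hs : M.Useful s)
    {z : List M.A} (hz : z ≠ []) (hl : M.st s z = s) (hv : M.val s z = η)
    [hN : (Subgroup.zpowers η).Normal]
    (h : ∃ H : Subgroup (G ⧸ Subgroup.zpowers η), H.index ≠ 0 ∧
      ∀ a ∈ H, ∀ b ∈ H, a * b = b * a) :
    ∃ H : Subgroup G, H.index ≠ 0 ∧ ∀ a ∈ H, ∀ b ∈ H, a * b = b * a := by
  obtain ⟨H, hH, hab⟩ := h
  refine ⟨H.comap (QuotientGroup.mk' _), ?_, ?_⟩
  · rwa [Subgroup.index_comap_of_surjective H (QuotientGroup.mk'_surjective _)]
  · intro a ha b hb
    have h1 := hab _ ha _ hb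
    rw [← map_mul, ← map_mul] at h1
    have h2 : a * b * a⁻¹ * b⁻¹ ∈ Subgroup.zpowers η := by
      have h3 : (a * b * a⁻¹ * b⁻¹) = (a * b) * (b * a)⁻¹ := by group
      rw [h3, ← QuotientGroup.eq_one_iff]
      change QuotientGroup.mk' (Subgroup.zpowers η) (a * b * (b * a)⁻¹) = 1
      rw [map_mul, map_inv, h1, mul_inv_cancel]
    obtain ⟨c, hc'⟩ := Subgroup.mem_zpowers_iff.1 h2
    have h4 := comm_trivial M hO hB hF η hc hs hz hl hv a b c hc'.symm
    rw [h4, zpow_zero] at hc'
    have h5 : a * b * a⁻¹ * b⁻¹ = 1 := hc'.symm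
    calc a * b = (a * b * a⁻¹ * b⁻¹) * (b * a) := by group
      _ = b * a := by rw [h5, one_mul]

end Pool.Agent.AutSol
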