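import Pool.Agent.AutSol.FolnerSol
import Pool.Agent.AutSol.FolnerHer
import Pool.Agent.AutSol.Reduce
import Pool.Agent.AutSol.Eta
import Pool.Agent.AutSol.FinIndex
import Pool.Agent.AutSol.BarOnto
import Pool.Agent.AutSol.BarBdd
import Pool.Agent.AutSol.BarFTP
import Pool.Agent.AutSol.BarRank
import Pool.Agent.AutSol.Undist

/-! # Assembly (module 16) -/

set_option autoImplicit false

namespace Pool.Agent.AutSol

/-- The quotient by a central element with a loop has a good machine of smaller rank. -/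
theorem good_quot {G : Type} [Group G] (M : Mach G) (r : ℕ) (hM : M.Good (r + 1)) (ζ : G)
    (hc : ∀ g : G, ζ * g = g * ζ) {s : M.S} (hs : M.Useful s) {z : List M.A} (hz : z ≠ [])
    (hl : M.st s z = s) (hv : M.val s z = ζ) [hN : (Subgroup.zpowers ζ).Normal] :
    ∃ M' : Mach (G ⧸ Subgroup.zpowers ζ), M'.Good r := by
  obtain ⟨D, hB⟩ := hM.bdd
  have hC : M.Ctx ζ D :=
    ⟨hc, fun n hn => by rw [← hv]; exact M.loop_infinite hB hs hz hl n hn, hB⟩
  obtain ⟨N, Z, n, hL⟩ := Mach.exists_loops hC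
  have hex : ∃ s, M.Sp ζ s := ⟨s, hs, z, hz, hl, 1, le_rfl, by rw [hv, pow_one]⟩
  obtain ⟨ρ, hρ, hρr⟩ := hM.rank
  have hsurj := QuotientGroup.mk'_surjective (Subgroup.zpowers ζ)
  have hζ : QuotientGroup.mk' (Subgroup.zpowers ζ) ζ = 1 :=
    (QuotientGroup.eq_one_iff ζ).2 (Subgroup.mem_zpowers ζ)
  have hker : ∀ g : G, QuotientGroup.mk' (Subgroup.zpowers ζ) g = 1 → ∃ k : ℤ, g = ζ ^ k := by
    intro g hg
    obtain ⟨k, hk⟩ := Subgroup.mem_zpowers_iff.1 ((QuotientGroup.eq_one_iff g).1 hg)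
    exact ⟨k, hk.symm⟩
  obtain ⟨ρ', hρ', hρr'⟩ := Mach.bar_rank hC hL (QuotientGroup.mk' (Subgroup.zpowers ζ)) ρ hρ
  exact ⟨M.bar (M.SpSet ζ) N (QuotientGroup.mk' (Subgroup.zpowers ζ)),
    Mach.bar_onto hC hM.onto hM.ftp hex hL _ hsurj hζ,
    Mach.bar_bdd hC hL _ hsurj hker,
    Mach.bar_ftp hC hM.ftp hL _ hsurj hker hζ, ρ', hρ', by omega⟩

theorem virt_abelian_of_finIndex {G : Type} [Group G] (H : Subgroup G) (hH : H.index ≠ 0)
    (h : ∃ K : Subgroup H, K.index ≠ 0 ∧ ∀ a ∈ K, ∀ b ∈ K, a * b = b * a) :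
    ∃ K : Subgroup G, K.index ≠ 0 ∧ ∀ a ∈ K, ∀ b ∈ K, a * b = b * a := by
  obtain ⟨K, hK, hab⟩ := h
  refine ⟨K.map H.subtype, ?_, ?_⟩
  · rw [Subgroup.index_map_subtype]
    exact mul_ne_zero hK hH
  · rintro _ ⟨a, ha, rfl⟩ _ ⟨b, hb, rfl⟩
    rw [← map_mul, hab a ha b hb, map_mul]

theorem virt_abelian_of_finite (G : Type) [Group G] [Finite G] :
    ∃ H : Subgroup G, H.index ≠ 0 ∧ ∀ a ∈ H, ∀ b ∈ H, a * b = b * a := by
  refine ⟨⊥, ?_, ?_⟩
  · rw [Subgroup.index_bot]; exact Nat.card_pos.ne'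
  · intro a ha b hb
    rw [Subgroup.mem_bot] at ha hb
    rw [ha, hb]

/-- A Folner group with a good machine is virtually abelian. -/
theorem main_folner (r : ℕ) : ∀ (G : Type) [Group G], Folner G →
    (∃ M : Mach G, M.Good r) →
    ∃ H : Subgroup G, H.index ≠ 0 ∧ ∀ a ∈ H, ∀ b ∈ H, a * b = b * a := by
  induction r with
  | zero =>
    intro G _ hfol ⟨M, hM⟩
    by_cases hfin : Finite G
    · exact virt_abelian_of_finite G
    · exfalso
      have : Infinite G := not_finite_iff_infinite.1 hfin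
      obtain ⟨D, hB⟩ := hM.bdd
      obtain ⟨η, u, y, q, hidx, hinf, hacc, hy, hl, hv, hin⟩ :=
        exists_eta M hfol hM.onto hB hM.ftp
      obtain ⟨ρ, hρ, h0⟩ := hM.rank
      have hu : M.Useful (M.st M.start u) :=
        M.useful_of_acc (w := y ++ q) (by simpa using hacc)
      have hst : M.Useful M.start :=
        M.useful_of_acc (u := []) (w := u ++ y ++ q) (by simpa using hacc)
      have h1 := hρ.pos _ hu ⟨y, hy, hl⟩
      have h2 := hρ.mono M.start u hst hu
      omega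
  | succ r ih =>
    intro G _ hfol ⟨M, hM⟩
    by_cases hfin : Finite G
    · exact virt_abelian_of_finite G
    · have : Infinite G := not_finite_iff_infinite.1 hfin
      obtain ⟨D, hB⟩ := hM.bdd
      obtain ⟨η, u, y, q, hidx, hinf, hacc, hy, hl, hv, hin⟩ :=
        exists_eta M hfol hM.onto hB hM.ftp
      have hη : η ∈ Subgroup.centralizer {η} :=
        Subgroup.mem_centralizer_singleton_iff.2 rfl
      have hcen : ∀ h ∈ Subgroup.centralizer {η}, h * η = η * h := fun h hh =>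
        Subgroup.mem_centralizer_singleton_iff.1 hh
      obtain ⟨M', hM', s, hs, z, hz, hl', hv'⟩ :=
        finIndex M (r + 1) hM (Subgroup.centralizer {η}) hidx η hη hcen u y q hacc hy hl hv hin
      have hcen' : ∀ g : Subgroup.centralizer {η},
          (⟨η, hη⟩ : Subgroup.centralizer {η}) * g = g * ⟨η, hη⟩ := fun g =>
        Subtype.ext (hcen g.1 g.2).symm
      have hN : (Subgroup.zpowers (⟨η, hη⟩ : Subgroup.centralizer {η})).Normal := by
        constructor
        intro n hn g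
        obtain ⟨k, rfl⟩ := Subgroup.mem_zpowers_iff.1 hn
        have hcomm : Commute g ((⟨η, hη⟩ : Subgroup.centralizer {η}) ^ k) :=
          (show Commute g _ from (hcen' g).symm).zpow_right k
        rw [hcomm.eq, mul_inv_cancel_right]
        exact hn
      obtain ⟨M'', hM''⟩ := good_quot M' r hM' ⟨η, hη⟩ hcen' hs hz hl' hv'
      obtain ⟨D', hB'⟩ := hM'.bdd
      have hfolH : Folner (Subgroup.centralizer {η}) := hfol.subgroup _
      have h3 := ih (Subgroup.centralizer {η} ⧸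
        Subgroup.zpowers (⟨η, hη⟩ : Subgroup.centralizer {η}))
        (hfolH.of_surjective (QuotientGroup.mk' _) (QuotientGroup.mk'_surjective _)) ⟨M'', hM''⟩
      have h4 := virt_abelian_of_quot M' hM'.onto hB' hM'.ftp ⟨η, hη⟩ hcen' hs hz hl' hv' h3
      exact virt_abelian_of_finIndex _ hidx h4

end Pool.Agent.AutSol
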