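import Pool.Agent.AutSol.Defs

/-! # A (module 3): soluble groups satisfy the Folner condition -/

set_option autoImplicit false

namespace Pool.Agent.AutSol

open Filter Topology Pointwise commutatorElement

theorem mem_pow_comm (G : Type) [CommGroup G] [DecidableEq G]
    (B : Finset G) (n : ℕ) (x : G) (hx : x ∈ B ^ n) :
    ∃ m : G → ℕ, (∀ b, m b ≤ n) ∧ x = ∏ b ∈ B, b ^ m b := by
  induction n generalizing x with
  | zero =>
    rw [pow_zero, Finset.mem_one] at hx
    exact ⟨fun _ => 0, fun _ => le_rfl, by simp [hx]⟩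
  | succ n ih =>
    rw [pow_succ, Finset.mem_mul] at hx
    obtain ⟨y, hy, b, hb, rfl⟩ := hx
    obtain ⟨m, hm, rfl⟩ := ih y hy
    refine ⟨fun c => m c + if c = b then 1 else 0, ?_, ?_⟩
    · intro c
      have := hm c
      simp only
      split_ifs <;> omega
    · simp only [pow_add]
      rw [Finset.prod_mul_distrib]
      congr 1
      rw [Finset.prod_eq_single b]
      · simp
      · intro c _ hc
        simp [hc]
      · intro h
        exact absurd hb h

/-- Polynomial growth of products of `n` elements in an abelian group. -/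
theorem card_pow_comm' (G : Type) [CommGroup G] [DecidableEq G]
    (B : Finset G) (n : ℕ) : (B ^ n).card ≤ (n + 1) ^ B.card := by
  have hsub : B ^ n ⊆ (Finset.univ : Finset (B → Fin (n + 1))).image
      (fun m => ∏ b : B, (b : G) ^ (m b : ℕ)) := by
    intro x hx
    obtain ⟨m, hm, rfl⟩ := mem_pow_comm G B n x hx
    rw [Finset.mem_image]
    refine ⟨fun b => ⟨m b, by have := hm b; omega⟩, Finset.mem_univ _, ?_⟩
    simp only
    exact Finset.prod_coe_sort B (fun b => b ^ m b)
  calc (B ^ n).card ≤ _ := Finset.card_le_card hsub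
    _ ≤ (Finset.univ : Finset (B → Fin (n + 1))).card := Finset.card_image_le
    _ = _ := by simp

theorem card_pow_comm (G : Type) [Group G] [DecidableEq G] (hc : ∀ a b : G, a * b = b * a)
    (B : Finset G) (n : ℕ) : (B ^ n).card ≤ (n + 1) ^ B.card := by
  let _ : CommGroup G := { (inferInstance : Group G) with mul_comm := hc }
  exact card_pow_comm' G B n

/-- Abelian groups satisfy the Folner condition. -/
theorem folner_of_comm (G : Type) [Group G] (hc : ∀ a b : G, a * b = b * a) : Folner G := by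
  classical
  intro K hK ε hε
  set B : Finset G := insert 1 hK.toFinset with hB
  have hB1 : (1 : G) ∈ B := Finset.mem_insert_self _ _
  have hexists : ∃ n : ℕ, ((B ^ (n + 1)).card : ℝ) ≤ (1 + ε) * (B ^ n).card := by
    by_contra hcon
    push Not at hcon
    have hlow : ∀ n : ℕ, (1 + ε) ^ n ≤ ((B ^ n).card : ℝ) := by
      intro n
      induction n with
      | zero => simp
      | succ n ih =>
        have := hcon n
        have h1 : (1 + ε) ^ (n + 1) ≤ (1 + ε) * ((B ^ n).card : ℝ) := by
          rw [pow_succ']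
          exact mul_le_mul_of_nonneg_left ih (by linarith)
        linarith
    have hup : ∀ n : ℕ, ((B ^ n).card : ℝ) ≤ ((n : ℝ) + 1) ^ B.card := by
      intro n
      have := card_pow_comm G hc B n
      exact_mod_cast this
    have ht := tendsto_pow_const_div_const_pow_of_one_lt B.card (r := 1 + ε) (by linarith)
    -- at `n + 1`: `(n+1)^k / (1+ε)^(n+1) → 0`, but it is `≥ 1/(1+ε)`
    have ht' := ht.comp (tendsto_add_atTop_nat 1)
    have hge : ∀ n : ℕ, (1 + ε)⁻¹ ≤ ((fun n : ℕ => (n : ℝ) ^ B.card / (1 + ε) ^ n) ∘ fun a => a + 1) n := by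
      intro n
      simp only [Function.comp]
      have hpos : (0 : ℝ) < (1 + ε) ^ (n + 1) := by positivity
      rw [inv_eq_one_div, div_le_div_iff₀ (by linarith) hpos]
      have h1 := (hlow n).trans (hup n)
      push_cast
      have h2 : (1 + ε) ^ (n + 1) = (1 + ε) ^ n * (1 + ε) := pow_succ _ _
      rw [one_mul, h2]
      exact mul_le_mul_of_nonneg_right h1 (by linarith)
    have := ge_of_tendsto' ht' hge
    have hinv : (0 : ℝ) < (1 + ε)⁻¹ := by positivity
    linarith
  obtain ⟨n, hn⟩ := hexists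
  refine ⟨((B ^ n : Finset G) : Set G), Finset.finite_toSet _, ?_, ?_⟩
  · refine ⟨1, ?_⟩
    have : (1 : G) ∈ B ^ n := by
      have := Finset.one_mem_pow (n := n) hB1
      exact this
    exact_mod_cast this
  · have hsub : Set.image2 (· * ·) ((B ^ n : Finset G) : Set G) K ⊆ ((B ^ (n + 1) : Finset G) : Set G) := by
      rintro _ ⟨a, ha, b, hb, rfl⟩
      have hb' : b ∈ B := by
        rw [hB, Finset.mem_insert]
        right
        simpa using hb
      have : a * b ∈ B ^ n * B := Finset.mul_mem_mul (by exact_mod_cast ha) hb'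
      rw [← pow_succ] at this
      exact_mod_cast this
    have h1 := Set.ncard_le_ncard hsub (Finset.finite_toSet _)
    rw [Set.ncard_coe_finset] at h1
    rw [Set.ncard_coe_finset]
    calc ((Set.image2 (· * ·) ((B ^ n : Finset G) : Set G) K).ncard : ℝ)
        ≤ ((B ^ (n + 1)).card : ℝ) := by exact_mod_cast h1
      _ ≤ _ := hn

/-- Extensions. -/
theorem folner_ext (G : Type) [Group G] (N : Subgroup G) [hN : N.Normal]
    (h1 : Folner N) (h2 : Folner (G ⧸ N)) : Folner G := by
  classical
  intro K hK ε hε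
  set δ : ℝ := min 1 (ε / 3) with hδ
  have hδ0 : 0 < δ := lt_min one_pos (by positivity)
  have hδ1 : δ ≤ 1 := min_le_left _ _
  have hδ3 : 3 * δ ≤ ε := by
    have := min_le_right (1 : ℝ) (ε / 3)
    linarith
  have hδε : (1 + δ) * (1 + δ) ≤ 1 + ε := by nlinarith
  set K' : Set (G ⧸ N) := (fun k : G => (k : G ⧸ N)) '' K with hK'
  obtain ⟨F', hF', hF'ne, hF'K⟩ := h2 K' (hK.image _) δ hδ0
  have hmem : ∀ (f : G ⧸ N) (k : G), f.out * k * (Quotient.out (f * (k : G ⧸ N)))⁻¹ ∈ N := by
    intro f k
    rw [← QuotientGroup.eq_one_iff]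
    rw [QuotientGroup.mk_mul, QuotientGroup.mk_mul, QuotientGroup.mk_inv,
      QuotientGroup.out_eq', QuotientGroup.out_eq']
    simp
  set nn : (G ⧸ N) → G → N := fun f k => ⟨_, hmem f k⟩ with hnn
  set B : Set N := Set.image2 nn F' K with hB
  have hBfin : B.Finite := hF'.image2 _ hK
  obtain ⟨F'', hF'', hF''ne, hF''B⟩ := h1 B hBfin δ hδ0
  set j : N → (G ⧸ N) → G := fun n f => (n : G) * f.out with hj
  have hjinj : ∀ (n n' : N) (f f' : G ⧸ N), j n f = j n' f' → n = n' ∧ f = f' := by
    intro n n' f f' h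
    have h3 : f = f' := by
      have := congrArg (fun g : G => (g : G ⧸ N)) h
      simp only [hj] at this
      rw [QuotientGroup.mk_mul, QuotientGroup.mk_mul, QuotientGroup.out_eq',
        QuotientGroup.out_eq', (QuotientGroup.eq_one_iff (n : G)).mpr n.2,
        (QuotientGroup.eq_one_iff (n' : G)).mpr n'.2] at this
      simpa using this
    subst h3
    refine ⟨?_, rfl⟩
    simp only [hj] at h
    exact Subtype.ext (mul_right_cancel h)
  have hcard : ∀ (S : Set N) (T : Set (G ⧸ N)),
      (Set.image2 j S T).ncard = S.ncard * T.ncard := by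
    intro S T
    have : Set.image2 j S T = (fun p : N × (G ⧸ N) => j p.1 p.2) '' (S ×ˢ T) := by
      rw [Set.image_prod]
    rw [this, Set.ncard_image_of_injective, Set.ncard_prod]
    rintro ⟨a, b⟩ ⟨c, d⟩ h
    obtain ⟨h3, h4⟩ := hjinj _ _ _ _ h
    exact Prod.ext h3 h4
  refine ⟨Set.image2 j F'' F', hF''.image2 _ hF', hF''ne.image2 hF'ne, ?_⟩
  have hsub : Set.image2 (· * ·) (Set.image2 j F'' F') K ⊆
      Set.image2 j (Set.image2 (· * ·) F'' B) (Set.image2 (· * ·) F' K') := by
    rintro _ ⟨_, ⟨n, hn, f, hf, rfl⟩, k, hk, rfl⟩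
    refine ⟨n * nn f k, ⟨n, hn, nn f k, ⟨f, hf, k, hk, rfl⟩, rfl⟩, f * (k : G ⧸ N),
      ⟨f, hf, _, ⟨k, hk, rfl⟩, rfl⟩, ?_⟩
    simp only [hj, hnn, Subgroup.coe_mul]
    group
  have hfin : (Set.image2 j (Set.image2 (· * ·) F'' B) (Set.image2 (· * ·) F' K')).Finite :=
    (hF''.image2 _ hBfin).image2 _ (hF'.image2 _ (hK.image _))
  have h3 := Set.ncard_le_ncard hsub hfin
  rw [hcard] at h3
  rw [hcard]
  have h4 : ((Set.image2 (· * ·) (Set.image2 j F'' F') K).ncard : ℝ) ≤
      ((Set.image2 (· * ·) F'' B).ncard : ℝ) * ((Set.image2 (· * ·) F' K').ncard : ℝ) := by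
    exact_mod_cast h3
  have h5 : ((Set.image2 (· * ·) F'' B).ncard : ℝ) * ((Set.image2 (· * ·) F' K').ncard : ℝ) ≤
      ((1 + δ) * F''.ncard) * ((1 + δ) * F'.ncard) :=
    mul_le_mul hF''B hF'K (by positivity) (by positivity)
  push_cast
  have h6 : (0 : ℝ) ≤ (F''.ncard : ℝ) * F'.ncard := by positivity
  calc ((Set.image2 (· * ·) (Set.image2 j F'' F') K).ncard : ℝ) ≤ _ := h4
    _ ≤ _ := h5
    _ = ((1 + δ) * (1 + δ)) * ((F''.ncard : ℝ) * F'.ncard) := by ring
    _ ≤ (1 + ε) * ((F''.ncard : ℝ) * F'.ncard) := mul_le_mul_of_nonneg_right hδε h6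

theorem folner_of_derivedSeries (n : ℕ) : ∀ (G : Type) [Group G], derivedSeries G n = ⊥ → Folner G := by
  induction n with
  | zero =>
    intro G _ h
    apply folner_of_comm
    intro a b
    have ha : a ∈ (⊥ : Subgroup G) := by rw [← h]; simp
    have hb : b ∈ (⊥ : Subgroup G) := by rw [← h]; simp
    rw [Subgroup.mem_bot] at ha hb
    rw [ha, hb]
  | succ n ih =>
    intro G _ h
    apply folner_ext G (derivedSeries G n)
    · apply folner_of_comm
      rintro ⟨a, ha⟩ ⟨b, hb⟩
      have : ⁅a, b⁆ ∈ (⊥ : Subgroup G) := by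
        rw [← h, derivedSeries_succ]
        exact Subgroup.commutator_mem_commutator ha hb
      rw [Subgroup.mem_bot, commutatorElement_eq_one_iff_mul_comm] at this
      exact Subtype.ext this
    · apply ih
      rw [← map_derivedSeries_eq (QuotientGroup.mk'_surjective (derivedSeries G n))]
      rw [Subgroup.map_eq_bot_iff, QuotientGroup.ker_mk']

/-- Soluble groups satisfy the Folner condition.

Abelian case: for a finite set `K` put `B = K ∪ {1}`; then `|B^n| ≤ (n+1)^|B|` (Pool: a product of
`n` elements of `B` is determined by the multiplicities), so `|B^(n+1)| ≤ (1+ε) |B^n|` for some `n`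
(otherwise exponential growth); take `F = B^n`.

Extension `1 → N → G → Q → 1` with `N`, `Q` Folner: given `K` and `ε`, choose `δ` with
`(1+δ)^2 ≤ 1+ε`, and `F' ⊆ Q` finite with `|F' K'| ≤ (1+δ)|F'|`, `K'` the image of `K`. Choose a
section `σ : Q → G`. The set `B = {n ∈ N : σ(f) k = n σ(f k'), f ∈ F', k ∈ K}` is finite; it is a set
of elements of `N`, written on the left. Choose `F'' ⊆ N` finite with `|F'' B| ≤ (1+δ)|F''|` and put
`F = F'' σ(F')`. Then `|F| = |F''||F'|` and `F K ⊆ (F'' B) σ(F' K')`.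

Soluble: induction along the derived series (for instance prove that `G ⧸ derivedSeries G n` is
Folner by induction on `n`, or any other way). -/
theorem folner_of_isSolvable (G : Type) [Group G] (h : Group.IsSolvable G) : Folner G := by
  obtain ⟨n, hn⟩ := h.solvable
  exact folner_of_derivedSeries n G hn

end Pool.Agent.AutSol
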