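import Pool.Agent.AutSol.Pump

/-! # Q1 (module 10): states with a central loop -/

set_option autoImplicit false

namespace Pool.Agent.AutSol

namespace Mach

variable {G : Type} [Group G] (M : Mach G) (ζ : G)

/-- `Sp ζ s`: `s` is useful and has a nonempty loop whose value is a positive power of `ζ`. -/
def Sp (s : M.S) : Prop :=
  M.Useful s ∧ ∃ z : List M.A, z ≠ [] ∧ M.st s z = s ∧ ∃ m : ℕ, 1 ≤ m ∧ M.val s z = ζ ^ m

/-- The standing hypotheses: `ζ` is central of infinite order, `M` has bounded multiplicity. -/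
structure Ctx (D : ℕ) : Prop where
  cen : ∀ g : G, ζ * g = g * ζ
  inf : ∀ n : ℕ, 1 ≤ n → ζ ^ n ≠ 1
  bdd : M.Bdd D

variable {M ζ} {D : ℕ}

/-- A word between two states of `Sp` is a prefix of a power of any loop of value `ζ^m` at the
first one. By `pump_value`. -/
theorem Sp_prefix (hc : M.Ctx ζ D) {s : M.S} {z r : List M.A} {m : ℕ} (hs : M.Useful s)
    (hz : z ≠ []) (lz : M.st s z = s) (hm : 1 ≤ m) (vz : M.val s z = ζ ^ m)
    (hr : M.Sp ζ (M.st s r)) : ∃ K, r <+: rep K z := by
  obtain ⟨hu, Y', hY', lY', m', hm', vY'⟩ := hr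
  obtain ⟨K, hK⟩ := M.pump_value hc.bdd hs hu hz lz hY' lY' hc.cen hm hm' vz vY'
  exact ⟨K, (List.prefix_append r Y').trans hK⟩

/-- A rotation of a central loop: the intermediate states of a loop of value `ζ^m` (at a useful
state) are in `Sp`. -/
theorem Sp_rotate (hc : M.Ctx ζ D) {s : M.S} {y1 y2 : List M.A} {m : ℕ} (hs : M.Useful s)
    (hz : y1 ++ y2 ≠ []) (lz : M.st s (y1 ++ y2) = s) (hm : 1 ≤ m)
    (vz : M.val s (y1 ++ y2) = ζ ^ m) : M.Sp ζ (M.st s y1) := by
  rw [st_append] at lz
  refine ⟨?_, y2 ++ y1, ?_, ?_, m, hm, ?_⟩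
  · obtain ⟨⟨u, hu⟩, q, hq⟩ := hs
    refine ⟨⟨u ++ y1, by rw [st_append, hu]⟩, y2 ++ q, ?_⟩
    rw [st_append, lz]
    exact hq
  · intro h
    apply hz
    simp only [List.append_eq_nil_iff] at h ⊢
    exact ⟨h.2, h.1⟩
  · rw [st_append, lz]
  · rw [val_append, lz]
    rw [val_append] at vz
    have h1 : M.val (M.st s y1) y2 = (M.val s y1)⁻¹ * ζ ^ m := by rw [← vz]; group
    have h2 : Commute ζ (M.val s y1) := hc.cen _
    rw [h1, mul_assoc, (h2.pow_left m).eq]
    group

/-- All the states on a path between two states of `Sp` are in `Sp`. -/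
theorem Sp_between (hc : M.Ctx ζ D) {s : M.S} {r1 r2 : List M.A} (hs : M.Sp ζ s)
    (hr : M.Sp ζ (M.st s (r1 ++ r2))) : M.Sp ζ (M.st s r1) := by
  obtain ⟨hu, z, hz, lz, m, hm, vz⟩ := hs
  obtain ⟨K, hK⟩ := Sp_prefix hc hu hz lz hm vz hr
  have h1 : r1 <+: rep K z := (List.prefix_append r1 r2).trans hK
  have h2 := eq_of_prefix_rep hz h1
  have h3 : M.st s r1 = M.st s (z.take (r1.length % z.length)) := by
    conv_lhs => rw [h2]
    rw [st_append, st_rep M lz]
  rw [h3]
  have h4 : z.take (r1.length % z.length) ++ z.drop (r1.length % z.length) = z :=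
    List.take_append_drop _ _
  exact Sp_rotate hc hu (y2 := z.drop (r1.length % z.length)) (by rw [h4]; exact hz)
    (by rw [h4]; exact lz) hm (by rw [h4]; exact vz)

variable (M ζ)

/-- Uniform loops of length `N` at the states of `Sp`. -/
structure Loops (N : ℕ) (Z : M.S → List M.A) (n : M.S → ℕ) : Prop where
  pos : 1 ≤ N
  len : ∀ s, M.Sp ζ s → (Z s).length = N
  loop : ∀ s, M.Sp ζ s → M.st s (Z s) = s
  npos : ∀ s, M.Sp ζ s → 1 ≤ n s
  val : ∀ s, M.Sp ζ s → M.val s (Z s) = ζ ^ n s
  pre : ∀ s r, M.Sp ζ s → M.Sp ζ (M.st s r) → ∃ K, r <+: rep K (Z s)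

variable {M ζ}

/-- Uniform loops exist: take `N` = the product of the lengths of chosen loops. -/
theorem exists_loops (hc : M.Ctx ζ D) : ∃ (N : ℕ) (Z : M.S → List M.A) (n : M.S → ℕ),
    M.Loops ζ N Z n := by
  classical
  have := Fintype.ofFinite M.S
  have hch : ∀ s : M.S, ∃ (z : List M.A) (m : ℕ), 1 ≤ m ∧ 1 ≤ (if z = [] then 1 else z.length) ∧
      (M.Sp ζ s → z ≠ [] ∧ M.st s z = s ∧ M.val s z = ζ ^ m) := by
    intro s
    by_cases h : M.Sp ζ s
    · obtain ⟨_, z, hz, lz, m, hm, vz⟩ := h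
      refine ⟨z, m, hm, ?_, fun _ => ⟨hz, lz, vz⟩⟩
      rw [if_neg hz]
      exact List.length_pos_iff.mpr hz
    · exact ⟨[], 1, le_rfl, by simp, fun h' => absurd h' h⟩
  choose z m hm hl hz using hch
  set len : M.S → ℕ := fun s => if z s = [] then 1 else (z s).length with hlen
  set N : ℕ := ∏ s : M.S, len s with hN
  have hNpos : 1 ≤ N := Finset.one_le_prod' fun s _ => hl s
  have hdvd : ∀ s, len s ∣ N := fun s => Finset.dvd_prod_of_mem len (Finset.mem_univ s)
  have hlz : ∀ s, M.Sp ζ s → len s = (z s).length := fun s hs => if_neg (hz s hs).1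
  have hq : ∀ s, 1 ≤ N / len s := fun s =>
    Nat.div_pos (Nat.le_of_dvd hNpos (hdvd s)) (hl s)
  have hlen' : ∀ s, M.Sp ζ s → (rep (N / len s) (z s)).length = N := by
    intro s hs
    rw [length_rep, ← hlz s hs]
    exact Nat.div_mul_cancel (hdvd s)
  have hloop : ∀ s, M.Sp ζ s → M.st s (rep (N / len s) (z s)) = s := fun s hs =>
    st_rep M (hz s hs).2.1 _
  have hn : ∀ s, M.Sp ζ s → 1 ≤ m s * (N / len s) := fun s _ => Nat.mul_pos (hm s) (hq s)
  have hval : ∀ s, M.Sp ζ s →
      M.val s (rep (N / len s) (z s)) = ζ ^ (m s * (N / len s)) := by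
    intro s hs
    rw [val_rep M (hz s hs).2.1, (hz s hs).2.2, pow_mul]
  refine ⟨N, fun s => rep (N / len s) (z s), fun s => m s * (N / len s), hNpos, hlen', hloop,
    hn, hval, ?_⟩
  intro s r hs hr
  refine Sp_prefix hc hs.1 ?_ (hloop s hs) (hn s hs) (hval s hs) hr
  intro h
  have h1 := hlen' s hs
  rw [h] at h1
  simp at h1
  omega

/-- The only word of length `N` between two states of `Sp` is the uniform loop. -/
theorem Loops.uniq {N : ℕ} {Z : M.S → List M.A} {n : M.S → ℕ} (hL : M.Loops ζ N Z n) {s : M.S}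
    {r : List M.A} (hs : M.Sp ζ s) (hr : M.Sp ζ (M.st s r)) (hN : r.length = N) : r = Z s := by
  obtain ⟨K, hK⟩ := hL.pre s r hs hr
  exact prefix_rep_unique hK (K' := 1) (by rw [rep_one]) (by rw [hN, hL.len s hs])

/-- Pigeonhole criterion: if along the word `p` (from the start, `p` accepted) there are two times
`t < t'` with the same state and `v(p.take t)⁻¹ * v(p.take t') = ζ^m`, `m ≥ 1`, then the state at the
time `t` is in `Sp` (and `t < p.length`). -/
theorem Sp_of_times (hc : M.Ctx ζ D) {p : List M.A} (hp : M.Acc p) {t t' m : ℕ} (ht : t < t')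
    (hm : 1 ≤ m) (hst : M.st M.start (p.take t) = M.st M.start (p.take t'))
    (hv : M.v (p.take t') = M.v (p.take t) * ζ ^ m) :
    t < p.length ∧ M.Sp ζ (M.st M.start (p.take t)) := by
  have htp : t < p.length := by
    by_contra hcon
    push Not at hcon
    rw [List.take_of_length_le hcon, List.take_of_length_le (hcon.trans ht.le)] at hv
    exact hc.inf m hm (by simpa using hv.symm)
  refine ⟨htp, M.useful_take hp t, (p.take t').drop t, ?_, ?_, m, hm, ?_⟩
  · intro h
    have h1 := congrArg List.length h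
    simp only [List.length_drop, List.length_take, List.length_nil] at h1
    omega
  · have h1 : p.take t ++ (p.take t').drop t = p.take t' := by
      conv_rhs => rw [← List.take_append_drop t (p.take t')]
      rw [List.take_take, min_eq_left ht.le]
    rw [← st_append, h1, ← hst]
  · have h1 : p.take t ++ (p.take t').drop t = p.take t' := by
      conv_rhs => rw [← List.take_append_drop t (p.take t')]
      rw [List.take_take, min_eq_left ht.le]
    rw [← h1, v_append] at hv
    exact mul_left_cancel hv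

end Mach

end Pool.Agent.AutSol
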