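import Pool.Agent.AutSol.Words

/-! # P (module 2): loops, pumping, difference of lengths -/

set_option autoImplicit false

namespace Pool.Agent.AutSol

namespace Mach

theorem exists_lt_of_card_le {α : Type} {C : ℕ} (f : ℕ → α) [DecidableEq α]
    (h : ((Finset.range (C + 1)).image f).card ≤ C) : ∃ i j, i < j ∧ j ≤ C ∧ f i = f j := by
  by_contra hcon
  push Not at hcon
  have hinj : Set.InjOn f (Finset.range (C + 1) : Set ℕ) := by
    intro i hi j hj hij
    have hi' : i ≤ C := by
      have := Finset.mem_range.1 (Finset.mem_coe.1 hi)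
      omega
    have hj' : j ≤ C := by
      have := Finset.mem_range.1 (Finset.mem_coe.1 hj)
      omega
    rcases lt_trichotomy i j with h1 | h1 | h1
    · exact absurd hij (hcon i j h1 hj')
    · exact h1
    · exact absurd hij.symm (hcon j i h1 hi')
  rw [Finset.card_image_of_injOn hinj, Finset.card_range] at h
  omega

variable {G : Type} (M : Mach G)

/-- (Pumping, counting form.)  If boundedly many accepted words of each length start at `s`, and
`x1 x2 x3` leads from `s` to an accepting state, with a loop `z1` after `x1` and a loop `z2` after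
`x1 x2`, then `x2 z2` is a prefix of a power of `z1`.
Proof: the words `x1 z1^(i |z2|) x2 z2^((k-i) |z1|) x3`, `i = 0..k`, lead from `s` to the accepting
set and have the same length, so for `k` large two of them coincide; use `cancel_pump` and
`prefix_of_conj`. -/
theorem pump_count {s : M.S} (hS : M.SB s) {x1 z1 x2 z2 x3 : List M.A} (h1 : z1 ≠ [])
    (h2 : z2 ≠ []) (l1 : M.st (M.st s x1) z1 = M.st s x1)
    (l2 : M.st (M.st s (x1 ++ x2)) z2 = M.st s (x1 ++ x2))
    (ha : M.st s (x1 ++ x2 ++ x3) ∈ M.acc) : ∃ K, (x2 ++ z2) <+: rep K z1 := by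
  classical
  obtain ⟨C, hC⟩ := hS
  let f : ℕ → List M.A := fun i =>
    x1 ++ rep (i * z2.length) z1 ++ x2 ++ rep ((C - i) * z1.length) z2 ++ x3
  have hf : ∀ i ≤ C, (f i).length = x1.length + x2.length + x3.length
      + C * (z1.length * z2.length) := by
    intro i hi
    obtain ⟨m, rfl⟩ := Nat.exists_eq_add_of_le hi
    simp only [f, List.length_append, length_rep, Nat.add_sub_cancel_left]
    ring
  have hst : ∀ i, M.st s (f i) ∈ M.acc := by
    intro i
    have e1 : M.st (M.st s x1) (rep (i * z2.length) z1) = M.st s x1 := M.st_rep l1 _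
    have e2 : M.st (M.st s (x1 ++ x2)) (rep ((C - i) * z1.length) z2) = M.st s (x1 ++ x2) :=
      M.st_rep l2 _
    have : M.st s (f i) = M.st s (x1 ++ x2 ++ x3) := by
      simp only [f, st_append] at e1 e2 ⊢
      rw [e1, e2]
    rw [this]
    exact ha
  have hcard : ((Finset.range (C + 1)).image f).card ≤ C := by
    refine hC (x1.length + x2.length + x3.length + C * (z1.length * z2.length)) _ ?_
    intro w hw
    obtain ⟨i, hi, rfl⟩ := Finset.mem_image.1 hw
    have hi' : i ≤ C := by
      have := Finset.mem_range.1 hi
      omega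
    exact ⟨hf i hi', hst i⟩
  obtain ⟨i, j, hij, hjC, he⟩ := exists_lt_of_card_le f hcard
  have l1pos : 0 < z1.length := List.length_pos_iff.2 h1
  have l2pos : 0 < z2.length := List.length_pos_iff.2 h2
  have hlt : i * z2.length < j * z2.length := Nat.mul_lt_mul_of_pos_right hij l2pos
  obtain ⟨ha1, ha2⟩ := cancel_pump (X := x1) (p := x2) (q := x3) h1 hlt he
  exact prefix_of_conj h1 (by omega) (by omega) ha2

variable [Group G]

/-- Loops at useful states have values of infinite order. Proof: otherwise the accepted words
`u z^(n j) q`, `j = 0, 1, 2, ...` all have the same value. -/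
theorem loop_infinite {D : ℕ} (hB : M.Bdd D) {s : M.S} (hs : M.Useful s) {z : List M.A}
    (hz : z ≠ []) (hl : M.st s z = s) (n : ℕ) (hn : 1 ≤ n) : M.val s z ^ n ≠ 1 := by
  classical
  intro h1
  obtain ⟨⟨u, hu⟩, q, hq⟩ := hs
  let f : ℕ → List M.A := fun j => u ++ rep (n * j) z ++ q
  have hst : ∀ j, M.Acc (f j) := by
    intro j
    have e1 : M.st s (rep (n * j) z) = s := M.st_rep hl _
    simp only [f, Acc, st_append, hu, e1]
    exact hq
  have hv : ∀ j, M.v (f j) = M.v u * M.val s q := by
    intro j
    have e1 : M.st s (rep (n * j) z) = s := M.st_rep hl _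
    have e2 : M.val s (rep (n * j) z) = 1 := by
      rw [M.val_rep hl, pow_mul, h1, one_pow]
    simp only [f, v_append, st_append, hu, e1, e2, mul_one]
  have hcard : ((Finset.range (D + 1)).image f).card ≤ D := by
    refine hB (M.v u * M.val s q) _ ?_
    intro w hw
    obtain ⟨i, -, rfl⟩ := Finset.mem_image.1 hw
    exact ⟨hst i, hv i⟩
  obtain ⟨i, j, hij, -, he⟩ := exists_lt_of_card_le f hcard
  have hlen := congrArg List.length he
  simp only [f, List.length_append, length_rep] at hlen
  have lpos : 0 < z.length := List.length_pos_iff.2 hz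
  have hlt : n * i * z.length < n * j * z.length :=
    Nat.mul_lt_mul_of_pos_right (Nat.mul_lt_mul_of_pos_left hij (by omega)) lpos
  omega

/-- (Pumping, value form.)  `Y` is a loop at `s` and `Y'` is a loop at `st s r`, with values powers
`g^a`, `g^b` (`a, b ≥ 1`) of the same central element. Then `r Y'` is a prefix of a power of `Y`.
Proof: `s` is reached by `u` and `q` leads from `st s r` to the accepting set; the accepted words
`u Y^(b i) r Y'^(a (k-i)) q` all have the same value; for `k` large two of them coincide. -/
theorem pump_value {D : ℕ} (hB : M.Bdd D) {s : M.S} {Y r Y' : List M.A} (hs : M.Useful s)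
    (ht : M.Useful (M.st s r)) (hY : Y ≠ []) (lY : M.st s Y = s)
    (hY' : Y' ≠ []) (lY' : M.st (M.st s r) Y' = M.st s r) {g : G} (hg : ∀ x : G, g * x = x * g)
    {a b : ℕ} (ha : 1 ≤ a) (hb : 1 ≤ b) (vY : M.val s Y = g ^ a)
    (vY' : M.val (M.st s r) Y' = g ^ b) : ∃ K, (r ++ Y') <+: rep K Y := by
  classical
  obtain ⟨⟨u, hu⟩, -⟩ := hs
  obtain ⟨-, q, hq⟩ := ht
  let f : ℕ → List M.A := fun i => u ++ rep (b * i) Y ++ r ++ rep (a * (D - i)) Y' ++ q
  have hst : ∀ i, M.Acc (f i) := by
    intro i
    have e1 : M.st s (rep (b * i) Y) = s := M.st_rep lY _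
    have e2 : M.st (M.st s r) (rep (a * (D - i)) Y') = M.st s r := M.st_rep lY' _
    simp only [f, Acc, st_append, hu, e1, e2]
    exact hq
  have hcomm : ∀ (m : ℕ) (x : G), g ^ m * x = x * g ^ m := by
    intro m x
    have : Commute g x := hg x
    exact (this.pow_left m).eq
  have hv : ∀ i ≤ D, M.v (f i) = M.v u * M.val s r * M.val (M.st s r) q * g ^ (a * b * D) := by
    intro i hi
    obtain ⟨m, hm⟩ := Nat.exists_eq_add_of_le hi
    have e1 : M.st s (rep (b * i) Y) = s := M.st_rep lY _
    have e2 : M.st (M.st s r) (rep (a * (D - i)) Y') = M.st s r := M.st_rep lY' _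
    have e3 : M.val s (rep (b * i) Y) = g ^ (a * b * i) := by
      rw [M.val_rep lY, vY, ← pow_mul, mul_assoc]
    have e4 : M.val (M.st s r) (rep (a * (D - i)) Y') = g ^ (a * b * (D - i)) := by
      rw [M.val_rep lY', vY', ← pow_mul]
      congr 1
      ring
    have e5 : a * b * D = a * b * i + a * b * (D - i) := by
      rw [← mul_add]
      congr 1
      omega
    simp only [f, v_append, st_append, hu, e1, e2, e3, e4]
    rw [e5, pow_add]
    have hP := hcomm (a * b * i)
    have hQ := hcomm (a * b * (D - i))
    generalize g ^ (a * b * i) = P at hP ⊢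
    generalize g ^ (a * b * (D - i)) = Q at hQ ⊢
    rw [mul_assoc (M.v u) P (M.val s r), hP (M.val s r)]
    simp only [mul_assoc]
    rw [hQ (M.val (M.st s r) q), ← mul_assoc P, hP (M.val (M.st s r) q)]
    simp only [mul_assoc]
  have hcard : ((Finset.range (D + 1)).image f).card ≤ D := by
    refine hB (M.v u * M.val s r * M.val (M.st s r) q * g ^ (a * b * D)) _ ?_
    intro w hw
    obtain ⟨i, hi, rfl⟩ := Finset.mem_image.1 hw
    have hi' : i ≤ D := by
      have := Finset.mem_range.1 hi
      omega
    exact ⟨hst i, hv i hi'⟩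
  obtain ⟨i, j, hij, hjC, he⟩ := exists_lt_of_card_le f hcard
  have hlt : b * i < b * j := Nat.mul_lt_mul_of_pos_left hij (by omega)
  obtain ⟨ha1, ha2⟩ := cancel_pump (X := u) (p := r) (q := q) hY hlt he
  exact prefix_of_conj hY (by omega) (by omega) ha2

/-- Pigeonhole: if between the times `lo` and `hi` (`hi ≤ |p|`) the `n`-spaced prefixes of the
accepted word `p` have values in `b i * E` (`E` finite with less than `(count)/card S` elements) ...
General form used everywhere: if `f i`, `i ≤ k`, are elements of a finite set `E` and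
`k ≥ card S * ncard E`, then there are `i < j ≤ k` with the same state and the same element. -/
theorem pigeon (M : Mach G) {E : Set G} (hE : E.Finite) (k : ℕ)
    (hk : Nat.card M.S * E.ncard ≤ k) (σ : ℕ → M.S) (f : ℕ → G) (hf : ∀ i ≤ k, f i ∈ E) :
    ∃ i j, i < j ∧ j ≤ k ∧ σ i = σ j ∧ f i = f j := by
  classical
  have : Fintype M.S := Fintype.ofFinite M.S
  have hcard : ((Finset.univ : Finset M.S) ×ˢ hE.toFinset).card < (Finset.range (k + 1)).card := by
    rw [Finset.card_product, Finset.card_univ, Finset.card_range, ← Nat.card_eq_fintype_card,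
      ← Set.ncard_eq_toFinset_card E hE]
    omega
  have hmaps : ∀ i ∈ Finset.range (k + 1),
      (σ i, f i) ∈ ((Finset.univ : Finset M.S) ×ˢ hE.toFinset) := by
    intro i hi
    have hi' : i ≤ k := by
      have := Finset.mem_range.1 hi
      omega
    rw [Finset.mem_product]
    exact ⟨Finset.mem_univ _, hE.mem_toFinset.2 (hf i hi')⟩
  obtain ⟨i, hi, j, hj, hne, he⟩ :=
    Finset.exists_ne_map_eq_of_card_lt_of_maps_to hcard hmaps
  have hi' : i ≤ k := by
    have := Finset.mem_range.1 hi
    omega
  have hj' : j ≤ k := by
    have := Finset.mem_range.1 hj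
    omega
  have he1 : σ i = σ j := congrArg Prod.fst he
  have he2 : f i = f j := congrArg Prod.snd he
  rcases lt_or_gt_of_ne hne with h | h
  · exact ⟨i, j, h, hj', he1, he2⟩
  · exact ⟨j, i, h, hi', he1.symm, he2.symm⟩

/-- An accepted word does not come back to the same state with the same value. -/
theorem no_return {D : ℕ} (hB : M.Bdd D) {p : List M.A} (hp : M.Acc p) {t t' : ℕ} (htt : t < t')
    (ht' : t' ≤ p.length) (hs : M.st M.start (p.take t) = M.st M.start (p.take t'))
    (hv : M.v (p.take t) = M.v (p.take t')) : False := by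
  have hsplit : p.take t' = p.take t ++ (p.take t').drop t := by
    have h1 : (p.take t').take t = p.take t := by
      rw [List.take_take, min_eq_left htt.le]
    calc p.take t' = (p.take t').take t ++ (p.take t').drop t := (List.take_append_drop _ _).symm
      _ = p.take t ++ (p.take t').drop t := by rw [h1]
  have hne : (p.take t').drop t ≠ [] := by
    apply List.ne_nil_of_length_pos
    rw [List.length_drop, List.length_take]
    omega
  rw [hsplit, st_append] at hs
  rw [hsplit, v_append] at hv
  have h1 : M.val (M.st M.start (p.take t)) ((p.take t').drop t) = 1 := by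
    have := hv
    rwa [eq_comm, mul_eq_left] at this
  refine M.loop_infinite hB (M.useful_take hp t) hne hs.symm 1 le_rfl ?_
  rw [h1, one_pow]

/-- Accepted words whose values differ by an element of a finite set have nearly the same length.
Proof: take `E` from the fellow traveller property. If `|p'| ≥ |p| + card S * ncard E`, then for
`|p| ≤ t ≤ |p'|` one has `(v p)⁻¹ * v (p'.take t) ∈ E`; by `pigeon` there are two times
`t < t'` with the same state and the same value, hence a loop of value `1` at a useful state,
against `loop_infinite`. The other inequality is similar. -/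
theorem len_diff {D : ℕ} (hB : M.Bdd D) (hF : M.FTP) (F : Set G) (hFin : F.Finite) :
    ∃ Δ : ℕ, ∀ p p', M.Acc p → M.Acc p' → (M.v p)⁻¹ * M.v p' ∈ F →
      p.length ≤ p'.length + Δ ∧ p'.length ≤ p.length + Δ := by
  obtain ⟨E, hE, hEE⟩ := hF F hFin
  refine ⟨Nat.card M.S * E.ncard, ?_⟩
  intro p p' hp hp' hpp
  have hfol := hEE p p' hp hp' hpp
  constructor
  · by_contra hcon
    push Not at hcon
    obtain ⟨i, j, hij, hjk, h1, h2⟩ := M.pigeon hE (Nat.card M.S * E.ncard) le_rfl
      (fun i => M.st M.start (p.take (p'.length + i)))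
      (fun i => (M.v (p.take (p'.length + i)))⁻¹ * M.v p') (by
        intro i hi
        have := hfol (p'.length + i)
        rwa [List.take_of_length_le (l := p') (by omega)] at this)
    refine M.no_return hB hp (t := p'.length + i) (t' := p'.length + j) (by omega) (by omega) h1 ?_
    have := mul_right_cancel h2
    exact inv_injective this
  · by_contra hcon
    push Not at hcon
    obtain ⟨i, j, hij, hjk, h1, h2⟩ := M.pigeon hE (Nat.card M.S * E.ncard) le_rfl
      (fun i => M.st M.start (p'.take (p.length + i)))
      (fun i => (M.v p)⁻¹ * M.v (p'.take (p.length + i))) (by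
        intro i hi
        have := hfol (p.length + i)
        rwa [List.take_of_length_le (l := p) (by omega)] at this)
    refine M.no_return hB hp' (t := p.length + i) (t' := p.length + j) (by omega) (by omega) h1 ?_
    exact mul_left_cancel h2

end Mach

end Pool.Agent.AutSol
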