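import Pool.Agent.AutSol.Defs

/-! # B1 (module 4): unique representatives -/

set_option autoImplicit false

namespace Pool.Agent.AutSol

/-- The fellow traveller property for right multiplication by the elements of `B` and by `1`. -/
def Mach.GenFTP {G : Type} [Group G] (M : Mach G) (B : Set G) : Prop :=
  ∃ E : Set G, E.Finite ∧ ∀ w w', M.Acc w → M.Acc w' → ∀ x, (x = 1 ∨ x ∈ B) →
    M.v w * x = M.v w' → ∀ t, (M.v (w.take t))⁻¹ * M.v (w'.take t) ∈ E

namespace Shortlex

section Key

variable {A : Type} [Fintype A]

/-- The number of a letter. -/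
noncomputable def dig (a : A) : ℕ := (Fintype.equivFin A a : ℕ)

theorem dig_lt (a : A) : dig a < Fintype.card A := (Fintype.equivFin A a).2

theorem dig_inj {a b : A} (h : dig a = dig b) : a = b :=
  (Fintype.equivFin A).injective (Fin.ext h)

/-- The word read as a number written in base `card A`. -/
noncomputable def key (w : List A) : ℕ := w.foldl (fun n a => n * Fintype.card A + dig a) 0

theorem key_snoc (w : List A) (a : A) : key (w ++ [a]) = key w * Fintype.card A + dig a := by
  simp [key, List.foldl_append]

theorem digit_eq {x y i j B : ℕ} (hi : i < B) (hj : j < B) (h : x * B + i = y * B + j) :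
    x = y ∧ i = j := by
  have hB : 0 < B := by omega
  have h1 : (x * B + i) / B = x := by
    rw [Nat.add_comm, Nat.add_mul_div_right _ _ hB, Nat.div_eq_of_lt hi, Nat.zero_add]
  have h2 : (y * B + j) / B = y := by
    rw [Nat.add_comm, Nat.add_mul_div_right _ _ hB, Nat.div_eq_of_lt hj, Nat.zero_add]
  have h3 : x = y := by rw [← h1, h, h2]
  subst h3
  exact ⟨rfl, by omega⟩

theorem key_inj (w : List A) : ∀ w' : List A, w.length = w'.length → key w = key w' → w = w' := by
  induction w using List.reverseRecOn with
  | nil =>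
    intro w' hl _
    exact (List.length_eq_zero_iff.1 hl.symm).symm
  | append_singleton w a ih =>
    intro w' hl hk
    rcases List.eq_nil_or_concat w' with rfl | ⟨u, b, rfl⟩
    · simp at hl
    · rw [List.concat_eq_append] at hl hk ⊢
      rw [key_snoc, key_snoc] at hk
      obtain ⟨h1, h2⟩ := digit_eq (dig_lt a) (dig_lt b) hk
      rw [ih u (by simpa using hl) h1, dig_inj h2]

theorem cmp_digit {x y i j B : ℕ} (hi : i < B) (hj : j < B) :
    compare (x * B + i) (y * B + j) = (compare x y).then (compare i j) := by
  rcases lt_trichotomy x y with h | h | h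
  · have h1 : x * B + i < y * B + j := by
      have : (x + 1) * B ≤ y * B := Nat.mul_le_mul_right B h
      nlinarith
    rw [compare_lt_iff_lt.2 h1, compare_lt_iff_lt.2 h]
    rfl
  · subst h
    rcases lt_trichotomy i j with h' | h' | h'
    · rw [compare_lt_iff_lt.2 h', compare_lt_iff_lt.2 (show x * B + i < x * B + j by omega),
        compare_eq_iff_eq.2 rfl]
      rfl
    · subst h'
      rw [compare_eq_iff_eq.2 (show i = i from rfl), compare_eq_iff_eq.2 (show x = x from rfl),
        compare_eq_iff_eq.2 rfl]
      rfl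
    · rw [compare_gt_iff_gt.2 h', compare_gt_iff_gt.2 (show x * B + i > x * B + j by omega),
        compare_eq_iff_eq.2 rfl]
      rfl
  · have h1 : y * B + j < x * B + i := by
      have : (y + 1) * B ≤ x * B := Nat.mul_le_mul_right B h
      nlinarith
    rw [compare_gt_iff_gt.2 h1, compare_gt_iff_gt.2 h]
    rfl

end Key

section Machine

/-- The value of a word over the alphabet. -/
def pv {G : Type} [Group G] {A : Type} (μ : A → G) (w : List A) : G := (w.map μ).prod

theorem pv_snoc {G : Type} [Group G] {A : Type} (μ : A → G) (w : List A) (a : A) :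
    pv μ (w ++ [a]) = pv μ w * μ a := by
  simp [pv]

variable {G : Type} [Group G] {A : Type} [Fintype A] {σ : Type}

/-- One step of the subset machine. -/
def stepX (N : DFA A σ) (S : Finset G) (μ : A → G) (a : A)
    (X : Set (σ × ↥S × Option Ordering)) : Set (σ × ↥S × Option Ordering) :=
  {p | (∃ p' ∈ X, p.1 = p'.1 ∧ (p.2.1 : G) = (μ a)⁻¹ * (p'.2.1 : G) ∧ p.2.2 = none) ∨
    (∃ p' ∈ X, ∃ o : Ordering, p'.2.2 = some o ∧ ∃ b : A, p.1 = N.step p'.1 b ∧
      (p.2.1 : G) = (μ a)⁻¹ * (p'.2.1 : G) * μ b ∧
      p.2.2 = some (o.then (compare (dig b) (dig a))))}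

/-- The word `w'` is not longer than `w` and fellow travels with it. -/
def Tracked (S : Finset G) (μ : A → G) (w w' : List A) : Prop :=
  w'.length ≤ w.length ∧ ∀ t ≤ w.length, (pv μ (w.take t))⁻¹ * pv μ (w'.take t) ∈ S

/-- Comparison of `w'` with `w`: `none` if `w'` is shorter. -/
noncomputable def flag (w w' : List A) : Option Ordering :=
  if w'.length < w.length then none else some (compare (key w') (key w))

/-- The set of the competitors of `w`. -/
def comp (N : DFA A σ) (S : Finset G) (μ : A → G) (w : List A) :
    Set (σ × ↥S × Option Ordering) :=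
  {p | ∃ w', Tracked S μ w w' ∧ p.1 = N.eval w' ∧
    (p.2.1 : G) = (pv μ w)⁻¹ * pv μ w' ∧ p.2.2 = flag w w'}

theorem comp_snoc (N : DFA A σ) (S : Finset G) (μ : A → G) (w : List A) (a : A) :
    comp N S μ (w ++ [a]) = stepX N S μ a (comp N S μ w) := by
  ext p
  constructor
  · rintro ⟨w', ⟨hlen, htr⟩, h1, h2, h3⟩
    rw [List.length_append, List.length_singleton] at hlen htr
    rcases Nat.lt_or_ge w.length w'.length with hlt | hle
    · -- `w'` has the same length as `w ++ [a]`
      rcases List.eq_nil_or_concat w' with rfl | ⟨u, b, rfl⟩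
      · simp at hlt
      rw [List.concat_eq_append] at *
      rw [List.length_append, List.length_singleton] at hlen hlt
      have hul : u.length = w.length := by omega
      have htr' : ∀ t ≤ w.length, (pv μ (w.take t))⁻¹ * pv μ (u.take t) ∈ S := by
        intro t ht
        have := htr t (by omega)
        rwa [List.take_append_of_le_length ht, List.take_append_of_le_length (by omega)] at this
      have hmem : (pv μ w)⁻¹ * pv μ u ∈ S := by
        have := htr' w.length le_rfl
        rwa [List.take_length, ← hul, List.take_length] at this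
      refine Or.inr ⟨(N.eval u, ⟨_, hmem⟩, flag w u), ⟨u, ⟨hul.le, htr'⟩, rfl, rfl, rfl⟩,
        compare (key u) (key w), ?_, b, ?_, ?_, ?_⟩
      · simp [flag, hul]
      · rw [h1, DFA.eval_append_singleton]
      · rw [h2, pv_snoc, pv_snoc, mul_inv_rev]
        simp only [mul_assoc]
      · rw [h3, flag, if_neg (by simp [hul]), key_snoc, key_snoc,
          cmp_digit (dig_lt b) (dig_lt a)]
    · -- `w'` is shorter
      have htr' : ∀ t ≤ w.length, (pv μ (w.take t))⁻¹ * pv μ (w'.take t) ∈ S := by
        intro t ht
        have := htr t (by omega)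
        rwa [List.take_append_of_le_length ht] at this
      have hmem : (pv μ w)⁻¹ * pv μ w' ∈ S := by
        have := htr' w.length le_rfl
        rwa [List.take_length, List.take_of_length_le hle] at this
      refine Or.inl ⟨(N.eval w', ⟨_, hmem⟩, flag w w'), ⟨w', ⟨hle, htr'⟩, rfl, rfl, rfl⟩, h1, ?_, ?_⟩
      · rw [h2, pv_snoc, mul_inv_rev, mul_assoc]
      · rw [h3, flag, if_pos (by simp; omega)]
  · rintro (⟨p', ⟨w', ⟨hlen, htr⟩, h1, h2, h3⟩, g1, g2, g3⟩ |
      ⟨p', ⟨w', ⟨hlen, htr⟩, h1, h2, h3⟩, o, ho, b, g1, g2, g3⟩)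
    · have hval : (pv μ (w ++ [a]))⁻¹ * pv μ w' = p.2.1 := by
        rw [g2, h2, pv_snoc, mul_inv_rev, mul_assoc]
      refine ⟨w', ⟨by simp; omega, fun t ht => ?_⟩, by rw [g1, h1], hval.symm, ?_⟩
      · rw [List.length_append, List.length_singleton] at ht
        rcases Nat.lt_or_ge w.length t with hlt | hle
        · rw [List.take_of_length_le (l := w ++ [a]) (by simp; omega),
            List.take_of_length_le (l := w') (by omega), hval]
          exact p.2.1.2
        · rw [List.take_append_of_le_length hle]
          exact htr t hle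
      · rw [g3, flag, if_pos (by simp; omega)]
    · have hlen' : w'.length = w.length := by
        rw [h3, flag] at ho
        by_contra hne
        rw [if_pos (by omega)] at ho
        exact absurd ho (by simp)
      have ho' : o = compare (key w') (key w) := by
        rw [h3, flag, if_neg (by omega)] at ho
        exact (Option.some.inj ho).symm
      have hval : (pv μ (w ++ [a]))⁻¹ * pv μ (w' ++ [b]) = p.2.1 := by
        rw [g2, h2, pv_snoc, pv_snoc, mul_inv_rev]
        simp only [mul_assoc]
      refine ⟨w' ++ [b], ⟨by simp [hlen'], fun t ht => ?_⟩, ?_, hval.symm, ?_⟩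
      · rw [List.length_append, List.length_singleton] at ht
        rcases Nat.lt_or_ge w.length t with hlt | hle
        · rw [List.take_of_length_le (l := w ++ [a]) (by simp; omega),
            List.take_of_length_le (l := w' ++ [b]) (by simp; omega), hval]
          exact p.2.1.2
        · rw [List.take_append_of_le_length hle, List.take_append_of_le_length (by omega)]
          exact htr t hle
      · rw [g1, h1, DFA.eval_append_singleton]
      · rw [g3, ho', flag, if_neg (by simp [hlen']), key_snoc, key_snoc,
          cmp_digit (dig_lt b) (dig_lt a)]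

/-- The subset machine. -/
def mach (N : DFA A σ) [Finite σ] (S : Finset G) (μ : A → G) : Mach G where
  S := σ × Set (σ × ↥S × Option Ordering)
  A := A
  step := fun p a => (N.step p.1 a, stepX N S μ a p.2)
  out := fun _ a => μ a
  start := (N.eval [], comp N S μ [])
  acc := {p | p.1 ∈ N.accept ∧ ∀ p' ∈ p.2, p'.1 ∈ N.accept → (p'.2.1 : G) = 1 →
    p'.2.2 ≠ none ∧ p'.2.2 ≠ some Ordering.lt}
  finS := inferInstance
  finA := inferInstance

variable [Finite σ] (N : DFA A σ) (S : Finset G) (μ : A → G)

theorem mach_st (w : List A) :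
    (mach N S μ).st (mach N S μ).start w = (N.eval w, comp N S μ w) := by
  induction w using List.reverseRecOn with
  | nil => rfl
  | append_singleton w a ih =>
    have h := (mach N S μ).st_append (mach N S μ).start w [a]
    rw [ih] at h
    rw [show (mach N S μ).st (mach N S μ).start (w ++ [a]) =
      (mach N S μ).st (N.eval w, comp N S μ w) [a] from h]
    change (N.step (N.eval w) a, stepX N S μ a (comp N S μ w)) = _
    rw [comp_snoc, DFA.eval_append_singleton]

theorem mach_val (s : (mach N S μ).S) (w : List A) : (mach N S μ).val s w = pv μ w := by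
  induction w generalizing s with
  | nil => rfl
  | cons a w ih =>
    have h1 := ih ((mach N S μ).step s a)
    have h2 : pv μ (a :: w) = μ a * pv μ w := by simp [pv]
    rw [h2, ← h1]
    rfl

theorem mach_acc (w : List A) : (mach N S μ).Acc w ↔
    w ∈ N.accepts ∧ ∀ w', Tracked S μ w w' → w' ∈ N.accepts → pv μ w' = pv μ w →
      flag w w' ≠ none ∧ flag w w' ≠ some Ordering.lt := by
  unfold Mach.Acc
  rw [mach_st]
  constructor
  · rintro ⟨h1, h2⟩
    refine ⟨h1, fun w' htr hw' hv => ?_⟩
    have hmem : (pv μ w)⁻¹ * pv μ w' ∈ S := by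
      have := htr.2 w.length le_rfl
      rwa [List.take_length, List.take_of_length_le htr.1] at this
    exact h2 (N.eval w', ⟨_, hmem⟩, flag w w') ⟨w', htr, rfl, rfl, rfl⟩ hw' (by
      change (pv μ w)⁻¹ * pv μ w' = 1
      rw [hv, inv_mul_cancel])
  · rintro ⟨h1, h2⟩
    refine ⟨h1, ?_⟩
    rintro p' ⟨w', htr, g1, g2, g3⟩ hacc hone
    rw [g3]
    refine h2 w' htr ?_ ?_
    · rw [g1] at hacc
      exact hacc
    · rw [hone] at g2
      exact (inv_mul_eq_one.1 g2.symm).symm

end Machine

end Shortlex

open Shortlex in
/-- An automatic structure yields one with unique representatives.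

The machine: take a linear order on `A`; the states are pairs `(q, X)` with `q` a state of the DFA
(run on the word `w` read so far) and `X` a subset of `σ × S × Flag`, `Flag = {shorter, less, equal,
greater}`: after reading `w`, `X` is the set of the triples (state of the DFA after `w'`,
`π(w)⁻¹ π(w')`, flag of the comparison of `w'` with `w`) for all words `w'` with `|w'| ≤ |w|` such
that `(π(w.take t))⁻¹ π(w'.take t) ∈ S` for all `t ≤ |w|`; flag `shorter` if `|w'| < |w|`, otherwise
the flag of the lexicographic comparison of `w'` with `w`. `out` is `μ`. Accept `(q, X)` when `q` is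
accepting and `X` contains no triple `(q', 1, f)` with `q'` accepting and `f ∈ {shorter, less}`.
The accepted words are the words of `L` that are shortlex-least in `L` among the words with the same
value (the fellow traveller property for `x = 1` shows that the competitors are seen). -/
theorem exists_unique_mach (G : Type) [Group G] (A : Type) [Fintype A] (μ : A → G)
    (L : Language A) (hreg : ∃ (σ : Type) (_ : Fintype σ) (M : DFA A σ), M.accepts = L)
    (honto : ∀ g : G, ∃ w ∈ L, (w.map μ).prod = g)
    (hftp : ∃ S : Finset G, ∀ u ∈ L, ∀ v ∈ L, ∀ x : G, (x = 1 ∨ ∃ a, μ a = x) →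
      (u.map μ).prod * x = (v.map μ).prod →
      ∀ t : ℕ, (((u.take t).map μ).prod)⁻¹ * ((v.take t).map μ).prod ∈ S) :
    ∃ M : Mach G, M.Onto ∧ M.Bdd 1 ∧ M.GenFTP (Set.range μ) := by
  obtain ⟨σ, hσ, N, rfl⟩ := hreg
  obtain ⟨S, hS⟩ := hftp
  have hfin : Finite σ := Finite.of_fintype σ
  have hv : ∀ w : List A, (mach N S μ).v w = pv μ w := fun w => mach_val N S μ _ w
  -- competitors with the same value are tracked
  have htr : ∀ w ∈ N.accepts, ∀ w' ∈ N.accepts, w'.length ≤ w.length → pv μ w' = pv μ w →
      Tracked S μ w w' := by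
    intro w hw w' hw' hl he
    refine ⟨hl, fun t _ => hS w hw w' hw' 1 (Or.inl rfl) ?_ t⟩
    rw [mul_one]
    exact he.symm
  refine ⟨mach N S μ, ?_, ?_, S, S.finite_toSet, ?_⟩
  · intro g
    -- the shortlex-least word
    have hne : ∃ n : ℕ, ∃ w ∈ N.accepts, pv μ w = g ∧ w.length = n := by
      obtain ⟨w, hw, hg⟩ := honto g
      exact ⟨w.length, w, hw, hg, rfl⟩
    classical
    have hne2 : ∃ k : ℕ, ∃ w ∈ N.accepts, pv μ w = g ∧ w.length = Nat.find hne ∧ key w = k := by
      obtain ⟨w, hw, hg, hl⟩ := Nat.find_spec hne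
      exact ⟨key w, w, hw, hg, hl, rfl⟩
    obtain ⟨w, hw, hg, hl, hk⟩ := Nat.find_spec hne2
    refine ⟨w, (mach_acc N S μ w).2 ⟨hw, fun w' hT hw' hv' => ?_⟩, by rw [hv, hg]⟩
    have h1 : ¬ w'.length < w.length := by
      intro hlt
      refine Nat.find_min hne (m := w'.length) (by rw [← hl]; exact hlt) ⟨w', hw', ?_, rfl⟩
      rw [hv', hg]
    have h1' : w'.length = w.length := le_antisymm hT.1 (not_lt.1 h1)
    have h2 : ¬ key w' < key w := by
      intro hlt
      refine Nat.find_min hne2 (m := key w') (by rw [← hk]; exact hlt)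
        ⟨w', hw', by rw [hv', hg], by rw [h1', hl], rfl⟩
    constructor
    · simp [flag, h1]
    · intro hc
      rw [flag, if_neg h1] at hc
      exact h2 (compare_lt_iff_lt.1 (Option.some.inj hc))
  · intro g T hT
    refine Finset.card_le_one.2 fun a ha b hb => ?_
    change List A at a b
    obtain ⟨ha1, ha2'⟩ := hT a ha
    obtain ⟨hb1, hb2'⟩ := hT b hb
    have ha2 : pv μ a = g := (hv a).symm.trans ha2'
    have hb2 : pv μ b = g := (hv b).symm.trans hb2'
    have key1 : ∀ w w' : List A, (mach N S μ).Acc w → (mach N S μ).Acc w' → pv μ w = pv μ w' →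
        w'.length ≤ w.length ∧ (w'.length = w.length → key w ≤ key w') → w' = w := by
      intro w w' hw hw' he ⟨hl, hk⟩
      have hw1 := (mach_acc N S μ w).1 hw
      have hw1' := (mach_acc N S μ w').1 hw'
      have h3 := hw1.2 w' (htr w hw1.1 w' hw1'.1 hl he.symm) hw1'.1 he.symm
      have h4 : w'.length = w.length := by
        by_contra hne
        exact h3.1 (by rw [flag, if_pos (by omega)])
      have h5 := hw1'.2 w (htr w' hw1'.1 w hw1.1 h4.symm.le he) hw1.1 he
      have h6 : ¬ key w < key w' := by
        intro hlt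
        exact h5.2 (by rw [flag, if_neg (by omega), compare_lt_iff_lt.2 hlt])
      exact key_inj w' w h4 (le_antisymm (not_lt.1 h6) (hk h4))
    rcases lt_trichotomy a.length b.length with h | h | h
    · exact key1 b a hb1 ha1 (by rw [ha2, hb2]) ⟨h.le, fun hh => absurd hh (by omega)⟩
    · rcases le_total (key a) (key b) with hk | hk
      · exact (key1 a b ha1 hb1 (by rw [ha2, hb2]) ⟨h.ge, fun _ => hk⟩).symm
      · exact key1 b a hb1 ha1 (by rw [ha2, hb2]) ⟨h.le, fun _ => hk⟩
    · exact (key1 a b ha1 hb1 (by rw [ha2, hb2]) ⟨h.le, fun hh => absurd hh (by omega)⟩).symm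
  · intro w w' hw hw' x hx he t
    change List A at w w'
    have hw1 := ((mach_acc N S μ w).1 hw).1
    have hw1' := ((mach_acc N S μ w').1 hw').1
    have he' : pv μ w * x = pv μ w' := by rw [← hv, ← hv]; exact he
    have h4 := hS w hw1 w' hw1' x (by
      rcases hx with rfl | ⟨a, rfl⟩
      · exact Or.inl rfl
      · exact Or.inr ⟨a, rfl⟩) he' t
    have h5 : (pv μ (w.take t))⁻¹ * pv μ (w'.take t) ∈ S := h4
    rw [← hv, ← hv] at h5
    exact h5

end Pool.Agent.AutSol
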