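import Pool.Agent.AutSol.Dec

/-! # Q5a (module 13a): entry and exit times of two accepted words with close values -/

set_option autoImplicit false

namespace Pool.Agent.AutSol

namespace Mach

variable {G : Type} [Group G] {M : Mach G} {ζ : G} {D : ℕ}

/-- A path between two states of `Sp` starts with powers of the uniform loop. -/
theorem Loops.take_mul {N : ℕ} {Z : M.S → List M.A} {n : M.S → ℕ} (hL : M.Loops ζ N Z n)
    {s : M.S} {r : List M.A} (hs : M.Sp ζ s) (hr : M.Sp ζ (M.st s r)) {i : ℕ}
    (hi : i * N ≤ r.length) : r.take (i * N) = rep i (Z s) := by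
  obtain ⟨K, hK⟩ := hL.pre s r hs hr
  refine prefix_rep_unique (y := Z s) (K := K) (K' := i) ?_ (List.prefix_refl _) ?_
  · exact (List.take_prefix _ _).trans hK
  · rw [length_rep, hL.len s hs, List.length_take, Nat.min_eq_left hi]

theorem Loops.val_take_mul {N : ℕ} {Z : M.S → List M.A} {n : M.S → ℕ} (hL : M.Loops ζ N Z n)
    {s : M.S} {r : List M.A} (hs : M.Sp ζ s) (hr : M.Sp ζ (M.st s r)) {i : ℕ}
    (hi : i * N ≤ r.length) : M.val s (r.take (i * N)) = ζ ^ (n s * i) := by
  rw [hL.take_mul hs hr hi, val_rep M (hL.loop s hs), hL.val s hs, ← pow_mul]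

/-- The common pigeonhole step: `Q` is accepted, at the times `t0 + i N`, `i ≤ k`, the values of the
prefixes of `Q` are `g ζ^(m i) e_i` with `e_i` in a finite set with few elements. Then at one of
these times, before the end of `Q`, the state of `Q` is in `Sp`. -/
theorem meet (hc : M.Ctx ζ D) {E : Set G} (hE : E.Finite) {Q : List M.A} (hQ : M.Acc Q)
    {N t0 m : ℕ} (hN : 1 ≤ N) (hm : 1 ≤ m) (g : G) (e : ℕ → G)
    (he : ∀ i ≤ Nat.card M.S * E.ncard, e i ∈ E)
    (hv : ∀ i ≤ Nat.card M.S * E.ncard, M.v (Q.take (t0 + i * N)) = g * ζ ^ (m * i) * e i) :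
    ∃ i ≤ Nat.card M.S * E.ncard, t0 + i * N < Q.length ∧
      M.Sp ζ (M.st M.start (Q.take (t0 + i * N))) := by
  obtain ⟨i, j, hij, hj, hσ, hf⟩ := pigeon M hE (Nat.card M.S * E.ncard) le_rfl
    (fun i => M.st M.start (Q.take (t0 + i * N))) e he
  refine ⟨i, by omega, ?_⟩
  have hcen : ∀ (a : ℕ) (x : G), ζ ^ a * x = x * ζ ^ a := fun a x =>
    (Commute.pow_left (show Commute ζ x from hc.cen x) a)
  have h1 := hv i (by omega)
  have h2 := hv j hj
  refine Sp_of_times hc hQ (t' := t0 + j * N) (m := m * (j - i)) ?_ ?_ hσ ?_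
  · have : i * N < j * N := Nat.mul_lt_mul_of_pos_right hij hN
    omega
  · exact Nat.one_le_iff_ne_zero.2 (Nat.mul_ne_zero (by omega) (by omega))
  · rw [h1, h2, hf, mul_assoc (g * ζ ^ (m * i)) (e j), ← hcen (m * (j - i)) (e j),
      ← mul_assoc (g * ζ ^ (m * i)), mul_assoc g (ζ ^ (m * i)), ← pow_add, ← Nat.mul_add,
      Nat.add_sub_cancel' hij.le]

/-- Entry times. -/
theorem entry (hc : M.Ctx ζ D) (hF : M.FTP) {N : ℕ} {Z : M.S → List M.A} {n : M.S → ℕ}
    (hL : M.Loops ζ N Z n) (F : Set G) (hFin : F.Finite) :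
    ∃ C : ℕ, ∀ P u c w P' u' c' w', M.Acc P → M.Acc P' → (M.v P)⁻¹ * M.v P' ∈ F →
      M.Dec ζ P u c w → M.Dec ζ P' u' c' w' → u'.length ≤ u.length + c.length →
      u'.length ≤ u.length + C := by
  obtain ⟨E, hE, hEF⟩ := hF F hFin
  refine ⟨Nat.card M.S * E.ncard * N, ?_⟩
  intro P u c w P' u' c' w' hP hP' hPF hd hd' hlen
  by_contra hcon
  have hlt : u.length + Nat.card M.S * E.ncard * N < u'.length := by omega
  have hexit : M.Sp ζ (M.st (M.st M.start u) c) := by
    have := hd.exit
    rwa [st_append] at this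
  have hle : ∀ i ≤ Nat.card M.S * E.ncard, i * N ≤ c.length ∧ u.length + i * N < u'.length := by
    intro i hi
    have : i * N ≤ Nat.card M.S * E.ncard * N := Nat.mul_le_mul_right N hi
    omega
  have hPt : ∀ i ≤ Nat.card M.S * E.ncard,
      M.v (P.take (u.length + i * N)) = M.v u * ζ ^ (n (M.st M.start u) * i) := by
    intro i hi
    rw [hd.eq, List.append_assoc, List.take_length_add_append,
      List.take_append_of_le_length (hle i hi).1, v_append, hL.val_take_mul hd.enter hexit
      (hle i hi).1]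
  obtain ⟨i, hi, h1, h2⟩ := meet hc hE hP' (N := N) (t0 := u.length) hL.pos
    (hL.npos _ hd.enter) (M.v u)
    (fun i => (M.v (P.take (u.length + i * N)))⁻¹ * M.v (P'.take (u.length + i * N)))
    (fun i _ => hEF P P' hP hP' hPF _) (fun i hi => by rw [← hPt i hi, mul_inv_cancel_left])
  refine hd'.before _ (hle i hi).2 ?_
  rwa [hd'.eq, List.append_assoc, List.take_append_of_le_length (hle i hi).2.le] at h2

/-- Exit times. -/
theorem exit_time (hc : M.Ctx ζ D) (hF : M.FTP) {N : ℕ} {Z : M.S → List M.A} {n : M.S → ℕ}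
    (hL : M.Loops ζ N Z n) (F : Set G) (hFin : F.Finite) :
    ∃ C : ℕ, ∀ P u c w P' u' c' w', M.Acc P → M.Acc P' → (M.v P)⁻¹ * M.v P' ∈ F →
      M.Dec ζ P u c w → M.Dec ζ P' u' c' w' → u'.length ≤ u.length + c.length →
      u'.length + c'.length ≤ u.length + c.length + C := by
  obtain ⟨E, hE, hEF⟩ := hF F hFin
  -- the inverses of the elements of `E`
  refine ⟨Nat.card M.S * E⁻¹.ncard * N, ?_⟩
  intro P u c w P' u' c' w' hP hP' hPF hd hd' hlen
  by_contra hcon
  have hlt : u.length + c.length + Nat.card M.S * E⁻¹.ncard * N < u'.length + c'.length := by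
    omega
  -- the time `|u| + |c| + 1` in the word `P'`
  set t0 : ℕ := u.length + c.length + 1 with ht0
  set a : ℕ := t0 - u'.length with ha
  have hat : u'.length + a = t0 := by omega
  have hac : a ≤ c'.length := by omega
  set s0 : M.S := M.st M.start (u' ++ c'.take a) with hs0
  have hexit' : M.Sp ζ (M.st M.start (u' ++ c')) := hd'.exit
  have hsp : M.Sp ζ s0 := by
    have h := Sp_between (r1 := c'.take a) (r2 := c'.drop a) hc hd'.enter
      (by rw [List.take_append_drop, ← st_append]; exact hexit')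
    rwa [← st_append] at h
  have hr : M.Sp ζ (M.st s0 (c'.drop a)) := by
    rw [hs0, ← st_append, List.append_assoc, List.take_append_drop]; exact hexit'
  have hle : ∀ i ≤ Nat.card M.S * E⁻¹.ncard, i * N ≤ (c'.drop a).length := by
    intro i hi
    have : i * N ≤ Nat.card M.S * E⁻¹.ncard * N := Nat.mul_le_mul_right N hi
    rw [List.length_drop]
    omega
  have hP't : ∀ i ≤ Nat.card M.S * E⁻¹.ncard,
      M.v (P'.take (t0 + i * N)) = M.v (u' ++ c'.take a) * ζ ^ (n s0 * i) := by
    intro i hi
    have h1 : P'.take (t0 + i * N) = (u' ++ c'.take a) ++ (c'.drop a).take (i * N) := by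
      have h2 : P' = (u' ++ c'.take a) ++ (c'.drop a ++ w') := by
        rw [hd'.eq]
        simp only [List.append_assoc]
        rw [← List.append_assoc (c'.take a), List.take_append_drop]
      have h3 : t0 + i * N = (u' ++ c'.take a).length + i * N := by
        rw [List.length_append, List.length_take, Nat.min_eq_left hac, hat]
      rw [h3]
      conv_lhs => rw [h2]
      rw [List.take_length_add_append, List.take_append_of_le_length (hle i hi)]
    rw [h1, v_append, ← hs0, hL.val_take_mul hsp hr (hle i hi)]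
  obtain ⟨i, hi, h1, h2⟩ := meet hc hE.inv hP (N := N) (t0 := t0) hL.pos
    (hL.npos _ hsp) (M.v (u' ++ c'.take a))
    (fun i => (M.v (P'.take (t0 + i * N)))⁻¹ * M.v (P.take (t0 + i * N)))
    (fun i _ => by
      have := hEF P P' hP hP' hPF (t0 + i * N)
      rw [Set.mem_inv, mul_inv_rev, inv_inv]
      exact this)
    (fun i hi => by rw [← hP't i hi, mul_inv_cancel_left])
  have hw : P.take (t0 + i * N) = u ++ c ++ w.take (1 + i * N) := by
    have h3 : t0 + i * N = (u ++ c).length + (1 + i * N) := by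
      rw [List.length_append]; omega
    rw [h3]
    conv_lhs => rw [hd.eq]
    rw [List.take_length_add_append]
  rw [hw] at h2
  refine hd.after (w.take (1 + i * N)) (w.drop (1 + i * N)) (List.take_append_drop _ _).symm
    ?_ h2
  intro hnil
  have h4 : (P.take (t0 + i * N)).length = t0 + i * N := by
    rw [List.length_take]; omega
  rw [hw, hnil, List.append_nil, List.length_append] at h4
  omega

end Mach

end Pool.Agent.AutSol
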