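import Pool.Agent.AutSol.Defs

/-! # W (module 1): combinatorics of words -/

set_option autoImplicit false

namespace Pool.Agent.AutSol

variable {A : Type}

/-- If `y^m x = x z^n` with `m, n ≥ 1` and `y` nonempty, then `x z` is a prefix of a power of `y`.
Proof: iterate, `y^(m j) x = x z^(n j)` for all `j`; take `j ≥ 1` with `|x z| ≤ m j |y|`. -/
theorem prefix_of_conj {y x z : List A} {m n : ℕ} (hy : y ≠ []) (hm : 1 ≤ m) (hn : 1 ≤ n)
    (h : rep m y ++ x = x ++ rep n z) : ∃ K, (x ++ z) <+: rep K y := by
  have hit : ∀ j, rep (m * j) y ++ x = x ++ rep (n * j) z := by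
    intro j
    induction j with
    | zero => simp
    | succ j ih =>
      rw [Nat.mul_succ, Nat.mul_succ, rep_add, rep_add, List.append_assoc, h,
        ← List.append_assoc, ih, List.append_assoc]
  have hylen : 1 ≤ y.length := List.length_pos_iff.2 hy
  set j := (x ++ z).length + 1 with hj
  have h1 : (x ++ z) <+: rep (m * j) y ++ x := by
    rw [hit j]
    obtain ⟨i, hi⟩ : ∃ i, n * j = i + 1 := ⟨n * j - 1, by
      have : 1 ≤ n * j := Nat.mul_pos hn (by omega)
      omega⟩
    rw [hi, rep_succ, ← List.append_assoc]
    exact List.prefix_append _ _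
  refine ⟨m * j, ?_⟩
  refine List.prefix_of_prefix_length_le h1 (List.prefix_append _ _) ?_
  rw [length_rep]
  calc (x ++ z).length ≤ j := by omega
    _ = 1 * j * 1 := by ring
    _ ≤ m * j * y.length := by gcongr

/-- Two prefixes of powers of the same word with the same length are equal. -/
theorem prefix_rep_unique {y x x' : List A} {K K' : ℕ} (h : x <+: rep K y) (h' : x' <+: rep K' y)
    (hl : x.length = x'.length) : x = x' := by
  have h1 : x <+: rep (K + K') y := by
    rw [rep_add]; exact h.trans (List.prefix_append _ _)
  have h2 : x' <+: rep (K + K') y := by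
    rw [Nat.add_comm, rep_add]; exact h'.trans (List.prefix_append _ _)
  have h3 : x <+: x' := List.prefix_of_prefix_length_le h1 h2 hl.le
  exact h3.eq_of_length hl

/-- A prefix of a power of `y` is a power of `y` followed by a proper prefix of `y`. -/
theorem eq_of_prefix_rep {y x : List A} {K : ℕ} (hy : y ≠ []) (h : x <+: rep K y) :
    x = rep (x.length / y.length) y ++ y.take (x.length % y.length) := by
  have hylen : 0 < y.length := List.length_pos_iff.2 hy
  have hmod := Nat.mod_lt x.length hylen
  refine prefix_rep_unique h (K' := x.length / y.length + 1) ?_ ?_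
  · rw [rep_succ']
    exact (List.prefix_append_right_inj _).2 (List.take_prefix _ _)
  · rw [List.length_append, length_rep, List.length_take, min_eq_left hmod.le]
    rw [Nat.mul_comm]
    exact (Nat.div_add_mod _ _).symm

/-- Cancellation in an equality of two pumped words. -/
theorem cancel_pump {X y p z q : List A} {i i' j j' : ℕ} (hy : y ≠ []) (hi : i < i')
    (h : X ++ rep i y ++ p ++ rep j z ++ q = X ++ rep i' y ++ p ++ rep j' z ++ q) :
    j' < j ∧ rep (i' - i) y ++ p = p ++ rep (j - j') z := by
  have hylen : 0 < y.length := List.length_pos_iff.2 hy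
  have hlen := congrArg List.length h
  simp only [List.length_append, length_rep] at hlen
  have h1 : i * y.length < i' * y.length := Nat.mul_lt_mul_of_pos_right hi hylen
  have h2 : j' * z.length < j * z.length := by omega
  have h3 : j' < j := lt_of_mul_lt_mul_right h2 (Nat.zero_le _)
  refine ⟨h3, ?_⟩
  have e1 : rep i' y = rep i y ++ rep (i' - i) y := by
    rw [← rep_add]; congr 1; omega
  have e2 : rep j z = rep (j - j') z ++ rep j' z := by
    rw [← rep_add]; congr 1; omega
  rw [e1, e2] at h
  simp only [List.append_assoc, List.append_cancel_left_eq] at h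
  simp only [← List.append_assoc, List.append_cancel_right_eq] at h
  exact h.symm

/-- Rotation: cutting `rep K y` at the time `t` one sees powers of a rotated word.  Here
`y = y1 ++ y2` and `t = |y| a + |y1|`. -/
theorem rep_rotate (y1 y2 : List A) (n : ℕ) :
    rep (n + 1) (y1 ++ y2) = y1 ++ rep n (y2 ++ y1) ++ y2 := by
  induction n with
  | zero => simp
  | succ n ih => rw [rep_succ, ih, rep_succ n]; simp [List.append_assoc]

end Pool.Agent.AutSol
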